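import Pool.Agent.Work.MP_37ce0f_lc.W.Lower

namespace Pool.Agent.Work.MP_37ce0f_lc.Q
open Pool.Agent.Work.MP_37ce0f_lc.W

/-- The parent of `v ≥ 1` in the spider with five legs. -/
def low5Par (L v : ℕ) : ℕ :=
  if v = L + 1 ∨ v = 2 * L + 1 ∨ v = 3 * L + 1 ∨ v = 4 * L + 1 then 0 else v - 1

/-- The leg of `w ≥ 1`. -/
def low5Leg (L w : ℕ) : ℕ :=
  if w ≤ L then 0 else if w ≤ 2 * L then 1 else if w ≤ 3 * L then 2 else if w ≤ 4 * L then 3 else 4

theorem low5Par_lt {L v : ℕ} (hv : v ≠ 0) : low5Par L v < v := by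
  unfold low5Par; split_ifs <;> omega

theorem low5Par_spec (L v : ℕ) :
    ((v = L + 1 ∨ v = 2 * L + 1 ∨ v = 3 * L + 1 ∨ v = 4 * L + 1) ∧ low5Par L v = 0) ∨
    (v ≠ L + 1 ∧ v ≠ 2 * L + 1 ∧ v ≠ 3 * L + 1 ∧ v ≠ 4 * L + 1 ∧ low5Par L v = v - 1) := by
  unfold low5Par; split_ifs <;> omega

theorem low5Leg_spec (L w : ℕ) : (w ≤ L ∧ low5Leg L w = 0) ∨
    (L < w ∧ w ≤ 2 * L ∧ low5Leg L w = 1) ∨ (2 * L < w ∧ w ≤ 3 * L ∧ low5Leg L w = 2) ∨
    (3 * L < w ∧ w ≤ 4 * L ∧ low5Leg L w = 3) ∨ (4 * L < w ∧ low5Leg L w = 4) := by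
  unfold low5Leg; split_ifs <;> omega

/-- The spider with centre `0`. -/
def low5Spider (n L : ℕ) : SimpleGraph (Fin n) where
  Adj u v := (u.val ≠ 0 ∧ v.val = low5Par L u.val) ∨ (v.val ≠ 0 ∧ u.val = low5Par L v.val)
  symm := ⟨fun _ _ h => h.symm⟩
  loopless := ⟨fun u h => by
    rcases h with ⟨h0, h1⟩ | ⟨h0, h1⟩ <;> exact absurd (low5Par_lt (L := L) h0) (by omega)⟩

theorem low5_cut {L v a b : ℕ} (hv : v ≠ 0)
    (h : (a ≠ 0 ∧ b = low5Par L a) ∨ (b ≠ 0 ∧ a = low5Par L b))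
    (ha : v ≤ a ∧ low5Leg L a = low5Leg L v) (hb : ¬ (v ≤ b ∧ low5Leg L b = low5Leg L v)) :
    a = v ∧ b = low5Par L v := by
  have key : a = v ∧ b = low5Par L a := by
    have s1 := low5Par_spec L a
    have s2 := low5Par_spec L b
    have s3 := low5Leg_spec L a
    have s4 := low5Leg_spec L b
    have s5 := low5Leg_spec L v
    omega
  obtain ⟨rfl, h2⟩ := key
  exact ⟨rfl, h2⟩

theorem low5_out {n L : ℕ} {x y : Fin n} (p : (low5Spider n L).Walk x y) {v : ℕ} (hv : v ≠ 0)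
    (hx : v ≤ x.val ∧ low5Leg L x.val = low5Leg L v)
    (hy : ¬ (v ≤ y.val ∧ low5Leg L y.val = low5Leg L v)) :
    ∃ d ∈ p.darts, d.fst.val = v ∧ d.snd.val = low5Par L v := by
  obtain ⟨d, hd, h1, h2⟩ := p.exists_boundary_dart
    {w | v ≤ w.val ∧ low5Leg L w.val = low5Leg L v} hx hy
  exact ⟨d, hd, low5_cut hv d.adj h1 h2⟩

theorem low5_in {n L : ℕ} {x y : Fin n} (p : (low5Spider n L).Walk x y) {v : ℕ} (hv : v ≠ 0)
    (hx : ¬ (v ≤ x.val ∧ low5Leg L x.val = low5Leg L v))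
    (hy : v ≤ y.val ∧ low5Leg L y.val = low5Leg L v) :
    ∃ d ∈ p.darts, d.snd.val = v ∧ d.fst.val = low5Par L v := by
  obtain ⟨d, hd, h1, h2⟩ := p.exists_boundary_dart
    {w | ¬ (v ≤ w.val ∧ low5Leg L w.val = low5Leg L v)} hx (not_not.mpr hy)
  exact ⟨d, hd, low5_cut hv d.adj.symm (not_not.mp h2) h1⟩

theorem low5_tree (n L : ℕ) (hn : 1 ≤ n) : (low5Spider n L).IsTree := by
  have hr : ∀ k : ℕ, ∀ v : Fin n, v.val = k → (low5Spider n L).Reachable v ⟨0, hn⟩ := by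
    intro k
    induction k using Nat.strong_induction_on with
    | _ k ih =>
      intro v hv
      by_cases h0 : v.val = 0
      · have : v = ⟨0, hn⟩ := Fin.ext h0
        rw [this]
      · have hl := low5Par_lt (L := L) h0
        have hw : low5Par L v.val < n := hl.trans v.isLt
        have ha : (low5Spider n L).Adj v ⟨low5Par L v.val, hw⟩ := Or.inl ⟨h0, rfl⟩
        exact ha.reachable.trans (ih _ (hv ▸ hl) ⟨_, hw⟩ rfl)
  have hb : ∀ u v : Fin n, u.val ≠ 0 → v.val = low5Par L u.val →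
      (low5Spider n L).IsBridge s(u, v) := by
    intro u v h0 h1
    rw [SimpleGraph.isBridge_iff_forall_walk_mem_edges]
    intro p
    have hl := low5Par_lt (L := L) h0
    obtain ⟨d, hd, e1, e2⟩ := low5_out p h0 ⟨le_rfl, rfl⟩ (by omega)
    have f1 : d.fst = u := Fin.ext e1
    have f2 : d.snd = v := Fin.ext (e2.trans h1.symm)
    rw [SimpleGraph.Walk.edges_eq_map_darts]
    exact List.mem_map.mpr ⟨d, hd, by rw [← f1, ← f2]; rfl⟩
  have hne : Nonempty (Fin n) := ⟨⟨0, hn⟩⟩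
  refine ⟨⟨fun u v => (hr _ u rfl).trans (hr _ v rfl).symm⟩, ?_⟩
  rw [SimpleGraph.isAcyclic_iff_forall_adj_isBridge]
  rintro u v (⟨h0, h1⟩ | ⟨h0, h1⟩)
  · exact hb u v h0 h1
  · rw [Sym2.eq_swap]; exact hb v u h0 h1

theorem low5_nc (n L : ℕ) : NoCross (low5Spider n L) := by
  intro a b c d hab hbc hcd h1 h2
  have h1' : (a.val ≠ 0 ∧ c.val = low5Par L a.val) ∨ (c.val ≠ 0 ∧ a.val = low5Par L c.val) := h1
  have h2' : (b.val ≠ 0 ∧ d.val = low5Par L b.val) ∨ (d.val ≠ 0 ∧ b.val = low5Par L d.val) := h2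
  rw [Fin.lt_def] at hab hbc hcd
  have s1 := low5Par_spec L a.val
  have s2 := low5Par_spec L b.val
  have s3 := low5Par_spec L c.val
  have s4 := low5Par_spec L d.val
  omega

/-- For any two legs some vector is negative on the steps of one and positive on the steps of
the other. -/
def low5Sep (X Y : Fin 5 → ℕ → ℤ) (L : ℕ) : Prop :=
  ∀ i j, i ≠ j → ∃ d1 d2 : ℝ,
    (∀ k, k < L → d1 * ((X i (k + 1) : ℝ) - X i k) + d2 * ((Y i (k + 1) : ℝ) - Y i k) < 0) ∧
    (∀ k, k < L → 0 < d1 * ((X j (k + 1) : ℝ) - X j k) + d2 * ((Y j (k + 1) : ℝ) - Y j k))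

theorem low5_swap {X Y : Fin 5 → ℕ → ℤ} {L : ℕ} (h : low5Sep X Y L) : low5Sep Y X L := by
  intro i j hij
  obtain ⟨d1, d2, h1, h2⟩ := h i j hij
  exact ⟨d2, d1, fun k hk => by have := h1 k hk; linarith,
    fun k hk => by have := h2 k hk; linarith⟩

theorem low5_neg {X Y : Fin 5 → ℕ → ℤ} {L : ℕ} (h : low5Sep X Y L) :
    low5Sep (fun i k => -X i k) Y L := by
  intro i j hij
  obtain ⟨d1, d2, h1, h2⟩ := h i j hij
  exact ⟨-d1, d2, fun k hk => by have := h1 k hk; push_cast; linarith,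
    fun k hk => by have := h2 k hk; push_cast; linarith⟩

theorem low5_steps (X : ℕ → ℤ) (L : ℕ) (h : X 0 - 2 * L < X L ∧ X L < X 0 + L) :
    (∃ k, k < L ∧ X (k + 1) - X k ≤ 0) ∧ ∃ k, k < L ∧ -1 ≤ X (k + 1) - X k := by
  constructor
  · by_contra hc
    push Not at hc
    have := low_tele X L (fun k hk => by have := hc k hk; omega)
    omega
  · by_contra hc
    push Not at hc
    have := low_tele (fun k => -X k - k) L (fun k hk => by have := hc k hk; push_cast; omega)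
    simp only [Nat.cast_zero] at this
    omega

/-- If all steps go more to the right than up, the cone contains the vector pointing down. -/
theorem low5_down (a b : ℕ → ℤ) (L : ℕ) (h : ∀ k, k < L → b k < a k)
    (h1 : ∃ k, k < L ∧ a k ≤ 0) (h2 : ∃ k, k < L ∧ -1 ≤ b k) (d1 d2 : ℝ)
    (hd : ∀ k, k < L → 0 < d1 * (a k : ℝ) + d2 * b k) : d2 < 0 := by
  obtain ⟨k, hk, a1⟩ := h1
  obtain ⟨l, hl, a2⟩ := h2
  have a3 : 0 ≤ a l := by have := h l hl; omega
  have a4 : ∀ k, k < L → (b k : ℝ) < a k := fun k hk => by exact_mod_cast h k hk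
  obtain ⟨t, ht⟩ := low_flat (b l) (a l) (b k) (a k) (by exact_mod_cast a3) (by exact_mod_cast a1)
  have b1 := ht (-1) 1 (by have := a4 l hl; linarith) (by have := a4 k hk; linarith)
  have b2 := ht d2 d1 (by have := hd l hl; linarith) (by have := hd k hk; linarith)
  nlinarith

theorem low5_cone (a b : ℕ → ℤ) (L : ℕ) (h1 : ∃ k, k < L ∧ a k ≤ 0) (h2 : ∃ k, k < L ∧ -1 ≤ a k)
    (h3 : ∃ k, k < L ∧ b k ≤ 0) (h4 : ∃ k, k < L ∧ -1 ≤ b k) (e1 e2 : ℝ)
    (he : ∀ k, k < L → 0 < e1 * (a k : ℝ) + e2 * b k) :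
    ∃ c : Fin 4, ∀ d1 d2 : ℝ, (∀ k, k < L → 0 < d1 * (a k : ℝ) + d2 * b k) →
      0 < d1 * ![1, -1, 0, -1] c + d2 * ![1, -1, -1, 0] c := by
  by_cases c1 : ∀ k, k < L → b k < a k
  · exact ⟨2, fun d1 d2 hd => by simpa using low5_down a b L c1 h1 h4 d1 d2 hd⟩
  by_cases c2 : ∀ k, k < L → a k < b k
  · exact ⟨3, fun d1 d2 hd => by
      simpa using low5_down b a L c2 h3 h2 d2 d1 fun k hk => by have := hd k hk; linarith⟩
  push Not at c1 c2
  obtain ⟨k, hk, a1⟩ := c1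
  obtain ⟨l, hl, a2⟩ := c2
  have a3 : (a k : ℝ) ≤ b k := by exact_mod_cast a1
  have a4 : (b l : ℝ) ≤ a l := by exact_mod_cast a2
  obtain ⟨t, ht⟩ := low_flat (b l) (a l - b l) (b k) (a k - b k) (by linarith) (by linarith)
  have b1 : ∀ d1 d2 : ℝ, (∀ k, k < L → 0 < d1 * (a k : ℝ) + d2 * b k) → 0 < (d1 + d2) * t :=
    fun d1 d2 hd => ht (d1 + d2) d1 (by have := hd l hl; linarith) (by have := hd k hk; linarith)
  rcases lt_trichotomy t 0 with h | h | h
  · refine ⟨1, fun d1 d2 hd => ?_⟩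
    have := b1 d1 d2 hd
    show 0 < d1 * (-1) + d2 * (-1)
    nlinarith
  · have := b1 e1 e2 he
    rw [h, mul_zero] at this
    exact absurd this (lt_irrefl _)
  · refine ⟨0, fun d1 d2 hd => ?_⟩
    have := b1 d1 d2 hd
    show 0 < d1 * 1 + d2 * 1
    nlinarith

theorem low5_core0 (X Y : Fin 5 → ℕ → ℤ) (L : ℕ)
    (hX : ∀ i, X i 0 - 2 * L < X i L ∧ X i L < X i 0 + L)
    (hY : ∀ i, Y i 0 - 2 * L < Y i L ∧ Y i L < Y i 0 + L) (hd : low5Sep X Y L) : False := by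
  have hc : ∀ i, ∃ c : Fin 4, ∀ d1 d2 : ℝ, (∀ k, k < L →
      0 < d1 * ((X i (k + 1) - X i k : ℤ) : ℝ) + d2 * (Y i (k + 1) - Y i k : ℤ)) →
      0 < d1 * ![1, -1, 0, -1] c + d2 * ![1, -1, -1, 0] c := by
    intro i
    obtain ⟨j, hj⟩ := exists_ne i
    obtain ⟨e1, e2, -, he⟩ := hd j i hj
    exact low5_cone (fun k => X i (k + 1) - X i k) (fun k => Y i (k + 1) - Y i k) L
      (low5_steps _ L (hX i)).1 (low5_steps _ L (hX i)).2 (low5_steps _ L (hY i)).1
      (low5_steps _ L (hY i)).2 e1 e2 fun k hk => by push_cast; exact he k hk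
  choose c hc using hc
  obtain ⟨i, j, hij, h⟩ := Fintype.exists_ne_map_eq_of_card_lt c (by simp)
  obtain ⟨d1, d2, h1, h2⟩ := hd i j hij
  have a1 := hc i (-d1) (-d2) fun k hk => by have := h1 k hk; push_cast; linarith
  have a2 := hc j d1 d2 fun k hk => by push_cast; exact h2 k hk
  rw [h] at a1
  linarith

theorem low5_core (X Y : Fin 5 → ℕ → ℤ) (L W H : ℕ) (x0 y0 cx cy : ℤ)
    (h0 : ∀ i, X i 0 = cx ∧ Y i 0 = cy)
    (hb : ∀ i k, x0 ≤ X i k ∧ X i k ≤ x0 + W ∧ y0 ≤ Y i k ∧ Y i k ≤ y0 + H)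
    (hd : low5Sep X Y L) : 2 * L ≤ max W H := by
  by_contra hlt
  have hW : W < 2 * L := (le_max_left W H).trans_lt (not_le.1 hlt)
  have hH : H < 2 * L := (le_max_right W H).trans_lt (not_le.1 hlt)
  by_cases c1 : x0 + W < cx + L <;> by_cases c2 : y0 + H < cy + L
  · refine low5_core0 _ _ L (fun i => ?_) (fun i => ?_) hd <;>
    · have := h0 i; have := hb i 0; have := hb i L; omega
  · refine low5_core0 _ _ L (fun i => ?_) (fun i => ?_) (low5_neg (low5_swap hd)) <;>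
    · have := h0 i; have := hb i 0; have := hb i L; omega
  · refine low5_core0 _ _ L (fun i => ?_) (fun i => ?_) (low5_neg hd) <;>
    · have := h0 i; have := hb i 0; have := hb i L; omega
  · refine low5_core0 _ _ L (fun i => ?_) (fun i => ?_) (low5_neg (low5_swap (low5_neg hd))) <;>
    · have := h0 i; have := hb i 0; have := hb i L; omega

/-- Paper section 6. Copy the pattern of `W/Lower.lean` (`lowSpider`, `low_cut`, `low_out`,
`low_in`, `low_tree`, `low_nc`, `lower`; reuse `low_chain`, `low_tele`, `low_flat`) for the spider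
with legs `1..L`, `L+1..2L`, …, `4L+1..`, `L = (n-1)/5`. Core: five legs `X i, Y i` of `L` steps
from a common start in a box with `W, H < 2L`; after reflecting, the room to the right of and
above the start is `< L` and the room left and below is `< 2L`. Each leg has steps with `dx ≤ 0`,
with `dy ≤ 0`, with `dx ≥ -1`, with `dy ≥ -1` (telescoping). So for one of the four vectors
`e = (1,1), (-1,-1), (0,-1), (-1,0)` every `d` positive on all steps of the leg is positive on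
`e`: if there are steps with `dx - dy ≥ 0` and `≤ 0` combine them to a multiple of `(1,1)`
(nonzero, since some `d` is positive on all steps); if all have `dx > dy` then the step with
`dy ≥ -1` has `dx ≥ 0`, combine it with the step with `dx ≤ 0` to a vector `(0, y)`, `y < 0`;
symmetrically. Pigeonhole on 5 legs. -/
theorem lower5 (n : ℕ) (hn : 1 ≤ n) : ∃ G : SimpleGraph (Fin n), G.IsTree ∧ NoCross G ∧
    ∀ (D : Drawing n) (W H : ℕ), IsMono G D → InBox G D W H →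
      2 * ((n - 1) / 5) ≤ max W H := by
  obtain ⟨L, hL⟩ : ∃ L, L = (n - 1) / 5 := ⟨_, rfl⟩
  refine ⟨low5Spider n L, low5_tree n L hn, low5_nc n L, ?_⟩
  intro D W H hm hbox
  rw [← hL]
  have h3 : 5 * L < n := by omega
  let P : ℕ → ℤ × ℤ := fun v => if h : v < n then D.pos ⟨v, h⟩ else D.pos ⟨0, hn⟩
  have hP : ∀ v : Fin n, P v.val = D.pos v := fun v => by simp [P]
  obtain ⟨x0, y0, hbox⟩ := hbox
  have hPb : ∀ v, x0 ≤ (P v).1 ∧ (P v).1 ≤ x0 + W ∧ y0 ≤ (P v).2 ∧ (P v).2 ≤ y0 + H := by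
    intro v
    apply hbox
    left
    by_cases h : v < n
    · exact ⟨⟨v, h⟩, by simp [P, h]⟩
    · exact ⟨⟨0, hn⟩, by simp [P, h]⟩
  have hv : ∀ (i : Fin 5) (k : ℕ), k < L → lowV L i (k + 1) ≠ 0 ∧
      low5Par L (lowV L i (k + 1)) = lowV L i k ∧ lowV L i (k + 1) ≤ lowV L i L ∧
      low5Leg L (lowV L i (k + 1)) = i ∧ low5Leg L (lowV L i L) = i := by
    intro i k hk
    have e1 : lowV L i (k + 1) = i * L + (k + 1) := if_neg (by omega)
    have e2 : lowV L i L = i * L + L := if_neg (by omega)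
    have e3 : (k = 0 ∧ lowV L i k = 0) ∨ (k ≠ 0 ∧ lowV L i k = i * L + k) := by
      unfold lowV; split_ifs <;> omega
    have s1 := low5Par_spec L (lowV L i (k + 1))
    have s2 := low5Leg_spec L (lowV L i (k + 1))
    have s3 := low5Leg_spec L (lowV L i L)
    have hi : i.val = 0 ∨ i.val = 1 ∨ i.val = 2 ∨ i.val = 3 ∨ i.val = 4 := by omega
    generalize i.val = m at *
    rcases hi with rfl | rfl | rfl | rfl | rfl <;> omega
  have ht : ∀ i : Fin 5, lowV L i L < n := by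
    intro i
    unfold lowV
    fin_cases i <;> simp only [] <;> split_ifs <;> omega
  have hd : ∀ i j : Fin 5, i ≠ j → ∃ d1 d2 : ℝ,
      (∀ k, k < L → d1 * (((P (lowV L i (k + 1))).1 : ℝ) - (P (lowV L i k)).1) +
        d2 * (((P (lowV L i (k + 1))).2 : ℝ) - (P (lowV L i k)).2) < 0) ∧
      (∀ k, k < L → 0 < d1 * (((P (lowV L j (k + 1))).1 : ℝ) - (P (lowV L j k)).1) +
        d2 * (((P (lowV L j (k + 1))).2 : ℝ) - (P (lowV L j k)).2)) := by
    intro i j hij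
    obtain ⟨p, -, d, hp⟩ := hm ⟨_, ht i⟩ ⟨_, ht j⟩
    have hij' : i.val ≠ j.val := fun h => hij (Fin.ext h)
    have he : ∀ e ∈ p.darts, d.1 * ((P e.fst.val).1 : ℝ) + d.2 * (P e.fst.val).2 <
        d.1 * ((P e.snd.val).1 : ℝ) + d.2 * (P e.snd.val).2 := by
      intro e he
      rw [hP, hP]
      refine low_chain (fun q => d.1 * (q.1 : ℝ) + d.2 * q.2) (D.bends e.fst e.snd) _ _ ?_
      intro s hs
      have := hp e he s hs
      linarith
    refine ⟨d.1, d.2, fun k hk => ?_, fun k hk => ?_⟩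
    · obtain ⟨a1, a2, a3, a4, a5⟩ := hv i k hk
      obtain ⟨-, -, -, -, b5⟩ := hv j k hk
      obtain ⟨e, he', e1, e2⟩ := low5_out p a1 ⟨a3, a5.trans a4.symm⟩
        (fun h => hij' (a4.symm.trans (h.2.symm.trans b5)))
      have := he e he'
      rw [e1, e2, a2] at this
      linarith
    · obtain ⟨a1, a2, a3, a4, a5⟩ := hv j k hk
      obtain ⟨-, -, -, -, b5⟩ := hv i k hk
      obtain ⟨e, he', e1, e2⟩ := low5_in p a1
        (fun h => hij' (b5.symm.trans (h.2.trans a4))) ⟨a3, a5.trans a4.symm⟩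
      have := he e he'
      rw [e1, e2, a2] at this
      linarith
  exact low5_core (fun i k => (P (lowV L i k)).1) (fun i k => (P (lowV L i k)).2) L W H x0 y0
    (P 0).1 (P 0).2 (fun _ => ⟨rfl, rfl⟩) (fun i k => hPb _) hd

end Pool.Agent.Work.MP_37ce0f_lc.Q
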