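import Pool.Agent.Work.MP_37ce0f_lc.W.Defs
import Pool.Agent.Work.MP_37ce0f_lc.W.Tree

-- merged part: Pool.Agent.Work.MP_37ce0f_lc.Q.Base
section
namespace Pool.Agent.Work.MP_37ce0f_lc.Q
open Pool.Agent.Work.MP_37ce0f_lc.W Finset Classical
noncomputable section

/-- `k` quarter turns -/
def rot (k : ℤ) (v : ℤ × ℤ) : ℤ × ℤ :=
  if k % 4 = 0 then v else if k % 4 = 1 then (-v.2, v.1)
  else if k % 4 = 2 then (-v.1, -v.2) else (v.2, -v.1)

/-- the vector `v` has pseudo-angle `t` (a full turn is `4`) -/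
def Ang (v : ℤ × ℤ) (t : ℚ) : Prop :=
  ∃ k x y : ℤ, 0 < x ∧ 0 ≤ y ∧ t = k + (y : ℚ) / (x + y) ∧ v = rot k (x, y)

theorem rot_succ (k : ℤ) (v : ℤ × ℤ) : rot (k + 1) v = rot k (-v.2, v.1) := by
  have h : k % 4 = 0 ∨ k % 4 = 1 ∨ k % 4 = 2 ∨ k % 4 = 3 := by omega
  unfold rot
  rcases h with h | h | h | h
  · have : (k + 1) % 4 = 1 := by omega
    simp [h, this]
  · have : (k + 1) % 4 = 2 := by omega
    simp [h, this]
  · have : (k + 1) % 4 = 3 := by omega
    simp [h, this]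
  · have : (k + 1) % 4 = 0 := by omega
    simp [h, this]

theorem rot_two (k : ℤ) (v : ℤ × ℤ) : rot (k + 2) v = -rot k v := by
  have h : k % 4 = 0 ∨ k % 4 = 1 ∨ k % 4 = 2 ∨ k % 4 = 3 := by omega
  unfold rot
  rcases h with h | h | h | h
  · have : (k + 2) % 4 = 2 := by omega
    simp [h, this, Prod.ext_iff]
  · have : (k + 2) % 4 = 3 := by omega
    simp [h, this]
  · have : (k + 2) % 4 = 0 := by omega
    simp [h, this, Prod.ext_iff]
  · have : (k + 2) % 4 = 1 := by omega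
    simp [h, this]

theorem rot_four (k : ℤ) (v : ℤ × ℤ) : rot (k + 4) v = rot k v := by
  have : (k + 4) % 4 = k % 4 := by omega
  unfold rot; rw [this]

theorem cr_rot (k : ℤ) (a b : ℤ × ℤ) : cr (rot k a) (rot k b) = cr a b := by
  unfold rot cr
  split_ifs <;> simp <;> ring

theorem cr_swap' (a b : ℤ × ℤ) : cr b a = -cr a b := by unfold cr; ring

theorem cr_negr (a b : ℤ × ℤ) : cr a (-b) = -cr a b := by
  unfold cr; simp only [Prod.fst_neg, Prod.snd_neg]; ring

theorem cr_negl (a b : ℤ × ℤ) : cr (-a) b = -cr a b := by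
  unfold cr; simp only [Prod.fst_neg, Prod.snd_neg]; ring

theorem cr_addr (a b c : ℤ × ℤ) : cr a (b + c) = cr a b + cr a c := by
  unfold cr; simp only [Prod.fst_add, Prod.snd_add]; ring

theorem cr_subr (a b c : ℤ × ℤ) : cr a (b - c) = cr a b - cr a c := by
  unfold cr; simp only [Prod.fst_sub, Prod.snd_sub]; ring

theorem cr_self (a : ℤ × ℤ) : cr a a = 0 := by unfold cr; ring

theorem cr_sum (a : ℤ × ℤ) (s : Finset ℤ) (f : ℤ → ℤ × ℤ) :
    cr a (∑ j ∈ s, f j) = ∑ j ∈ s, cr a (f j) := by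
  induction s using Finset.induction_on with
  | empty => simp [cr]
  | insert a s h ih => rw [sum_insert h, sum_insert h, cr_addr, ih]

theorem frac_lt {x y x' y' : ℤ} (hx : 0 < x) (hy : 0 ≤ y) (hx' : 0 < x') (hy' : 0 ≤ y') :
    (y : ℚ) / (x + y) < (y' : ℚ) / (x' + y') ↔ y * x' < x * y' := by
  have h1 : (0 : ℚ) < x + y := by exact_mod_cast (by omega : 0 < x + y)
  have h2 : (0 : ℚ) < x' + y' := by exact_mod_cast (by omega : 0 < x' + y')
  rw [div_lt_div_iff₀ h1 h2]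
  constructor
  · intro h
    have : (y : ℚ) * x' < x * y' := by linarith
    exact_mod_cast this
  · intro h
    have : (y : ℚ) * x' < x * y' := by exact_mod_cast h
    linarith

theorem frac_rng {x y : ℤ} (hx : 0 < x) (hy : 0 ≤ y) :
    0 ≤ (y : ℚ) / (x + y) ∧ (y : ℚ) / (x + y) < 1 := by
  have h1 : (0 : ℚ) < x + y := by exact_mod_cast (by omega : 0 < x + y)
  have h2 : (0 : ℚ) ≤ y := by exact_mod_cast hy
  have h3 : (0 : ℚ) < x := by exact_mod_cast hx
  exact ⟨div_nonneg h2 h1.le, by rw [div_lt_one h1]; linarith⟩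

theorem Ang.neg {v : ℤ × ℤ} {t : ℚ} (h : Ang v t) : Ang (-v) (t + 2) := by
  obtain ⟨k, x, y, hx, hy, ht, hv⟩ := h
  exact ⟨k + 2, x, y, hx, hy, by rw [ht]; push_cast; ring, by rw [rot_two, hv]⟩

theorem Ang.add4 {v : ℤ × ℤ} {t : ℚ} (h : Ang v t) : Ang v (t + 4) := by
  have := h.neg.neg
  rwa [neg_neg, add_assoc, show (2 : ℚ) + 2 = 4 by norm_num] at this

theorem Ang.sub4 {v : ℤ × ℤ} {t : ℚ} (h : Ang v t) : Ang v (t - 4) := by
  obtain ⟨k, x, y, hx, hy, ht, hv⟩ := h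
  refine ⟨k - 4, x, y, hx, hy, by rw [ht]; push_cast; ring, ?_⟩
  rw [hv, ← rot_four (k - 4), sub_add_cancel]

theorem Ang.neg' {v : ℤ × ℤ} {t : ℚ} (h : Ang v t) : Ang (-v) (t - 2) := by
  have := h.neg.sub4
  rwa [show t + 2 - 4 = t - 2 by ring] at this

theorem Ang.cr_pos {u v : ℤ × ℤ} {s t : ℚ} (hu : Ang u s) (hv : Ang v t) (h1 : s < t)
    (h2 : t < s + 2) : 0 < cr u v := by
  obtain ⟨k, x, y, hx, hy, rfl, rfl⟩ := hu
  obtain ⟨l, x', y', hx', hy', rfl, rfl⟩ := hv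
  have r1 := frac_rng hx hy
  have r2 := frac_rng hx' hy'
  have a1 : k ≤ l := by
    have : (k : ℚ) < l + 1 := by linarith
    have : k < l + 1 := by exact_mod_cast this
    omega
  have a2 : l ≤ k + 2 := by
    have : (l : ℚ) < k + 3 := by linarith
    have : l < k + 3 := by exact_mod_cast this
    omega
  have : l = k ∨ l = k + 1 ∨ l = k + 2 := by omega
  rcases this with rfl | rfl | rfl
  · rw [cr_rot]
    have := (frac_lt hx hy hx' hy').1 (by linarith)
    unfold cr; dsimp only; linarith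
  · rw [rot_succ, cr_rot]
    have := mul_pos hx hx'
    have := mul_nonneg hy hy'
    unfold cr; dsimp only; linarith
  · rw [rot_two, cr_negr, cr_rot]
    have := (frac_lt hx' hy' hx hy).1 (by push_cast at h2; linarith)
    unfold cr; dsimp only; linarith

theorem Ang.cr_eq {u v : ℤ × ℤ} {s : ℚ} (hu : Ang u s) (hv : Ang v s) : cr u v = 0 := by
  obtain ⟨k, x, y, hx, hy, rfl, rfl⟩ := hu
  obtain ⟨l, x', y', hx', hy', e, rfl⟩ := hv
  have r1 := frac_rng hx hy
  have r2 := frac_rng hx' hy'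
  have a1 : k < l + 1 := by
    have : (k : ℚ) < l + 1 := by linarith
    exact_mod_cast this
  have a2 : l < k + 1 := by
    have : (l : ℚ) < k + 1 := by linarith
    exact_mod_cast this
  obtain rfl : l = k := by omega
  rw [cr_rot]
  have b1 := (frac_lt hx hy hx' hy').not.1 (by linarith)
  have b2 := (frac_lt hx' hy' hx hy).not.1 (by linarith)
  unfold cr; dsimp only; linarith

theorem Ang.cr_nonneg {u v : ℤ × ℤ} {s t : ℚ} (hu : Ang u s) (hv : Ang v t) (h1 : s ≤ t)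
    (h2 : t ≤ s + 2) : 0 ≤ cr u v := by
  rcases h1.eq_or_lt with rfl | h1
  · exact (hu.cr_eq hv).ge
  rcases h2.eq_or_lt with rfl | h2
  · have := hu.neg.cr_eq hv
    rw [cr_negl] at this; omega
  · exact (hu.cr_pos hv h1 h2).le

theorem Ang.ne_zero {v : ℤ × ℤ} {t : ℚ} (h : Ang v t) : v ≠ 0 := by
  obtain ⟨k, x, y, hx, hy, -, rfl⟩ := h
  unfold rot
  split_ifs <;> simp [Prod.ext_iff] <;> omega

/-- a positive determinant decides the order of two angles at distance below a half turn -/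
theorem Ang.lt_of_cr {u v : ℤ × ℤ} {s t : ℚ} (hu : Ang u s) (hv : Ang v t) (h : s ≤ t + 2)
    (hc : 0 < cr u v) : s < t := by
  by_contra hn
  have := hv.cr_nonneg hu (not_lt.1 hn) h
  rw [cr_swap'] at this; omega

theorem exists_vec (t : ℚ) : ∃ o, Ang o t := by
  have h0 := Int.fract_nonneg t
  have h1 := Int.fract_lt_one t
  set f := Int.fract t with hf
  have hd : (0 : ℚ) < f.den := by exact_mod_cast f.den_pos
  have e : f = f.num / f.den := (Rat.num_div_den f).symm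
  have n0 : 0 ≤ f.num := Rat.num_nonneg.2 h0
  have n1 : f.num < f.den := by
    rw [e, div_lt_one hd] at h1; exact_mod_cast h1
  refine ⟨_, ⌊t⌋, f.den - f.num, f.num, by omega, n0, ?_, rfl⟩
  push_cast
  rw [sub_add_cancel, ← e, hf, Int.floor_add_fract]

theorem exists_ang0 {v : ℤ × ℤ} (h : v ≠ 0) : ∃ t, Ang v t := by
  obtain ⟨a, b⟩ := v
  have h' : ¬ (a = 0 ∧ b = 0) := by simpa [Prod.ext_iff] using h
  by_cases c0 : 0 < a ∧ 0 ≤ b
  · exact ⟨_, 0, a, b, c0.1, c0.2, rfl, by simp [rot]⟩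
  by_cases c1 : 0 < b ∧ a ≤ 0
  · exact ⟨_, 1, b, -a, c1.1, by omega, rfl, by simp [rot]⟩
  by_cases c2 : a < 0 ∧ b ≤ 0
  · exact ⟨_, 2, -a, -b, by omega, by omega, rfl, by simp [rot]⟩
  · exact ⟨_, 3, -b, a, by omega, by omega, rfl, by simp [rot]⟩

theorem Ang.shift {v : ℤ × ℤ} {t : ℚ} (h : Ang v t) (m : ℤ) : Ang v (t + 4 * m) := by
  obtain ⟨k, x, y, hx, hy, ht, hv⟩ := h
  refine ⟨k + 4 * m, x, y, hx, hy, by rw [ht]; push_cast; ring, ?_⟩
  have : (k + 4 * m) % 4 = k % 4 := by omega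
  rw [hv]; unfold rot; rw [this]

theorem exists_ang {v : ℤ × ℤ} (h : v ≠ 0) (b : ℚ) : ∃ t, b ≤ t ∧ t < b + 4 ∧ Ang v t := by
  obtain ⟨t, ht⟩ := exists_ang0 h
  have h1 := Int.le_ceil ((b - t) / 4)
  have h2 := Int.ceil_lt_add_one ((b - t) / 4)
  exact ⟨_, by linarith, by linarith, ht.shift ⌈(b - t) / 4⌉⟩

theorem Ang.before {o a b : ℤ × ℤ} {w s t : ℚ} (ho : Ang o w) (ha : Ang a s) (hb : Ang b t)
    (h1 : w < s) (h2 : s < t) (h3 : t < w + 4) : Before o a b := by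
  have neg : ∀ {c : ℤ × ℤ} {r : ℚ}, Ang c r → w + 2 ≤ r → r < w + 4 → cr o c ≤ 0 := by
    intro c r hc k1 k2
    have := hc.cr_nonneg ho.add4 k2.le (by linarith)
    rw [cr_swap'] at this; omega
  rcases lt_or_ge s (w + 2) with c1 | c1
  · have p1 := ho.cr_pos ha h1 c1
    rcases lt_or_ge t (w + 2) with c2 | c2
    · have p2 := ho.cr_pos hb (by linarith) c2
      exact Or.inr ⟨by omega, ha.cr_pos hb h2 (by linarith)⟩
    · exact Or.inl ⟨p1, neg hb c2 h3⟩
  · have p1 := neg ha c1 (by linarith)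
    have p2 := neg hb (by linarith) h3
    exact Or.inr ⟨by omega, ha.cr_pos hb h2 (by linarith)⟩

/-- a half turn containing a finite set of small spread -/
theorem mid (S : Finset ℚ) (h : ∀ a ∈ S, ∀ b ∈ S, a ≤ b + 2) :
    ∃ w : ℚ, ∀ a ∈ S, w ≤ a ∧ a ≤ w + 2 ∧
      ((∀ b ∈ S, a < b + 2 ∧ b < a + 2) → w < a ∧ a < w + 2) := by
  rcases S.eq_empty_or_nonempty with rfl | hS
  · exact ⟨0, by simp⟩
  have m1 := S.max'_mem hS
  have m2 := S.min'_mem hS
  refine ⟨(S.max' hS + S.min' hS) / 2 - 1, fun a ha => ?_⟩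
  have k1 := S.le_max' a ha
  have k2 := S.min'_le a ha
  have k3 := h _ m1 _ m2
  refine ⟨by linarith, by linarith, fun k => ?_⟩
  have k4 := (k _ m1).2
  have k5 := (k _ m2).1
  constructor <;> linarith

/-- The contour of a plane tree: step `j` leads from time `j` to time `j+1`, and `mu j` is the
next step on the same edge. -/
structure Mt where
  N : ℤ
  mu : ℤ → ℤ
  lt : ∀ j, j < mu j
  mm : ∀ j, mu (mu j) = j + N
  nc : ∀ j i, j < i → i < mu j → mu i < mu j ∨ j + N < mu i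

namespace Mt
variable (T : Mt)

theorem lt_add (j : ℤ) : T.mu j < j + T.N := by have := T.lt (T.mu j); rwa [T.mm] at this

theorem N_pos : 0 < T.N := by have := T.lt 0; have := T.lt_add 0; omega

theorem mu_add (j : ℤ) : T.mu (j + T.N) = T.mu j + T.N := by rw [← T.mm j, T.mm]

theorem mu_sub (j : ℤ) : T.mu (j - T.N) = T.mu j - T.N := by
  have := T.mu_add (j - T.N); rw [sub_add_cancel] at this; omega

theorem mu_back (j : ℤ) : T.mu (T.mu j - T.N) = j := by rw [T.mu_sub, T.mm]; omega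

theorem mu_inj {i j : ℤ} (h : T.mu i = T.mu j) : i = j := by
  have h1 := T.mm i; have h2 := T.mm j; rw [h] at h1; omega

/-- the step after a step that is not the entry to a leaf is nested in it -/
theorem succ_lt {t : ℤ} (h : T.mu (t - 1) ≠ t) : T.mu t < T.mu (t - 1) := by
  have h1 := T.lt (t - 1)
  have h2 := T.lt_add t
  have := T.nc (t - 1) t (by omega) (by omega)
  omega

/-- number of edges with both steps in `[s, t)` -/
def A (s t : ℤ) : ℕ := ((Ico s t).filter (fun j => T.mu j < t)).card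

/-- the steps of `[s, t)` on the path from the vertex at time `s` to the vertex at time `t` -/
def U (s t : ℤ) : Finset ℤ := (Ico s t).filter (fun j => t ≤ T.mu j ∧ T.mu j < s + T.N)

theorem mem_U {s t j : ℤ} : j ∈ T.U s t ↔ s ≤ j ∧ j < t ∧ t ≤ T.mu j ∧ T.mu j < s + T.N := by
  simp [U, and_assoc]

theorem A_right (s t : ℤ) : T.A s t ≤ T.A s (t + 1) ∧ T.A s (t + 1) ≤ T.A s t + 1 := by
  unfold A
  constructor
  · apply card_le_card
    intro j hj
    simp only [mem_filter, mem_Ico] at hj ⊢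
    omega
  · refine le_trans (card_le_card (t := insert (T.mu t - T.N)
      ((Ico s t).filter (fun j => T.mu j < t))) ?_) (card_insert_le _ _)
    intro j hj
    simp only [mem_filter, mem_Ico, mem_insert] at hj ⊢
    have := T.lt j
    by_cases e : T.mu j = t
    · left; rw [← e, T.mm]; omega
    · right; omega

theorem A_left (s t : ℤ) : T.A (s + 1) t ≤ T.A s t ∧ T.A s t ≤ T.A (s + 1) t + 1 := by
  unfold A
  constructor
  · apply card_le_card
    intro j hj
    simp only [mem_filter, mem_Ico] at hj ⊢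
    omega
  · refine le_trans (card_le_card (t := insert s
      ((Ico (s + 1) t).filter (fun j => T.mu j < t))) ?_) (card_insert_le _ _)
    intro j hj
    simp only [mem_filter, mem_Ico, mem_insert] at hj ⊢
    omega

theorem A_per (s t : ℤ) : T.A (s + T.N) (t + T.N) = T.A s t := by
  unfold A
  symm
  apply card_nbij' (fun j => j + T.N) (fun j => j - T.N)
  · intro j hj
    simp only [coe_filter, mem_Ico, Set.mem_ofPred_eq] at hj ⊢
    rw [T.mu_add]; omega
  · intro j hj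
    simp only [coe_filter, mem_Ico, Set.mem_ofPred_eq] at hj ⊢
    rw [T.mu_sub]; omega
  · intro j _; simp
  · intro j _; simp

theorem sum_U {M : Type} [AddCommGroup M] (f : ℤ → M) (hf : ∀ j, f (T.mu j) = -f j) {s t : ℤ}
    (h : t ≤ s + T.N) : ∑ j ∈ Ico s t, f j = ∑ j ∈ T.U s t, f j := by
  have e1 := sum_filter_add_sum_filter_not (Ico s t) (fun j => t ≤ T.mu j ∧ T.mu j < s + T.N) f
  have e2 := sum_filter_add_sum_filter_not
    ((Ico s t).filter (fun j => ¬ (t ≤ T.mu j ∧ T.mu j < s + T.N))) (fun j => T.mu j < t) f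
  have e3 : ∑ j ∈ ((Ico s t).filter (fun j => ¬ (t ≤ T.mu j ∧ T.mu j < s + T.N))).filter
        (fun j => ¬ T.mu j < t), f j =
      ∑ j ∈ ((Ico s t).filter (fun j => ¬ (t ≤ T.mu j ∧ T.mu j < s + T.N))).filter
        (fun j => T.mu j < t), -f j := by
    symm
    apply sum_nbij' (fun j => T.mu j) (fun j => T.mu j - T.N)
    · intro j hj
      simp only [mem_filter, mem_Ico] at hj ⊢
      have := T.lt j
      rw [T.mm]; omega
    · intro j hj
      simp only [mem_filter, mem_Ico] at hj ⊢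
      have := T.lt_add j
      rw [T.mu_back]; omega
    · intro j _; simp [T.mm]
    · intro j _; exact T.mu_back j
    · intro j _; exact (hf j).symm
  rw [e3, sum_neg_distrib, add_neg_cancel] at e2
  rw [← e1, ← e2, add_zero]; rfl

theorem two_A (s : ℤ) : 2 * (T.A s (s + T.N) : ℤ) = T.N := by
  have e1 := card_filter_add_card_filter_not (s := Ico s (s + T.N)) (fun j => T.mu j < s + T.N)
  have e2 : ((Ico s (s + T.N)).filter (fun j => T.mu j < s + T.N)).card =
      ((Ico s (s + T.N)).filter (fun j => ¬ T.mu j < s + T.N)).card := by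
    apply card_nbij' (fun j => T.mu j) (fun j => T.mu j - T.N)
    · intro j hj
      simp only [coe_filter, mem_Ico, Set.mem_ofPred_eq] at hj ⊢
      have := T.lt j
      rw [T.mm]; omega
    · intro j hj
      simp only [coe_filter, mem_Ico, Set.mem_ofPred_eq] at hj ⊢
      have := T.lt_add j
      rw [T.mu_back]; omega
    · intro j _; simp [T.mm]
    · intro j _; exact T.mu_back j
  have e3 : ((Ico s (s + T.N)).card : ℤ) = T.N := by
    have := T.N_pos
    rw [Int.card_Ico, Int.toNat_of_nonneg (by omega)]; omega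
  unfold A; omega

end Mt

/-- angles and vectors for all steps of the contour -/
structure Cert (T : Mt) where
  ph : ℤ → ℚ
  th : ℤ → ℚ
  d : ℤ → ℤ × ℤ
  mono : Monotone ph
  per : ∀ j, ph (j + T.N) = ph j + 4
  ang : ∀ j, Ang (d j) (th j)
  thm : ∀ j, th (T.mu j) = th j + 2
  dm : ∀ j, d (T.mu j) = -d j
  lo : ∀ j, ph j < th j
  hi : ∀ j, th j < ph (T.mu j)

namespace Cert
variable {T : Mt} (C : Cert T)

/-- position at time `t ≥ 0` -/
def P (t : ℤ) : ℤ × ℤ := ∑ j ∈ Ico 0 t, C.d j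

/-- convex turns at all times that are not outer, strict between two children -/
def Cvx (O : ℤ → Prop) : Prop := ∀ t, 0 < t → t < T.N → ¬ O t →
  C.th t ≤ C.th (t - 1) ∧ (T.N ≤ T.mu (t - 1) → T.mu t < T.N → C.th t < C.th (t - 1))

def Box (W H : ℕ) : Prop := ∃ x0 y0 : ℤ, ∀ t, 0 ≤ t → t ≤ T.N →
  x0 ≤ (C.P t).1 ∧ (C.P t).1 ≤ x0 + W ∧ y0 ≤ (C.P t).2 ∧ (C.P t).2 ≤ y0 + H

/-- the steps of `[s, t)` form a convex path -/
def Good (s t : ℤ) : Prop := s ≤ t ∧
  (∀ j i, s ≤ j → j < i → i < t → C.th i ≤ C.th j ∧ C.th j < C.th i + 2) ∧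
  ∀ j, s ≤ j → j < t → t ≤ T.mu j ∧ T.mu j < s + T.N

/-- the path really turns -/
def Turn (s t : ℤ) : Prop := s < t ∧ C.th (t - 1) < C.th s

end Cert

end
end Pool.Agent.Work.MP_37ce0f_lc.Q
end

-- merged part: Pool.Agent.Work.MP_37ce0f_lc.Q.Sep
section
namespace Pool.Agent.Work.MP_37ce0f_lc.Q
open Pool.Agent.Work.MP_37ce0f_lc.W Finset Classical
noncomputable section
namespace Cert
variable {T : Mt} (C : Cert T)

theorem sep_P {s t : ℤ} (h0 : 0 ≤ s) (h1 : s ≤ t) : C.P t - C.P s = ∑ j ∈ Ico s t, C.d j := by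
  unfold P
  rw [← Ico_union_Ico_eq_Ico h0 h1, sum_union (Ico_disjoint_Ico_consecutive _ _ _),
    add_sub_cancel_left]

/-- `Mt.sum_U` with `C.dm`, `Finset.sum_Ico_consecutive`-style splitting of `Ico 0 t`. -/
theorem P_sub {s t : ℤ} (h0 : 0 ≤ s) (h1 : s ≤ t) (h2 : t ≤ s + T.N) :
    C.P t - C.P s = ∑ j ∈ T.U s t, C.d j := by
  rw [C.sep_P h0 h1, T.sum_U C.d C.dm h2]

/-- `U t (t+N)` is empty. -/
theorem P_per {t : ℤ} (h0 : 0 ≤ t) : C.P (t + T.N) = C.P t := by
  have h1 := T.N_pos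
  have h2 := C.P_sub h0 (show t ≤ t + T.N by omega) le_rfl
  rw [sum_eq_zero (fun j hj => by have := T.mem_U.1 hj; omega)] at h2
  exact sub_eq_zero.1 h2

theorem P_succ {t : ℤ} (h0 : 0 ≤ t) : C.P (t + 1) = C.P t + C.d t := by
  have h2 := C.sep_P h0 (show t ≤ t + 1 by omega)
  have h3 : Ico t (t + 1) = {t} := by
    ext j
    simp only [mem_Ico, mem_singleton]
    omega
  rw [h3, sum_singleton] at h2
  rw [← h2, add_sub_cancel]

/-- `P t` is the sum over the open down steps. -/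
theorem P_open {t : ℤ} (h0 : 0 ≤ t) (h1 : t ≤ T.N) : C.P t = ∑ j ∈ T.U 0 t, C.d j := by
  rw [← C.P_sub le_rfl h0 (by omega)]
  simp [P]

/-- `lo` at `mu j`, `thm`. -/
theorem lo' (j : ℤ) : C.ph (T.mu j) < C.th j + 2 := by
  have := C.lo (T.mu j)
  rwa [C.thm] at this

/-- `hi` at `mu j`, `thm`, `mm`, `per`. -/
theorem hi' (j : ℤ) : C.th j < C.ph j + 2 := by
  have := C.hi (T.mu j)
  rw [C.thm, T.mm, C.per] at this
  linarith

/-- th i > ph i ≥ ph j > th j - 2, th i < ph (mu i) ≤ ph (mu j) < th j + 2. -/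
theorem nested {j i : ℤ} (h1 : j ≤ i) (h2 : T.mu i ≤ T.mu j) :
    C.th i < C.th j + 2 ∧ C.th j < C.th i + 2 := by
  have a1 := C.mono h1
  have a2 := C.mono h2
  have a3 := C.lo i
  have a4 := C.hi i
  have a5 := C.lo' j
  have a6 := C.hi' j
  constructor <;> linarith

theorem sep_U {s t j i : ℤ} (hj : j ∈ T.U s t) (hi : i ∈ T.U s t) : C.th i < C.th j + 2 := by
  rw [T.mem_U] at hj hi
  rcases lt_trichotomy j i with h | rfl | h
  · have := T.nc j i h (by omega)
    exact (C.nested h.le (by omega)).1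
  · linarith
  · have := T.nc i j h (by omega)
    exact (C.nested h.le (by omega)).2

/-- two steps `j < i` of `U s t` are nested (`T.nc`); `mid` on the image of `th`, `exists_vec`. -/
theorem mono_fun {s t : ℤ} (h1 : s ≤ t) (h2 : t ≤ s + T.N) :
    ∃ o : ℤ × ℤ, ∀ j ∈ T.U s t, 0 < cr o (C.d j) := by
  obtain ⟨w, hw⟩ := mid ((T.U s t).image C.th) (by
    intro a ha b hb
    obtain ⟨j, hj, rfl⟩ := mem_image.1 ha
    obtain ⟨i, hi, rfl⟩ := mem_image.1 hb
    exact (C.sep_U hi hj).le)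
  obtain ⟨o, ho⟩ := exists_vec w
  refine ⟨o, fun j hj => ?_⟩
  have := (hw _ (mem_image_of_mem _ hj)).2.2 (by
    intro b hb
    obtain ⟨i, hi, rfl⟩ := mem_image.1 hb
    exact ⟨C.sep_U hi hj, C.sep_U hj hi⟩)
  exact ho.cr_pos (C.ang j) this.1 this.2

theorem good_zero (t : ℤ) : C.Good t t := by
  exact ⟨le_rfl, fun j i _ _ _ => by omega, fun j _ _ => by omega⟩

theorem good_one (t : ℤ) : C.Good t (t + 1) := by
  refine ⟨by omega, fun j i _ _ _ => by omega, fun j _ _ => ?_⟩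
  obtain rfl : j = t := by omega
  have := T.lt j
  have := T.lt_add j
  omega

theorem sep_tip (T : Mt) (n : ℕ) : ∀ j, (T.mu j - j).toNat ≤ n →
    ∃ r, j < r ∧ r ≤ T.mu j ∧ T.mu (r - 1) = r := by
  induction n with
  | zero =>
    intro j h
    have := T.lt j
    omega
  | succ n ih =>
    intro j h
    have h1 := T.lt j
    by_cases h2 : T.mu (j + 1 - 1) = j + 1
    · exact ⟨j + 1, by omega, by omega, h2⟩
    · have h3 := T.succ_lt h2
      rw [add_sub_cancel_right] at h3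
      obtain ⟨r, a1, a2, a3⟩ := ih (j + 1) (by omega)
      exact ⟨r, by omega, by omega, a3⟩

/-- No outer time inside `(s, t)`. First: for every `j` there is a tip time `r` with
`j < r ≤ mu j`, `mu (r-1) = r` (strong induction on `mu j - j`, `T.succ_lt`), so no pair
`j, mu j` lies in `[s, t)`; if `s + N ≤ mu j` then `i = mu j - N` has `mu i = j` (`mu_back`).
Then all steps of `[s,t)` lie in `U s t` (nested, spread `< 2`); `th` decreases weakly step by
step by `Cvx`. -/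
theorem good_of {O : ℤ → Prop} (hc : C.Cvx O)
    (tip : ∀ r, 0 < r → r < T.N → T.mu (r - 1) = r → O r) {s t : ℤ} (h0 : 0 ≤ s) (h1 : s ≤ t)
    (h2 : t ≤ T.N) (hO : ∀ r, s < r → r < t → ¬ O r) : C.Good s t := by
  have a1 : ∀ j, s ≤ j → j < t → t ≤ T.mu j := fun j b1 b2 => by
    by_contra hn
    obtain ⟨r, c1, c2, c3⟩ := sep_tip T _ j le_rfl
    exact hO r (by omega) (by omega) (tip r (by omega) (by omega) c3)
  have a2 : ∀ j, s ≤ j → j < t → t ≤ T.mu j ∧ T.mu j < s + T.N := fun j b1 b2 => by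
    refine ⟨a1 j b1 b2, ?_⟩
    by_contra hn
    have c1 := T.lt_add j
    have c2 := a1 (T.mu j - T.N) (by omega) (by omega)
    rw [T.mu_back] at c2
    omega
  refine ⟨h1, fun j i b1 b2 b3 => ⟨?_, C.sep_U (s := s) (t := t)
    (T.mem_U.2 ⟨by omega, b3, a2 i (by omega) b3⟩) (T.mem_U.2 ⟨b1, by omega, a2 j b1 (by omega)⟩)⟩,
    a2⟩
  have a3 : ∀ i, j ≤ i → i < t → C.th i ≤ C.th j := by
    intro i hi
    induction i, hi using Int.leInduction with
    | base => exact fun _ => le_rfl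
    | succ i hi ih =>
      intro b4
      have c1 := (hc (i + 1) (by omega) (by omega) (hO _ (by omega) b4)).1
      rw [add_sub_cancel_right] at c1
      exact c1.trans (ih (by omega))
  exact a3 i b2.le b3

theorem sep_le {s t j i : ℤ} (hg : C.Good s t) (h1 : s ≤ j) (h2 : j ≤ i) (h3 : i < t) :
    C.th i ≤ C.th j ∧ C.th j < C.th i + 2 := by
  rcases h2.eq_or_lt with rfl | h2
  · exact ⟨le_rfl, by linarith⟩
  · exact hg.2.1 j i h1 h2 h3

/-- first step up, last step down: at the first down step the turn is strict. -/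
theorem turn_of {O : ℤ → Prop} (hc : C.Cvx O) {s t : ℤ} (h0 : 0 ≤ s) (h1 : s < t)
    (h2 : t ≤ T.N) (hO : ∀ r, s < r → r < t → ¬ O r) (hg : C.Good s t)
    (hu : T.N ≤ T.mu s) (hd : T.mu (t - 1) < T.N) : C.Turn s t := by
  have a3 : ∀ i, s ≤ i → i < t → T.N ≤ T.mu i ∨ C.th i < C.th s := by
    intro i hi
    induction i, hi using Int.leInduction with
    | base => exact fun _ => Or.inl hu
    | succ i hi ih =>
      intro b4
      have c1 := hc (i + 1) (by omega) (by omega) (hO _ (by omega) b4)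
      rw [add_sub_cancel_right] at c1
      rcases ih (by omega) with c2 | c2
      · rcases le_or_gt T.N (T.mu (i + 1)) with c3 | c3
        · exact Or.inl c3
        · exact Or.inr ((c1.2 c2 c3).trans_le (C.sep_le hg le_rfl hi (by omega)).1)
      · exact Or.inr (c1.1.trans_lt c2)
  exact ⟨h1, (a3 (t - 1) (by omega) (by omega)).resolve_left (by omega)⟩

theorem sep_cr_sum (a : ℤ × ℤ) (s : Finset ℤ) (f : ℤ → ℤ × ℤ) :
    cr (∑ j ∈ s, f j) a = ∑ j ∈ s, cr (f j) a := by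
  rw [cr_swap', cr_sum, ← sum_neg_distrib]
  exact sum_congr rfl fun j _ => (cr_swap' _ _).symm

theorem sep_nn {s t j i : ℤ} (hg : C.Good s t) (h1 : s ≤ j) (h2 : j ≤ i) (h3 : i < t) :
    0 ≤ cr (C.d i) (C.d j) :=
  (C.ang i).cr_nonneg (C.ang j) (C.sep_le hg h1 h2 h3).1 (C.sep_le hg h1 h2 h3).2.le

theorem sep_pos {s t : ℤ} (hg : C.Good s t) (ht : C.Turn s t) : 0 < cr (C.d (t - 1)) (C.d s) :=
  (C.ang _).cr_pos (C.ang s) ht.2
    (C.sep_le hg le_rfl (by have := ht.1; omega) (by omega)).2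

/-- LEFT: `cr (D1 + D2) D1 = cr D2 D1` is a double sum of `cr (d later) (d earlier) ≥ 0`, and the
term (last, first) is positive. -/
theorem left {s t r : ℤ} (h0 : 0 ≤ s) (hg : C.Good s t) (ht : C.Turn s t) (h1 : s < r)
    (h2 : r < t) : 0 < cr (C.P t - C.P s) (C.P r - C.P s) := by
  have e : C.P t - C.P s = (C.P t - C.P r) + (C.P r - C.P s) := by abel
  rw [e, cr_swap', cr_addr, cr_self, add_zero, ← cr_swap', C.sep_P (by omega) h2.le,
    C.sep_P h0 h1.le, cr_sum]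
  refine sum_pos' (fun j hj => ?_) ⟨s, mem_Ico.2 ⟨le_rfl, h1⟩, ?_⟩
  · rw [sep_cr_sum]
    rw [mem_Ico] at hj
    exact sum_nonneg fun i hi => by
      rw [mem_Ico] at hi
      exact C.sep_nn hg hj.1 (by omega) hi.2
  · rw [sep_cr_sum]
    refine sum_pos' (fun i hi => ?_) ⟨t - 1, mem_Ico.2 ⟨by omega, by omega⟩, C.sep_pos hg ht⟩
    rw [mem_Ico] at hi
    exact C.sep_nn hg le_rfl (by omega) hi.2

/-- `D = P t - P s` has `cr (d (t-1)) D > 0` and `cr D (d s) > 0`; take the angle of `D` in the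
window starting at `th (t-1)` (`exists_ang`). -/
theorem chord_ang {s t : ℤ} (h0 : 0 ≤ s) (hg : C.Good s t) (ht : C.Turn s t) :
    ∃ z : ℚ, Ang (C.P t - C.P s) z ∧ C.th (t - 1) < z ∧ z < C.th s := by
  have h1 := ht.1
  have a1 : 0 < cr (C.d (t - 1)) (C.P t - C.P s) := by
    rw [C.sep_P h0 h1.le, cr_sum]
    refine sum_pos' (fun j hj => ?_) ⟨s, mem_Ico.2 ⟨le_rfl, h1⟩, C.sep_pos hg ht⟩
    rw [mem_Ico] at hj
    exact C.sep_nn hg hj.1 (by omega) (by omega)
  have a2 : 0 < cr (C.P t - C.P s) (C.d s) := by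
    rw [C.sep_P h0 h1.le, sep_cr_sum]
    refine sum_pos' (fun j hj => ?_) ⟨t - 1, mem_Ico.2 ⟨by omega, by omega⟩, C.sep_pos hg ht⟩
    rw [mem_Ico] at hj
    exact C.sep_nn hg le_rfl hj.1 hj.2
  have a3 : C.P t - C.P s ≠ 0 := fun h => by
    rw [h] at a1
    simp [cr] at a1
  obtain ⟨z, b1, b2, b3⟩ := exists_ang a3 (C.th (t - 1))
  have b4 : z < C.th (t - 1) + 2 := by
    by_contra hn
    have := b3.cr_nonneg (C.ang (t - 1)).add4 b2.le (by linarith)
    rw [cr_swap'] at this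
    omega
  have b5 := ht.2
  exact ⟨z, b3, (C.ang _).lt_of_cr b3 (by linarith) a1, b3.lt_of_cr (C.ang s) (by linarith) a2⟩

theorem sep_core {s t s' t' : ℤ} (hg : C.Good s t) (hg' : C.Good s' t')
    {a b a' b' j i : ℤ} (ha : a = s ∨ a = t) (hb : b = s' ∨ b = t')
    (ha' : a' = s ∨ a' = t) (hb' : b' = s' ∨ b' = t') (hj : j ∈ T.U a b) (hi : i ∈ T.U a' b')
    (h : j < i) : (C.th j ≤ C.th i + 2 ∧ C.th i ≤ C.th j + 2) ∧
      (t = s + 1 → t' ≤ s' + 1 → (t' = s' + 1 → s' ≠ T.mu s) →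
        C.th j < C.th i + 2 ∧ C.th i < C.th j + 2) := by
  rw [T.mem_U] at hj hi
  have g1 := hg.1
  have g2 := hg'.1
  rcases lt_trichotomy i (T.mu j) with c | c | c
  · rcases T.nc j i h c with c1 | c1
    · have := C.nested h.le c1.le
      exact ⟨⟨this.2.le, this.1.le⟩, fun _ _ _ => ⟨this.2, this.1⟩⟩
    · have c2 := hg.2.1 j (T.mu i - T.N) (by omega) (by omega) (by omega)
      have c3 := C.thm (T.mu i - T.N)
      rw [T.mu_back] at c3
      exact ⟨⟨by linarith [c2.2], by linarith [c2.1]⟩, fun _ _ _ => by omega⟩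
  · have c3 := C.thm j
    have c4 := T.mm j
    rw [← c] at c3 c4
    refine ⟨⟨by linarith, by linarith⟩, fun e1 e2 e3 => ?_⟩
    have e4 : j = s := by omega
    have e5 : T.mu j = T.mu s := by rw [e4]
    exact absurd (by omega) (e3 (by omega))
  · have c2 := hg'.2.1 (T.mu j) i (by omega) c (by omega)
    rw [C.thm] at c2
    exact ⟨⟨by linarith [c2.2], c2.1⟩, fun _ _ _ => by omega⟩

/-- SEP, the pairwise bound (paper section 5): for `j < i` in the four sets either nested, or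
`i = mu j`, or `mu j < i` both in `[s', t')`, or `j < mu i - N` both in `[s, t)`. -/
theorem sep_pair {s t s' t' : ℤ} (hg : C.Good s t) (hg' : C.Good s' t') (h1 : t ≤ s')
    (h2 : t' ≤ s + T.N) {a b a' b' j i : ℤ} (ha : a = s ∨ a = t) (hb : b = s' ∨ b = t')
    (ha' : a' = s ∨ a' = t) (hb' : b' = s' ∨ b' = t') (hj : j ∈ T.U a b) (hi : i ∈ T.U a' b') :
    C.th j ≤ C.th i + 2 := by
  rcases lt_trichotomy j i with h | rfl | h
  · exact (C.sep_core hg hg' ha hb ha' hb' hj hi h).1.1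
  · linarith
  · exact (C.sep_core hg hg' ha' hb' ha hb hi hj h).1.2

theorem sep_par {o u v : ℤ × ℤ} (ho : o ≠ 0) (h1 : cr o u = 0) (h2 : cr o v = 0) : cr u v = 0 := by
  by_contra hn
  apply ho
  have e1 : o.1 * cr u v = u.1 * cr o v - v.1 * cr o u := by unfold cr; ring
  have e2 : o.2 * cr u v = u.2 * cr o v - v.2 * cr o u := by unfold cr; ring
  rw [h1, h2, mul_zero, mul_zero, sub_zero] at e1 e2
  exact Prod.ext ((mul_eq_zero.1 e1).resolve_right hn) ((mul_eq_zero.1 e2).resolve_right hn)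

theorem sep_key {s t s' t' : ℤ} (h0 : 0 ≤ s) (hg : C.Good s t) (hg' : C.Good s' t') (h1 : t ≤ s')
    (h2 : t' ≤ s + T.N)
    (h : C.Turn s t ∨ C.Turn s' t' ∨ (t = s + 1 ∧ t' ≤ s' + 1 ∧ (t' = s' + 1 → s' ≠ T.mu s))) :
    ∃ o, cr o (C.P s) ≤ cr o (C.P s') ∧ cr o (C.P s) ≤ cr o (C.P t') ∧
      cr o (C.P t) ≤ cr o (C.P s') ∧ cr o (C.P t) ≤ cr o (C.P t') ∧
      ¬ (cr o (C.P s) = cr o (C.P s') ∧ cr o (C.P t) = cr o (C.P s') ∧
        cr o (C.P t) = cr o (C.P t')) := by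
  have g1 := hg.1
  have g2 := hg'.1
  let Z := (T.U s s' ∪ T.U s t') ∪ (T.U t s' ∪ T.U t t')
  have hZ : ∀ j, j ∈ Z ↔ ∃ a b, (a = s ∨ a = t) ∧ (b = s' ∨ b = t') ∧ j ∈ T.U a b := fun j => by
    simp only [Z, mem_union]
    constructor
    · rintro ((h | h) | h | h)
      · exact ⟨_, _, Or.inl rfl, Or.inl rfl, h⟩
      · exact ⟨_, _, Or.inl rfl, Or.inr rfl, h⟩
      · exact ⟨_, _, Or.inr rfl, Or.inl rfl, h⟩
      · exact ⟨_, _, Or.inr rfl, Or.inr rfl, h⟩
    · rintro ⟨a, b, rfl | rfl, rfl | rfl, hh⟩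
      · exact Or.inl (Or.inl hh)
      · exact Or.inl (Or.inr hh)
      · exact Or.inr (Or.inl hh)
      · exact Or.inr (Or.inr hh)
  obtain ⟨w, hw⟩ := mid (Z.image C.th) (by
    intro x hx y hy
    obtain ⟨j, hj, rfl⟩ := mem_image.1 hx
    obtain ⟨i, hi, rfl⟩ := mem_image.1 hy
    obtain ⟨a, b, ha, hb, hj⟩ := (hZ j).1 hj
    obtain ⟨a', b', ha', hb', hi⟩ := (hZ i).1 hi
    exact C.sep_pair hg hg' h1 h2 ha hb ha' hb' hj hi)
  obtain ⟨o, ho⟩ := exists_vec w
  have nn : ∀ a b, (a = s ∨ a = t) → (b = s' ∨ b = t') → ∀ j ∈ T.U a b, 0 ≤ cr o (C.d j) := by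
    intro a b ha hb j hj
    have := hw _ (mem_image_of_mem _ ((hZ j).2 ⟨a, b, ha, hb, hj⟩))
    exact ho.cr_nonneg (C.ang j) this.1 this.2.1
  have sm : ∀ a b, (a = s ∨ a = t) → (b = s' ∨ b = t') →
      cr o (C.P b) - cr o (C.P a) = ∑ j ∈ T.U a b, cr o (C.d j) := by
    intro a b ha hb
    rw [← cr_subr, C.P_sub (by omega) (by omega) (by omega), cr_sum]
  have le : ∀ a b, (a = s ∨ a = t) → (b = s' ∨ b = t') → cr o (C.P a) ≤ cr o (C.P b) := by
    intro a b ha hb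
    have := sum_nonneg (nn a b ha hb)
    rw [← sm a b ha hb] at this
    omega
  have zr : ∀ a b, (a = s ∨ a = t) → (b = s' ∨ b = t') → cr o (C.P a) = cr o (C.P b) →
      ∀ j ∈ T.U a b, cr o (C.d j) = 0 := by
    intro a b ha hb e
    refine (sum_eq_zero_iff_of_nonneg (nn a b ha hb)).1 ?_
    rw [← sm a b ha hb, e, sub_self]
  refine ⟨o, le _ _ (Or.inl rfl) (Or.inl rfl), le _ _ (Or.inl rfl) (Or.inr rfl),
    le _ _ (Or.inr rfl) (Or.inl rfl), le _ _ (Or.inr rfl) (Or.inr rfl), fun ⟨e1, e2, e3⟩ => ?_⟩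
  have z1 := zr _ _ (Or.inl rfl) (Or.inl rfl) e1
  have z2 := zr _ _ (Or.inr rfl) (Or.inl rfl) e2
  have z3 := zr _ _ (Or.inr rfl) (Or.inr rfl) e3
  rcases h with h | h | ⟨k1, k2, k3⟩
  · have a : ∀ j, s ≤ j → j < t → cr o (C.d j) = 0 := fun j b1 b2 => by
      have b3 := hg.2.2 j b1 b2
      rcases le_or_gt s' (T.mu j) with c | c
      · exact z1 j (T.mem_U.2 ⟨b1, by omega, c, b3.2⟩)
      · have := z2 (T.mu j) (T.mem_U.2 ⟨b3.1, c, by rw [T.mm]; omega, by rw [T.mm]; omega⟩)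
        rw [C.dm, cr_negr] at this
        omega
    have b1 := h.1
    have := sep_par ho.ne_zero (a (t - 1) (by omega) (by omega)) (a s le_rfl b1)
    have := C.sep_pos hg h
    omega
  · have a : ∀ j, s' ≤ j → j < t' → cr o (C.d j) = 0 := fun j b1 b2 => by
      have b3 := hg'.2.2 j b1 b2
      rcases lt_or_ge (T.mu j) (t + T.N) with c | c
      · exact z3 j (T.mem_U.2 ⟨by omega, b2, b3.1, c⟩)
      · have c1 := z2 (T.mu j - T.N) (T.mem_U.2 ⟨by omega, by omega, by rw [T.mu_back]; omega,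
          by rw [T.mu_back]; omega⟩)
        have c2 := C.dm (T.mu j - T.N)
        rw [T.mu_back] at c2
        rw [c2, cr_negr, c1, neg_zero]
    have b1 := h.1
    have := sep_par ho.ne_zero (a (t' - 1) (by omega) (by omega)) (a s' le_rfl b1)
    have := C.sep_pos hg' h
    omega
  · have ps : ∀ j ∈ Z, 0 < cr o (C.d j) := fun j hj => by
      have := (hw _ (mem_image_of_mem _ hj)).2.2 (by
        intro y hy
        obtain ⟨i, hi, rfl⟩ := mem_image.1 hy
        obtain ⟨a, b, ha, hb, hj⟩ := (hZ j).1 hj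
        obtain ⟨a', b', ha', hb', hi⟩ := (hZ i).1 hi
        rcases lt_trichotomy j i with h | rfl | h
        · exact (C.sep_core hg hg' ha hb ha' hb' hj hi h).2 k1 k2 k3
        · constructor <;> linarith
        · exact ((C.sep_core hg hg' ha' hb' ha hb hi hj h).2 k1 k2 k3).symm)
      exact ho.cr_pos (C.ang j) this.1 this.2
    have b1 := T.lt s
    have b2 := T.lt_add s
    rcases le_or_gt s' (T.mu s) with c | c
    · have m : s ∈ T.U s s' := T.mem_U.2 ⟨le_rfl, by omega, c, b2⟩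
      exact (ps s ((hZ _).2 ⟨_, _, Or.inl rfl, Or.inl rfl, m⟩)).ne' (z1 s m)
    · have m : T.mu s ∈ T.U t s' :=
        T.mem_U.2 ⟨by omega, c, by rw [T.mm]; omega, by rw [T.mm]; omega⟩
      exact (ps _ ((hZ _).2 ⟨_, _, Or.inr rfl, Or.inl rfl, m⟩)).ne' (z2 _ m)

/-- the determinant with a real second argument -/
def sep_F (o : ℤ × ℤ) (p : ℝ × ℝ) : ℝ := o.1 * p.2 - o.2 * p.1

theorem sep_toR (o A : ℤ × ℤ) : sep_F o (toR A) = cr o A := by
  simp [sep_F, toR, cr]

theorem sep_comb (o : ℤ × ℤ) {A B : ℤ × ℤ} {p : ℝ × ℝ} (hp : p ∈ seg (A, B)) :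
    ∃ x y : ℝ, 0 ≤ x ∧ 0 ≤ y ∧ x + y = 1 ∧ x • toR A + y • toR B = p ∧
      sep_F o p = x * cr o A + y * cr o B := by
  obtain ⟨x, y, hx, hy, hxy, e⟩ := hp
  refine ⟨x, y, hx, hy, hxy, e, ?_⟩
  rw [← e]
  simp only [sep_F, toR, cr, Prod.fst_add, Prod.snd_add, Prod.smul_fst, Prod.smul_snd, smul_eq_mul]
  push_cast
  ring

theorem sep_ub (o : ℤ × ℤ) {A B : ℤ × ℤ} {c : ℤ} {p : ℝ × ℝ} (h1 : cr o A ≤ c) (h2 : cr o B ≤ c)
    (hp : p ∈ seg (A, B)) : sep_F o p ≤ c := by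
  obtain ⟨x, y, hx, hy, hxy, -, e⟩ := sep_comb o hp
  have a1 : (cr o A : ℝ) ≤ c := by exact_mod_cast h1
  have a2 : (cr o B : ℝ) ≤ c := by exact_mod_cast h2
  have a3 : (c : ℝ) = x * c + y * c := by rw [← add_mul, hxy, one_mul]
  nlinarith [mul_le_mul_of_nonneg_left a1 hx, mul_le_mul_of_nonneg_left a2 hy]

theorem sep_lb (o : ℤ × ℤ) {A B : ℤ × ℤ} {c : ℤ} {p : ℝ × ℝ} (h1 : c ≤ cr o A) (h2 : c ≤ cr o B)
    (hp : p ∈ seg (A, B)) : c ≤ sep_F o p := by
  obtain ⟨x, y, hx, hy, hxy, -, e⟩ := sep_comb o hp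
  have a1 : (c : ℝ) ≤ cr o A := by exact_mod_cast h1
  have a2 : (c : ℝ) ≤ cr o B := by exact_mod_cast h2
  have a3 : (c : ℝ) = x * c + y * c := by rw [← add_mul, hxy, one_mul]
  nlinarith [mul_le_mul_of_nonneg_left a1 hx, mul_le_mul_of_nonneg_left a2 hy]

theorem sep_end {A B : ℤ × ℤ} {p : ℝ × ℝ} {x y u v : ℝ} (hx : 0 ≤ x) (hy : 0 ≤ y) (hxy : x + y = 1)
    (e : x • toR A + y • toR B = p) (hu : 0 ≤ u) (hv : 0 ≤ v) (h : x * u + y * v ≤ 0) :
    p = toR A ∨ p = toR B ∨ (u = 0 ∧ v = 0) := by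
  rcases hx.eq_or_lt with rfl | hx
  · obtain rfl : y = 1 := by linarith
    exact Or.inr (Or.inl (by rw [← e, zero_smul, one_smul, zero_add]))
  rcases hy.eq_or_lt with rfl | hy
  · obtain rfl : x = 1 := by linarith
    exact Or.inl (by rw [← e, zero_smul, one_smul, add_zero])
  have a1 := mul_nonneg hx.le hu
  have a2 := mul_nonneg hy.le hv
  exact Or.inr (Or.inr ⟨(mul_eq_zero.1 (by linarith : x * u = 0)).resolve_left hx.ne',
    (mul_eq_zero.1 (by linarith : y * v = 0)).resolve_left hy.ne'⟩)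

theorem sep_min (o : ℤ × ℤ) {A B : ℤ × ℤ} {c : ℤ} {p : ℝ × ℝ} (h1 : c ≤ cr o A) (h2 : c ≤ cr o B)
    (hp : p ∈ seg (A, B)) (h : sep_F o p ≤ c) :
    p = toR A ∨ p = toR B ∨ (cr o A = c ∧ cr o B = c) := by
  obtain ⟨x, y, hx, hy, hxy, e0, e⟩ := sep_comb o hp
  have a1 : (c : ℝ) ≤ cr o A := by exact_mod_cast h1
  have a2 : (c : ℝ) ≤ cr o B := by exact_mod_cast h2
  have a3 : (c : ℝ) = x * c + y * c := by rw [← add_mul, hxy, one_mul]
  refine (sep_end hx hy hxy e0 (sub_nonneg.2 a1) (sub_nonneg.2 a2) (by linarith)).imp_right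
    (Or.imp_right fun h => ⟨?_, ?_⟩)
  · exact_mod_cast sub_eq_zero.1 h.1
  · exact_mod_cast sub_eq_zero.1 h.2

theorem sep_max (o : ℤ × ℤ) {A B : ℤ × ℤ} {c : ℤ} {p : ℝ × ℝ} (h1 : cr o A ≤ c) (h2 : cr o B ≤ c)
    (hp : p ∈ seg (A, B)) (h : c ≤ sep_F o p) :
    p = toR A ∨ p = toR B ∨ (cr o A = c ∧ cr o B = c) := by
  obtain ⟨x, y, hx, hy, hxy, e0, e⟩ := sep_comb o hp
  have a1 : (cr o A : ℝ) ≤ c := by exact_mod_cast h1
  have a2 : (cr o B : ℝ) ≤ c := by exact_mod_cast h2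
  have a3 : (c : ℝ) = x * c + y * c := by rw [← add_mul, hxy, one_mul]
  refine (sep_end hx hy hxy e0 (sub_nonneg.2 a1) (sub_nonneg.2 a2) (by linarith)).imp_right
    (Or.imp_right fun h => ⟨?_, ?_⟩)
  · exact_mod_cast (sub_eq_zero.1 h.1).symm
  · exact_mod_cast (sub_eq_zero.1 h.2).symm

/-- Two edges with disjoint time intervals meet only in an end. With `o` from `mid` and
`f = cr o`: `f (P s), f (P t) ≤ f (P s'), f (P t')`. If `f` is not constant on one segment the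
common point is an end of it. Turn: every step `j` of `[s,t)` has `j ∈ U s b` or
`mu j ∈ U t b`, so `f (d j) = 0`, against `cr (d last) (d first) > 0` and `o ≠ 0`
(same for `[s',t')`: `j ∈ U a t'` or `mu j - N ∈ U a s'`). Two single steps: all differences are
`< 2`, so `f` is strict on the step `s` or `mu s`. -/
theorem seg_seg {s t s' t' : ℤ} (h0 : 0 ≤ s) (hg : C.Good s t) (hg' : C.Good s' t') (h1 : t ≤ s')
    (h2 : t' ≤ s + T.N)
    (h : C.Turn s t ∨ C.Turn s' t' ∨ (t = s + 1 ∧ t' = s' + 1 ∧ s' ≠ T.mu s)) {p : ℝ × ℝ}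
    (hp : p ∈ seg (C.P s, C.P t)) (hp' : p ∈ seg (C.P s', C.P t')) :
    p = toR (C.P s) ∨ p = toR (C.P t) ∨ p = toR (C.P s') ∨ p = toR (C.P t') := by
  obtain ⟨o, a1, a2, a3, a4, a5⟩ := C.sep_key h0 hg hg' h1 h2
    (h.imp_right (Or.imp_right fun h => ⟨h.1, h.2.1.le, fun _ => h.2.2⟩))
  have b1 := sep_ub o (le_max_left _ _) (le_max_right _ _) hp
  rcases sep_min o (max_le a1 a3) (max_le a2 a4) hp' b1 with b | b | ⟨b2, b3⟩
  · exact Or.inr (Or.inr (Or.inl b))
  · exact Or.inr (Or.inr (Or.inr b))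
  have b4 := sep_lb o b2.ge b3.ge hp'
  rcases sep_max o (le_max_left _ _) (le_max_right _ _) hp b4 with b | b | ⟨b5, b6⟩
  · exact Or.inl b
  · exact Or.inr (Or.inl b)
  · exact absurd ⟨by omega, by omega, by omega⟩ a5

/-- nested intervals: `g = cr (P t - P s)` is constant on the outer segment, `left`. -/
theorem seg_nest {s t s' t' : ℤ} (h0 : 0 ≤ s) (hg : C.Good s t) (ht : C.Turn s t) (h1 : s ≤ s')
    (h2 : s' < t') (h3 : t' ≤ t) (h : s < s' ∨ t' < t) {p : ℝ × ℝ}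
    (hp : p ∈ seg (C.P s, C.P t)) (hp' : p ∈ seg (C.P s', C.P t')) :
    p = toR (C.P s') ∨ p = toR (C.P t') := by
  have e : cr (C.P t - C.P s) (C.P t) = cr (C.P t - C.P s) (C.P s) := by
    have := cr_self (C.P t - C.P s)
    rw [cr_subr] at this
    omega
  have a1 : ∀ r, s < r → r < t → cr (C.P t - C.P s) (C.P s) < cr (C.P t - C.P s) (C.P r) := by
    intro r b1 b2
    have := C.left h0 hg ht b1 b2
    rw [cr_subr] at this
    omega
  have a2 : ∀ r, s ≤ r → r ≤ t → cr (C.P t - C.P s) (C.P s) ≤ cr (C.P t - C.P s) (C.P r) := by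
    intro r b1 b2
    rcases b1.eq_or_lt with rfl | b1
    · exact le_rfl
    rcases b2.eq_or_lt with rfl | b2
    · exact e.ge
    · exact (a1 r b1 b2).le
  rcases sep_min _ (a2 s' h1 (by omega)) (a2 t' (by omega) h3) hp' (sep_ub _ le_rfl e.le hp) with
    b | b | ⟨b1, b2⟩
  · exact Or.inl b
  · exact Or.inr b
  · rcases h with h | h
    · exact absurd b1 (a1 s' h (by omega)).ne'
    · exact absurd b2 (a1 t' (by omega) h).ne'

/-- a vertex on an edge is an end (SEP with `s' = t' = r`). -/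
theorem pt_seg {s t r : ℤ} (h0 : 0 ≤ s) (hg : C.Good s t) (h : C.Turn s t ∨ t = s + 1)
    (h1 : t ≤ r) (h2 : r ≤ s + T.N) (hp : toR (C.P r) ∈ seg (C.P s, C.P t)) :
    C.P r = C.P s ∨ C.P r = C.P t := by
  obtain ⟨o, a1, -, a3, -, a5⟩ := C.sep_key h0 hg (C.good_zero r) h1 h2
    (h.imp_right fun h => Or.inr ⟨h, by omega, by omega⟩)
  have inj : ∀ A B, toR A = toR B → A = B := fun A B e =>
    Prod.ext (Int.cast_injective (congrArg Prod.fst e)) (Int.cast_injective (congrArg Prod.snd e))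
  rcases sep_max o a1 a3 hp (sep_toR _ _).ge with b | b | b
  · exact Or.inl (inj _ _ b)
  · exact Or.inr (inj _ _ b)
  · exact absurd ⟨b.1, b.2, b.2⟩ a5

/-- the ray at time `r` with angle `ph r` is at distance `< 2` from all steps of `U a r`
(`lo'`, `hi'`, `mono`); `mid` on the set with `ph r` inserted. -/
theorem ray_seg {s t r : ℤ} (h0 : 0 ≤ s) (hg : C.Good s t) (h1 : t ≤ r) (h2 : r ≤ s + T.N)
    {o : ℤ × ℤ} (ho : Ang o (C.ph r)) {x : ℝ} (hx : 0 < x) :
    toR (C.P r) + x • toR o ∉ seg (C.P s, C.P t) := by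
  intro hp
  have g1 := hg.1
  have hZ : ∀ j ∈ T.U s r ∪ T.U t r, ∃ a, (a = s ∨ a = t) ∧ j ∈ T.U a r := fun j hj =>
    (mem_union.1 hj).elim (fun h => ⟨s, Or.inl rfl, h⟩) fun h => ⟨t, Or.inr rfl, h⟩
  have st : ∀ j ∈ T.U s r ∪ T.U t r, C.ph r < C.th j + 2 ∧ C.th j < C.ph r + 2 := fun j hj => by
    obtain ⟨a, -, hj⟩ := hZ j hj
    rw [T.mem_U] at hj
    have a1 := C.mono hj.2.1.le
    have a2 := C.mono hj.2.2.1
    have a3 := C.lo' j
    have a4 := C.hi' j
    constructor <;> linarith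
  obtain ⟨w, hw⟩ := mid (insert (C.ph r) ((T.U s r ∪ T.U t r).image C.th)) (by
    intro y hy z hz
    rcases mem_insert.1 hy with rfl | hy <;> rcases mem_insert.1 hz with rfl | hz
    · linarith
    · obtain ⟨i, hi, rfl⟩ := mem_image.1 hz
      exact (st i hi).1.le
    · obtain ⟨i, hi, rfl⟩ := mem_image.1 hy
      exact (st i hi).2.le
    · obtain ⟨j, hj, rfl⟩ := mem_image.1 hy
      obtain ⟨i, hi, rfl⟩ := mem_image.1 hz
      obtain ⟨a, ha, hj⟩ := hZ j hj
      obtain ⟨a', ha', hi⟩ := hZ i hi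
      exact C.sep_pair hg (C.good_zero r) h1 h2 ha (Or.inl rfl) ha' (Or.inl rfl) hj hi)
  obtain ⟨o', ho'⟩ := exists_vec w
  have b1 := (hw _ (mem_insert_self _ _)).2.2 (by
    intro y hy
    rcases mem_insert.1 hy with rfl | hy
    · constructor <;> linarith
    · obtain ⟨i, hi, rfl⟩ := mem_image.1 hy
      exact st i hi)
  have b2 : (0 : ℝ) < cr o' o := by exact_mod_cast ho'.cr_pos ho b1.1 b1.2
  have le : ∀ a, 0 ≤ a → a ≤ r → r ≤ a + T.N → T.U a r ⊆ T.U s r ∪ T.U t r →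
      cr o' (C.P a) ≤ cr o' (C.P r) := by
    intro a c1 c2 c3 c4
    have : 0 ≤ cr o' (C.P r - C.P a) := by
      rw [C.P_sub c1 c2 c3, cr_sum]
      refine sum_nonneg fun j hj => ?_
      have := hw _ (mem_insert_of_mem (mem_image_of_mem _ (c4 hj)))
      exact ho'.cr_nonneg (C.ang j) this.1 this.2.1
    rw [cr_subr] at this
    omega
  have b3 := sep_ub o' (le s h0 (by omega) h2 subset_union_left)
    (le t (by omega) h1 (by omega) subset_union_right) hp
  have b4 : sep_F o' (toR (C.P r) + x • toR o) = cr o' (C.P r) + x * cr o' o := by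
    simp only [sep_F, toR, cr, Prod.fst_add, Prod.snd_add, Prod.smul_fst, Prod.smul_snd,
      smul_eq_mul]
    push_cast
    ring
  have := mul_pos hx b2
  linarith

end Cert
end
end Pool.Agent.Work.MP_37ce0f_lc.Q
end

-- merged part: Pool.Agent.Work.MP_37ce0f_lc.Q.Tour
section
namespace Pool.Agent.Work.MP_37ce0f_lc.Q
open Pool.Agent.Work.MP_37ce0f_lc.W Finset Classical
noncomputable section
variable {n : ℕ} {G : SimpleGraph (Fin n)}

/-- entry time, exit time and time of the outer corner of each vertex -/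
structure Times (S : RT G) where
  en : Fin n → ℤ
  ex : Fin n → ℤ
  rho : Fin n → ℤ
  en_r : en S.r = 0
  rho_r : rho S.r = 0
  ex_r : ex S.r = 2 * ((n : ℤ) - 1)
  en_rho : ∀ v, en v ≤ rho v
  rho_ex : ∀ v, rho v ≤ ex v
  nest : ∀ u v, S.Anc u v → u ≠ v → en u < en v ∧ ex v < ex u
  left : ∀ u v, ¬ S.Anc u v → ¬ S.Anc v u → cy S.r u < cy S.r v → ex u + 1 < en v
  out : ∀ u v, S.Anc u v → u ≠ v →
    (cy S.r v < cy S.r u → ex v < rho u) ∧ (cy S.r u < cy S.r v → rho u < en v)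

/-- unrelated vertices with smaller label -/
def tour_L (S : RT G) (v a : Fin n) : Prop := ¬ S.Anc a v ∧ ¬ S.Anc v a ∧ cy S.r a < cy S.r v

def tour_E (S : RT G) (v a : Fin n) : Prop := tour_L S v a ∨ (S.Anc v a ∧ a ≠ v)

def tour_R (S : RT G) (v a : Fin n) : Prop := tour_L S v a ∨ (S.Anc v a ∧ cy S.r a < cy S.r v)

theorem tour_side (h : NoCross G) {S : RT G} {c x y m : Fin n} (hx : S.Anc c x) (hy : S.Anc c y)
    (hm : ¬ S.Anc c m) (k : cy S.r m < cy S.r x) : cy S.r m < cy S.r y := by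
  have h1 := RT.sub_side h hx hy hm
  have h2 : cy S.r y ≠ cy S.r m := fun e => hm (cy_inj e ▸ hy)
  omega

theorem tour_le {P Q : Fin n → Prop} (h : ∀ a, P a → Q a) :
    (univ.filter P).card ≤ (univ.filter Q).card :=
  card_le_card (monotone_filter_right _ fun a _ => h a)

theorem tour_tail {S : RT G} {Q : Fin n → Prop} {y z : Fin n} (h1 : ∀ a, tour_E S y a → Q a)
    (h2 : ∀ a, S.Anc a y → ¬ S.Anc a z → Q a) :
    (univ.filter (tour_E S y)).card + S.dep y ≤ (univ.filter Q).card + S.dep (S.lca y z) := by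
  have k1 := S.card_tail y z
  have k2 : Disjoint (univ.filter (tour_E S y)) (S.tail y z) := by
    rw [disjoint_left]
    intro a ha hb
    have k := (S.mem_tail.1 hb).1
    rcases (mem_filter.1 ha).2 with e | e
    · exact e.1 k
    · exact e.2 (k.antisymm e.1)
  have k3 : univ.filter (tour_E S y) ∪ S.tail y z ⊆ univ.filter Q := by
    intro a ha
    refine mem_filter.2 ⟨mem_univ _, ?_⟩
    rcases mem_union.1 ha with e | e
    · exact h1 a (mem_filter.1 e).2
    · exact h2 a (S.mem_tail.1 e).1 (S.mem_tail.1 e).2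
  have k4 := card_le_card k3
  rw [card_union_of_disjoint k2] at k4
  omega

theorem tour_LL (h : NoCross G) {S : RT G} {u v : Fin n} (k : S.Anc u v) (a : Fin n)
    (e : tour_L S u a) : tour_L S v a :=
  ⟨fun c => (c.total' k).elim e.1 e.2.1, fun c => e.2.1 (k.trans c),
    tour_side h (S.anc_refl u) k e.2.1 e.2.2⟩

/-- Paper section 2. `Lf v` = vertices unrelated to `v` with smaller `cy S.r`, `Dn v` = proper
descendants, `en v = dep v + 2 |Lf v|`, `ex v = dep v + 2 |Lf v ∪ Dn v|`,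
`rho v = dep v + 2 |Lf v ∪ (Dn v with smaller cy)|`. All inequalities come from inclusions
`X ∪ S.tail y z ⊆ Y` (disjoint unions), `RT.card_tail`, `RT.lca_of_anc`, and `RT.sub_side`
(a vertex outside a subtree is on one side of all of it). nest: `Lf u ⊆ Lf v`;
`Lf v ∪ Dn v ∪ tail v u ⊆ Lf u ∪ Dn u`. left: `Lf u ∪ Dn u ∪ tail u v ⊆ Lf v`, and both tails are
nonempty. out: `Lf v ∪ Dn v ∪ tail v u ⊆ Lf u ∪ (Dn u smaller)`, `Lf u ∪ (Dn u smaller) ⊆ Lf v`
(use the child `S.ch u v` or `sub_side` at the vertex in question). -/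
theorem exists_times (h : NoCross G) (S : RT G) : Nonempty (Times S) := by
  refine ⟨⟨fun v => (S.dep v + 2 * (univ.filter (tour_L S v)).card : ℕ),
    fun v => (S.dep v + 2 * (univ.filter (tour_E S v)).card : ℕ),
    fun v => (S.dep v + 2 * (univ.filter (tour_R S v)).card : ℕ), ?_, ?_, ?_, fun v => ?_,
    fun v => ?_, fun u v k e => ?_, fun u v k1 k2 k3 => ?_, fun u v k e => ?_⟩⟩
  · rw [S.dep_r, filter_false_of_mem fun a _ e => e.2.1 (S.anc_r a)]
    rfl
  · rw [S.dep_r, filter_false_of_mem fun a _ e => ?_]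
    · rfl
    · rcases e with e | e
      · exact e.2.1 (S.anc_r a)
      · have := e.2
        rw [cy_self] at this
        omega
  · have e : univ.filter (tour_E S S.r) = univ.erase S.r := by
      ext a
      simp only [mem_filter, mem_univ, true_and, mem_erase, and_true]
      exact ⟨fun e => e.elim (fun e => absurd (S.anc_r a) e.2.1) fun e => e.2,
        fun e => Or.inr ⟨S.anc_r a, e⟩⟩
    have := S.r.pos
    rw [S.dep_r, e, card_erase_of_mem (mem_univ _), card_univ, Fintype.card_fin]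
    omega
  · have := tour_le (P := tour_L S v) (Q := tour_R S v) fun a e => Or.inl e
    omega
  · have := tour_le (P := tour_R S v) (Q := tour_E S v) fun a e =>
      e.imp_right fun e => ⟨e.1, fun c => by rw [c] at e; exact lt_irrefl _ e.2⟩
    omega
  · have k0 := k.dep_lt e
    have k1 := tour_le (tour_LL h k)
    have k2 := tour_tail (S := S) (y := v) (z := u) (Q := tour_E S u) (fun a c => by
      rcases c with c | c
      · by_cases d : S.Anc u a
        · exact Or.inr ⟨d, fun f => c.1 (f ▸ k)⟩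
        · exact Or.inl ⟨fun f => c.1 (f.trans k), d, tour_side h k (S.anc_refl u) d c.2.2⟩
      · exact Or.inr ⟨k.trans c.1, fun f => e (k.antisymm (f ▸ c.1))⟩) fun a c d =>
        Or.inr ⟨(c.total' k).resolve_left d, fun f => d (f ▸ S.anc_refl a)⟩
    rw [S.lca_comm, RT.lca_of_anc k] at k2
    omega
  · have k4 := (S.lca_l u v).dep_lt fun f => k1 (f ▸ S.lca_r u v)
    have k5 := (S.lca_r u v).dep_lt fun f => k2 (f ▸ S.lca_l u v)
    have k6 := tour_tail (S := S) (y := u) (z := v) (Q := tour_L S v) (fun a c => by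
      rcases c with c | c
      · refine ⟨fun f => ?_, fun f => ?_, c.2.2.trans k3⟩
        · exact k3.not_gt ((RT.sub_side h (S.anc_refl a) f c.1).1 c.2.2)
        · exact k3.not_gt ((RT.sub_side h f (S.anc_refl v) k2).1 c.2.2)
      · exact ⟨fun f => k1 (c.1.trans f), fun f => (c.1.total' f).elim k1 k2,
          (RT.sub_side h (S.anc_refl u) c.1 k1).1 k3⟩) fun a c d =>
        ⟨d, fun f => k2 (f.trans c), (RT.sub_side h c (S.anc_refl a) d).1 k3⟩
    omega
  · have k0 := k.dep_lt e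
    have nv : ¬ S.Anc v u := fun f => e (k.antisymm f)
    refine ⟨fun k3 => ?_, fun k3 => ?_⟩
    · have k2 := tour_tail (S := S) (y := v) (z := u) (Q := tour_R S u) (fun a c => by
        rcases c with c | c
        · by_cases d : S.Anc u a
          · exact Or.inr ⟨d, c.2.2.trans k3⟩
          · exact Or.inl ⟨fun f => c.1 (f.trans k), d, c.2.2.trans k3⟩
        · exact Or.inr ⟨k.trans c.1, (RT.sub_side h (S.anc_refl v) c.1 nv).1 k3⟩) fun a c d =>
          Or.inr ⟨(c.total' k).resolve_left d, (RT.sub_side h c (S.anc_refl a) d).1 k3⟩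
      rw [S.lca_comm, RT.lca_of_anc k] at k2
      omega
    · have k1 := tour_le (P := tour_R S u) (Q := tour_L S v) fun a c => by
        rcases c with c | c
        · exact tour_LL h k a c
        · refine ⟨fun f => ?_, fun f => ?_, c.2.trans k3⟩
          · refine k3.not_gt ((RT.sub_side h (S.anc_refl a) f fun g => ?_).1 c.2)
            rw [g.antisymm c.1] at c
            exact lt_irrefl _ c.2
          · exact k3.not_gt ((RT.sub_side h f (S.anc_refl v) nv).1 c.2)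
      omega

theorem tour_mul (N q q' : ℤ) (hN : 0 < N) :
    N * q' + N ≤ N * q ∨ N * q' = N * q ∨ N * q' = N * q + N ∨ N * q + 2 * N ≤ N * q' := by
  have : q' + 1 ≤ q ∨ q' = q ∨ q' = q + 1 ∨ q + 2 ≤ q' := by omega
  rcases this with e | e | e | e
  · have := mul_le_mul_of_nonneg_left e hN.le
    left; linarith
  · right; left; rw [e]
  · right; right; left; rw [e]; ring
  · have := mul_le_mul_of_nonneg_left e hN.le
    right; right; right; linarith

theorem tour_mt {ι : Type} [Fintype ι] (N : ℤ) (hN : 0 < N) (hc : N = 2 * (Fintype.card ι : ℤ))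
    (a b : ι → ℤ) (h0 : ∀ i, 0 ≤ a i ∧ a i < b i ∧ b i < N)
    (hl : ∀ i j, i = j ∨ (a i < a j ∧ b j < b i) ∨ (a j < a i ∧ b i < b j) ∨ b i < a j ∨
      b j < a i) : ∃ T : Mt, T.N = N ∧ (∀ i, T.mu (a i) = b i) ∧
      ∀ j, 0 ≤ j → T.mu j < N → ∃ i, j = a i := by
  have hl' : ∀ i j, (a i = a j ∧ b i = b j) ∨ (a i < a j ∧ b j < b i) ∨ (a j < a i ∧ b i < b j) ∨
      b i < a j ∨ b j < a i := fun i j => (hl i j).imp_left fun e => by rw [e]; exact ⟨rfl, rfl⟩
  have inj : Function.Injective (Sum.elim a b) := by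
    rintro (i | i) (j | j) e <;> simp only [Sum.elim_inl, Sum.elim_inr] at e <;>
      have k1 := h0 i <;> have k2 := h0 j
    · rcases hl i j with k | k
      · rw [k]
      · omega
    · have := hl' i j
      omega
    · have := hl' i j
      omega
    · rcases hl i j with k | k
      · rw [k]
      · omega
  have sur : univ.image (Sum.elim a b) = Ico 0 N := by
    apply eq_of_subset_of_card_le
    · intro x hx
      obtain ⟨i, -, rfl⟩ := mem_image.1 hx
      rcases i with i | i <;> simp only [Sum.elim_inl, Sum.elim_inr, mem_Ico] <;>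
        have k := h0 i <;> omega
    · rw [card_image_of_injective _ inj, card_univ, Fintype.card_sum, Int.card_Ico]
      omega
  let m0 : ℤ → ℤ := Function.extend (Sum.elim a b) (Sum.elim b fun i => a i + N) 0
  let mu : ℤ → ℤ := fun j => m0 (j % N) + N * (j / N)
  have key : ∀ e q, 0 ≤ e → e < N → mu (e + N * q) = m0 e + N * q := fun e q h1 h2 => by
    show m0 ((e + N * q) % N) + N * ((e + N * q) / N) = _
    rw [Int.add_mul_emod_self_left, Int.emod_eq_of_lt h1 h2, Int.add_mul_ediv_left _ _ hN.ne',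
      Int.ediv_eq_zero_of_lt h1 h2, zero_add]
  have ka : ∀ i q, mu (a i + N * q) = b i + N * q := fun i q => by
    have k := h0 i
    rw [key _ q k.1 (by omega)]
    exact congrArg (· + N * q) (inj.extend_apply _ _ (Sum.inl i))
  have kb : ∀ i q, mu (b i + N * q) = a i + N + N * q := fun i q => by
    have k := h0 i
    rw [key _ q (by omega) k.2.2]
    exact congrArg (· + N * q) (inj.extend_apply _ _ (Sum.inr i))
  have dec : ∀ j, ∃ i q, j = a i + N * q ∨ j = b i + N * q := fun j => by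
    have k : j % N ∈ univ.image (Sum.elim a b) := by
      rw [sur, mem_Ico]
      exact ⟨Int.emod_nonneg _ hN.ne', Int.emod_lt_of_pos _ hN⟩
    have e := Int.emod_add_mul_ediv j N
    obtain ⟨i, -, k⟩ := mem_image.1 k
    rcases i with i | i
    · exact ⟨i, j / N, Or.inl (e.symm.trans (congrArg (· + N * (j / N)) k.symm))⟩
    · exact ⟨i, j / N, Or.inr (e.symm.trans (congrArg (· + N * (j / N)) k.symm))⟩
  refine ⟨⟨N, mu, fun j => ?_, fun j => ?_, fun j i h1 h2 => ?_⟩, rfl, fun i => ?_,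
    fun j h1 h2 => ?_⟩
  · obtain ⟨u, q, rfl | rfl⟩ := dec j <;> have k := h0 u
    · rw [ka]; omega
    · rw [kb]; omega
  · obtain ⟨u, q, rfl | rfl⟩ := dec j
    · rw [ka, kb]; ring
    · rw [kb, show a u + N + N * q = a u + N * (q + 1) by ring, ka]; ring
  · obtain ⟨u, q, rfl | rfl⟩ := dec j <;> obtain ⟨v, q', rfl | rfl⟩ := dec i <;>
      simp only [ka, kb] at h1 h2 ⊢ <;> have k1 := h0 u <;> have k2 := h0 v <;>
      have k3 := hl' u v <;> have k4 := tour_mul N q q' hN <;> omega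
  · have := ka i 0
    rwa [mul_zero, add_zero, add_zero] at this
  · obtain ⟨u, q, rfl | rfl⟩ := dec j <;> have k1 := h0 u <;> have k4 := tour_mul N q 0 hN <;>
      simp only [ka, kb] at h2 <;> refine ⟨u, ?_⟩ <;> omega

/-- The times `en v - 1` and `ex v` (`v ≠ r`) are `2(n-1)` distinct integers in `[0, N)`
(`nest` with the root, `nest`, `left`), so every `j ∈ [0,N)` is one of them. Define `mu` on
`[0,N)` by `en v - 1 ↦ ex v`, `ex v ↦ en v - 1 + N` and extend by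
`mu j = mu (j % N) + N * (j / N)`. For `nc` write `j = e + qN`, `i = e' + q'N`; then
`q' = q` or `q' = q + 1`, and the trichotomy (ancestor, descendant, left, right) gives it by
`omega`. -/
theorem exists_mt {S : RT G} (R : Times S) (hn : 2 ≤ n) : ∃ T : Mt, T.N = 2 * ((n : ℤ) - 1) ∧
    (∀ v, v ≠ S.r → T.mu (R.en v - 1) = R.ex v) ∧
    ∀ j, 0 ≤ j → T.mu j < T.N → ∃ v, v ≠ S.r ∧ j = R.en v - 1 := by
  have hc : Fintype.card {v : Fin n // v ≠ S.r} = n - 1 := by simp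
  obtain ⟨T, h1, h2, h3⟩ := tour_mt (ι := {v : Fin n // v ≠ S.r}) (2 * ((n : ℤ) - 1)) (by omega)
    (by rw [hc]; omega) (fun v => R.en v - 1) (fun v => R.ex v) (fun v => by
      have k1 := R.nest S.r v (S.anc_r v) v.2.symm
      have k2 := R.en_rho v
      have k3 := R.rho_ex v
      rw [R.en_r, R.ex_r] at k1
      omega) fun u v => by
      by_cases e : u = v
      · exact Or.inl e
      have e' : u.1 ≠ v.1 := fun c => e (Subtype.ext c)
      right
      by_cases c1 : S.Anc u v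
      · have := R.nest u v c1 e'
        omega
      by_cases c2 : S.Anc v u
      · have := R.nest v u c2 e'.symm
        omega
      have k1 := R.left u v c1 c2
      have k2 := R.left v u c2 c1
      have k3 : cy S.r u ≠ cy S.r v := fun c => e' (cy_inj c)
      omega
  refine ⟨T, h1, fun v hv => h2 ⟨v, hv⟩, fun j k1 k2 => ?_⟩
  obtain ⟨v, hv⟩ := h3 j k1 (h1 ▸ k2)
  exact ⟨v.1, v.2, hv⟩

/-- breadth first tree: `dep v = G.dist r v`, `par v` a neighbour one step closer. -/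
theorem exists_bfs (hc : G.Connected) :
    ∃ S : RT G, ∀ u v, G.Adj u v → S.Anc u v → u = S.par v := by
  obtain ⟨r⟩ := hc.nonempty
  have tri : ∀ u v, G.Adj u v → G.dist u r ≤ G.dist v r + 1 := fun u v h => by
    have := hc.dist_triangle (u := u) (v := v) (w := r)
    rw [SimpleGraph.dist_eq_one_iff_adj.2 h] at this
    omega
  have key : ∀ v, ∃ w, (v = r → w = r) ∧ (v ≠ r → G.Adj v w ∧ G.dist v r = G.dist w r + 1) := by
    intro v
    obtain ⟨p, hp⟩ := hc.exists_walk_length_eq_dist v r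
    cases p with
    | nil => exact ⟨r, fun _ => rfl, fun h => absurd rfl h⟩
    | cons h p =>
      by_cases e : v = r
      · exact ⟨r, fun _ => rfl, fun h => absurd e h⟩
      · refine ⟨_, fun c => absurd c e, fun _ => ⟨h, ?_⟩⟩
        have k1 := tri _ _ h
        have k2 := SimpleGraph.dist_le p
        rw [SimpleGraph.Walk.length_cons] at hp
        omega
  choose par h1 h2 using key
  refine ⟨⟨r, par, fun v => G.dist v r, h1 r rfl, SimpleGraph.dist_self, fun v hv => (h2 v hv).1,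
    fun v hv => (h2 v hv).2⟩, fun u v h k => ?_⟩
  by_contra e
  have k1 : G.dist u r < G.dist (par v) r := (k.of_ne h.ne).dep_lt e
  have k2 := (h2 v (k.ne_r h.ne)).2
  have k3 := tri v u h.symm
  omega

/-- in an acyclic graph adjacent vertices are related in every rooted spanning tree (else the
tree path through the `lca` and the edge are two different paths; or count edges). -/
theorem anc_of_acyclic (hG : G.IsAcyclic) (S : RT G) {u v : Fin n} (h : G.Adj u v) :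
    S.Anc u v ∨ S.Anc v u := by
  by_contra hn
  rw [not_or] at hn
  have key : ∀ x, (G.deleteEdges {s(u, v)}).Reachable x S.r := fun x => by
    induction x using S.ind with
    | h0 => exact SimpleGraph.Reachable.refl _
    | hs x hx ih =>
      refine (SimpleGraph.Adj.reachable ?_).trans ih
      rw [SimpleGraph.deleteEdges_adj]
      refine ⟨S.adj x hx, fun e => ?_⟩
      rcases Sym2.eq_iff.1 (Set.mem_singleton_iff.1 e) with ⟨e1, e2⟩ | ⟨e1, e2⟩
      · exact hn.2 (e1 ▸ e2 ▸ S.anc_par x)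
      · exact hn.1 (e1 ▸ e2 ▸ S.anc_par x)
  exact SimpleGraph.isBridge_iff.1 (SimpleGraph.isAcyclic_iff_forall_adj_isBridge.1 hG h)
    ((key u).trans (key v).symm)

namespace Times
variable {S : RT G} (R : Times S)

theorem rho_lt {u v : Fin n} (h : cy S.r u < cy S.r v) : R.rho u < R.rho v := by
  have e : u ≠ v := fun c => by
    rw [c] at h
    exact lt_irrefl _ h
  have k1 := R.en_rho v
  have k2 := R.rho_ex u
  by_cases c1 : S.Anc u v
  · have := (R.out u v c1 e).2 h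
    omega
  by_cases c2 : S.Anc v u
  · have := (R.out v u c2 e.symm).1 h
    omega
  have := R.left u v c1 c2 h
  omega

theorem tour_lt {u v : Fin n} (h : R.rho u < R.rho v) : cy S.r u < cy S.r v := by
  rcases lt_trichotomy (cy S.r u) (cy S.r v) with k | k | k
  · exact k
  · rw [cy_inj k] at h
    exact absurd h (lt_irrefl _)
  · exact absurd (R.rho_lt k) h.not_gt

/-- a vertex with label between the ends of an edge lies below one of them: induction along its
path to the root (`RT.ind`, `nc_side`; the root has `cy = 0`). -/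
theorem between (h : NoCross G) {u v x : Fin n} (huv : G.Adj u v) (h1 : cy S.r u < cy S.r x)
    (h2 : cy S.r x < cy S.r v) : S.Anc u x ∨ S.Anc v x := by
  induction x using S.ind with
  | h0 =>
    rw [cy_self] at h1
    omega
  | hs x hx ih =>
    by_cases c1 : S.par x = u
    · exact Or.inl (c1 ▸ S.anc_par x)
    by_cases c2 : S.par x = v
    · exact Or.inr (c2 ▸ S.anc_par x)
    have k1 := nc_side h S.r huv (S.adj x hx) (fun c => by rw [c] at h1; omega)
      (fun c => by rw [c] at h2; omega) c1 c2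
    have k2 : cy S.r (S.par x) ≠ cy S.r v := fun c => c2 (cy_inj c)
    exact (ih (by omega) (by omega)).imp (fun k => k.step) fun k => k.step

/-- no outer corner inside the interval of a chord (`rho_lt`, `between`, `nest`). -/
theorem no_rho (h : NoCross G) {u v : Fin n} (huv : G.Adj u v) (x : Fin n) :
    ¬ (R.ex u < R.rho x ∧ R.rho x < R.en v) := by
  rintro ⟨h1, h2⟩
  have k1 := R.rho_ex u
  have k2 := R.en_rho v
  have k3 := R.rho_ex x
  have k4 := R.en_rho x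
  rcases between h huv (R.tour_lt (u := u) (v := x) (by omega))
    (R.tour_lt (u := x) (v := v) (by omega)) with c | c
  · have := R.nest u x c fun e => by
      rw [e] at h1
      omega
    omega
  · have := R.nest v x c fun e => by
      rw [e] at h2
      omega
    omega

/-- intervals of chords do not cross: labels would be `u' < u < v' < v` (`no_rho`, `nc_cy`). -/
theorem no_cross (h : NoCross G) {u v u' v' : Fin n} (huv : G.Adj u v) (huv' : G.Adj u' v') :
    ¬ (R.ex u < R.ex u' ∧ R.ex u' < R.en v ∧ R.en v < R.en v') := by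
  rintro ⟨h1, h2, h3⟩
  have a1 := R.rho_ex u
  have a2 := R.rho_ex u'
  have a3 := R.en_rho v
  have a4 := R.en_rho v'
  have a5 := R.en_rho u'
  have a6 := R.rho_ex v
  have k1 := R.no_rho h huv u'
  have k2 := R.no_rho h huv' v
  have e1 : u ≠ u' := fun e => by
    rw [e] at h1
    omega
  have e2 : v ≠ v' := fun e => by
    rw [e] at h3
    omega
  refine nc_cy h S.r u' u v' v ?_ (R.tour_lt (by omega)) ?_ huv' huv
  · refine lt_of_le_of_ne (not_lt.1 fun c => ?_) fun c => e1 (cy_inj c).symm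
    by_cases c1 : S.Anc u u'
    · have := R.nest u u' c1 e1
      omega
    by_cases c2 : S.Anc u' u
    · have := (R.out u' u c2 e1.symm).1 c
      omega
    have := R.left u u' c1 c2 c
    omega
  · refine lt_of_le_of_ne (not_lt.1 fun c => ?_) fun c => e2 (cy_inj c).symm
    by_cases c1 : S.Anc v v'
    · have := (R.out v v' c1 e2).2 c
      omega
    by_cases c2 : S.Anc v' v
    · have := R.nest v' v c2 e2.symm
      omega
    have := R.left v v' c1 c2 c
    omega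

end Times
end
end Pool.Agent.Work.MP_37ce0f_lc.Q
end

-- merged part: Pool.Agent.Work.MP_37ce0f_lc.Q.Draw1
section
namespace Pool.Agent.Work.MP_37ce0f_lc.Q
open Pool.Agent.Work.MP_37ce0f_lc.W Finset Classical
noncomputable section
variable {n : ℕ} {G : SimpleGraph (Fin n)}

theorem draw1_path (f : Fin n → ℤ) {u v : Fin n} (p : G.Walk u v)
    (h : ∀ e ∈ p.darts, f e.fst < f e.snd) :
    p.IsPath ∧ (∀ x ∈ p.support, f u ≤ f x) ∧ (u = v ∨ f u < f v) := by
  induction p with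
  | nil => simp
  | cons hab p ih =>
    obtain ⟨i1, i2, i3⟩ := ih (fun e he => h e (by simp [he]))
    have h0 := h ⟨(_, _), hab⟩ (by simp)
    dsimp only at h0
    refine ⟨?_, fun x hx => ?_, Or.inr ?_⟩
    · rw [SimpleGraph.Walk.cons_isPath_iff]
      exact ⟨i1, fun hx => by have := i2 _ hx; omega⟩
    · rw [SimpleGraph.Walk.support_cons, List.mem_cons] at hx
      rcases hx with e | hx
      · rw [e]
      · have := i2 x hx; omega
    · rcases i3 with e | e
      · exact e ▸ h0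
      · omega

theorem draw1_up {S : RT G} {w v : Fin n} (h : S.Anc w v) : ∃ p : G.Walk v w, ∀ e ∈ p.darts,
    e.fst ≠ S.r ∧ e.snd = S.par e.fst ∧ S.Anc w e.snd ∧ S.Anc e.fst v := by
  induction v using S.ind with
  | h0 => rw [h.eq_r]; exact ⟨SimpleGraph.Walk.nil, by simp⟩
  | hs v hv ih =>
    rcases h.cases with e | e
    · rw [e]; exact ⟨SimpleGraph.Walk.nil, by simp⟩
    · obtain ⟨p, hp⟩ := ih e.2
      refine ⟨SimpleGraph.Walk.cons (S.adj v hv) p, fun d hd => ?_⟩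
      rw [SimpleGraph.Walk.darts_cons, List.mem_cons] at hd
      rcases hd with rfl | hd
      · exact ⟨hv, rfl, e.2, S.anc_refl v⟩
      · exact ⟨(hp d hd).1, (hp d hd).2.1, (hp d hd).2.2.1, (hp d hd).2.2.2.step⟩

theorem draw1_toR {p q : ℤ × ℤ} (h : toR p = toR q) : p = q := by
  simp only [toR, Prod.mk.injEq, Int.cast_inj] at h
  exact Prod.ext h.1 h.2

theorem draw1_symm (p q : ℤ × ℤ) : seg (p, q) = seg (q, p) := segment_symm ℝ _ _

/-- all data of the drawing -/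
structure Dat (G : SimpleGraph (Fin n)) where
  S : RT G
  R : Times S
  T : Mt
  C : Cert T
  nc : NoCross G
  bfs : ∀ u v, G.Adj u v → S.Anc u v → u = S.par v
  hN : T.N = 2 * ((n : ℤ) - 1)
  mu_en : ∀ v, v ≠ S.r → T.mu (R.en v - 1) = R.ex v
  down : ∀ j, 0 ≤ j → T.mu j < T.N → ∃ v, v ≠ S.r ∧ j = R.en v - 1
  chord : ∀ u v, G.Adj u v → ¬ S.Anc u v → ¬ S.Anc v u → cy S.r u < cy S.r v →
    C.Good (R.ex u) (R.en v) ∧ C.Turn (R.ex u) (R.en v)

namespace Dat
variable (X : Dat G)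

def D : Drawing n where
  pos := fun v => X.C.P (X.R.rho v)
  bends := fun _ _ => []
  symm := fun _ _ => rfl

/-- at time `t` the contour is at the vertex `v` -/
def At (v : Fin n) (t : ℤ) : Prop := 0 ≤ t ∧ t ≤ X.T.N ∧
  ∀ c, c ≠ X.S.r → ((X.R.en c ≤ t ∧ t ≤ X.R.ex c) ↔ X.S.Anc c v)

theorem draw1_rng (v : Fin n) : 0 ≤ X.R.en v ∧ X.R.en v ≤ X.R.rho v ∧ X.R.rho v ≤ X.R.ex v ∧
    X.R.ex v ≤ X.T.N := by
  have h1 := X.R.en_rho v
  have h2 := X.R.rho_ex v
  have h3 := X.R.en_r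
  have h4 := X.R.ex_r
  have h5 := X.hN
  by_cases hv : v = X.S.r
  · subst hv
    omega
  · have := X.R.nest _ v (X.S.anc_r v) (Ne.symm hv)
    omega

theorem draw1_pos {v : Fin n} (hv : v ≠ X.S.r) : 0 < X.R.en v ∧ X.R.ex v < X.T.N := by
  have h3 := X.R.en_r
  have h4 := X.R.ex_r
  have h5 := X.hN
  have := X.R.nest _ v (X.S.anc_r v) (Ne.symm hv)
  omega

theorem draw1_tri (c v : Fin n) : c = v ∨
    (X.S.Anc c v ∧ c ≠ v ∧ X.R.en c < X.R.en v ∧ X.R.ex v < X.R.ex c) ∨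
    (¬ X.S.Anc c v ∧ X.R.en v < X.R.en c ∧ X.R.ex c < X.R.ex v ∧
      (X.R.ex c < X.R.rho v ∨ X.R.rho v < X.R.en c)) ∨
    (¬ X.S.Anc c v ∧ (X.R.ex c + 1 < X.R.en v ∨ X.R.ex v + 1 < X.R.en c)) := by
  by_cases e : c = v
  · exact Or.inl e
  have hne : cy X.S.r c ≠ cy X.S.r v := fun k => e (cy_inj k)
  by_cases h1 : X.S.Anc c v
  · exact Or.inr (Or.inl ⟨h1, e, X.R.nest c v h1 e⟩)
  by_cases h2 : X.S.Anc v c
  · have k1 := X.R.nest v c h2 (Ne.symm e)
    have k2 := X.R.out v c h2 (Ne.symm e)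
    exact Or.inr (Or.inr (Or.inl ⟨h1, k1.1, k1.2, (lt_or_gt_of_ne hne).imp k2.1 k2.2⟩))
  · exact Or.inr (Or.inr (Or.inr ⟨h1,
      (lt_or_gt_of_ne hne).imp (X.R.left c v h1 h2) (X.R.left v c h2 h1)⟩))

/-- trichotomy with `nest`, `left`, `out` -/
theorem at_rho (v : Fin n) : X.At v (X.R.rho v) := by
  have r := X.draw1_rng v
  refine ⟨by omega, by omega, fun c _ => ?_⟩
  have rc := X.draw1_rng c
  rcases X.draw1_tri c v with e | e | e | e
  · subst e
    exact iff_of_true (by omega) (X.S.anc_refl c)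
  · exact iff_of_true (by omega) e.1
  · exact iff_of_false (by omega) e.1
  · exact iff_of_false (by omega) e.1

theorem at_en (v : Fin n) : X.At v (X.R.en v) := by
  have r := X.draw1_rng v
  refine ⟨by omega, by omega, fun c _ => ?_⟩
  have rc := X.draw1_rng c
  rcases X.draw1_tri c v with e | e | e | e
  · subst e
    exact iff_of_true (by omega) (X.S.anc_refl c)
  · exact iff_of_true (by omega) e.1
  · exact iff_of_false (by omega) e.1
  · exact iff_of_false (by omega) e.1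

theorem at_ex (v : Fin n) : X.At v (X.R.ex v) := by
  have r := X.draw1_rng v
  refine ⟨by omega, by omega, fun c _ => ?_⟩
  have rc := X.draw1_rng c
  rcases X.draw1_tri c v with e | e | e | e
  · subst e
    exact iff_of_true (by omega) (X.S.anc_refl c)
  · exact iff_of_true (by omega) e.1
  · exact iff_of_false (by omega) e.1
  · exact iff_of_false (by omega) e.1

theorem at_par {v : Fin n} (hv : v ≠ X.S.r) : X.At (X.S.par v) (X.R.en v - 1) := by
  have r := X.draw1_rng v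
  have r' := X.draw1_pos hv
  refine ⟨by omega, by omega, fun c _ => ?_⟩
  have rc := X.draw1_rng c
  rcases X.draw1_tri c v with e | e | e | e
  · subst e
    exact iff_of_false (by omega) (RT.not_anc_par hv)
  · exact iff_of_true (by omega) (e.1.of_ne e.2.1)
  · exact iff_of_false (by omega) fun k => e.1 k.step
  · exact iff_of_false (by omega) fun k => e.1 k.step

theorem At.draw1_U {X : Dat G} {v : Fin n} {t : ℤ} (h : X.At v t) (j : ℤ) :
    j ∈ X.T.U 0 t ↔ ∃ c, c ≠ X.S.r ∧ j = X.R.en c - 1 ∧ X.S.Anc c v := by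
  rw [Mt.mem_U]
  constructor
  · rintro ⟨h1, h2, h3, h4⟩
    obtain ⟨c, hc, rfl⟩ := X.down j h1 (by omega)
    rw [X.mu_en c hc] at h3
    exact ⟨c, hc, rfl, (h.2.2 c hc).1 ⟨by omega, h3⟩⟩
  · rintro ⟨c, hc, rfl, h1⟩
    have k1 := (h.2.2 c hc).2 h1
    have k2 := X.draw1_pos hc
    rw [X.mu_en c hc]
    omega

/-- `P_open`: `U 0 t = U 0 (rho v)` because every member is `en c - 1` (`down`, `mu_en`). -/
theorem At.pos {X : Dat G} {v : Fin n} {t : ℤ} (h : X.At v t) : X.C.P t = X.D.pos v := by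
  have h' := X.at_rho v
  change _ = X.C.P (X.R.rho v)
  rw [X.C.P_open h.1 h.2.1, X.C.P_open h'.1 h'.2.1]
  congr 1
  ext j
  rw [h.draw1_U, h'.draw1_U]

theorem pos_par {v : Fin n} (hv : v ≠ X.S.r) :
    X.D.pos v = X.D.pos (X.S.par v) + X.C.d (X.R.en v - 1) := by
  have k := X.draw1_pos hv
  rw [← (X.at_par hv).pos, ← (X.at_en v).pos, ← X.C.P_succ (by omega), sub_add_cancel]

theorem draw1_sep {u v : Fin n} (h : X.R.rho u ≤ X.R.rho v) : ∃ o : ℤ × ℤ, ∀ c, c ≠ X.S.r →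
    (X.S.Anc c u → ¬ X.S.Anc c v → cr o (X.C.d (X.R.en c - 1)) < 0) ∧
    (X.S.Anc c v → ¬ X.S.Anc c u → 0 < cr o (X.C.d (X.R.en c - 1))) := by
  have hu := X.at_rho u
  have hv := X.at_rho v
  have u1 := hu.1
  have v1 := hv.2.1
  obtain ⟨o, ho⟩ := X.C.mono_fun h (by omega)
  refine ⟨o, fun c hc => ?_⟩
  have k := X.draw1_pos hc
  have m := X.mu_en c hc
  refine ⟨fun a b => ?_, fun a b => ?_⟩
  · have a' := (hu.2.2 c hc).2 a
    have b' := (hv.2.2 c hc).not.2 b
    have := ho (X.T.mu (X.R.en c - 1)) (X.T.mem_U.2 (by rw [X.T.mm, m]; omega))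
    rw [X.C.dm, cr_negr] at this
    omega
  · have a' := (hv.2.2 c hc).2 a
    have b' := (hu.2.2 c hc).not.2 b
    exact ho _ (X.T.mem_U.2 (by rw [m]; omega))

/-- For `rho u ≤ rho v` take `o` from `mono_fun`: `en c - 1 ∈ U` for `c` above `v` only,
`ex c ∈ U` for `c` above `u` only (`mu (ex c) = en c - 1 + N`, `d (ex c) = - d (en c - 1)`).
Otherwise swap and negate. -/
theorem sepf (u v : Fin n) : ∃ o : ℤ × ℤ, ∀ c, c ≠ X.S.r →
    (X.S.Anc c u → ¬ X.S.Anc c v → cr o (X.C.d (X.R.en c - 1)) < 0) ∧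
    (X.S.Anc c v → ¬ X.S.Anc c u → 0 < cr o (X.C.d (X.R.en c - 1))) := by
  rcases le_total (X.R.rho u) (X.R.rho v) with h | h
  · exact X.draw1_sep h
  · obtain ⟨o, ho⟩ := X.draw1_sep h
    refine ⟨-o, fun c hc => ?_⟩
    rw [cr_negl]
    exact ⟨fun a b => by have := (ho c hc).2 a b; omega,
      fun a b => by have := (ho c hc).1 a b; omega⟩

theorem draw1_segs (u v : Fin n) : X.D.segs u v = [(X.D.pos u, X.D.pos v)] := by
  simp [Drawing.segs, Drawing.chain, D]

theorem draw1_trace (u v : Fin n) : X.D.trace u v = seg (X.D.pos u, X.D.pos v) := by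
  ext p
  simp [Drawing.trace, X.draw1_segs]

theorem draw1_walk (u v : Fin n) : ∃ p : G.Walk u v, ∃ o : ℤ × ℤ, ∀ e ∈ p.darts,
    cr o (X.D.pos e.fst) < cr o (X.D.pos e.snd) := by
  obtain ⟨o, ho⟩ := X.sepf u v
  obtain ⟨p1, k1⟩ := draw1_up (X.S.lca_l u v)
  obtain ⟨p2, k2⟩ := draw1_up (X.S.lca_r u v)
  refine ⟨p1.append p2.reverse, o, fun e he => ?_⟩
  rw [SimpleGraph.Walk.darts_append, List.mem_append, SimpleGraph.Walk.mem_darts_reverse] at he
  rcases he with he | he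
  · obtain ⟨i1, i2, i3, i4⟩ := k1 e he
    have := (ho _ i1).1 i4 fun a => RT.not_anc_par i1 ((RT.anc_lca i4 a).trans (i2 ▸ i3))
    rw [i2, X.pos_par i1, cr_addr]
    omega
  · obtain ⟨i1, i2, i3, i4⟩ := k2 _ he
    change e.snd ≠ X.S.r at i1
    change e.fst = X.S.par e.snd at i2
    change X.S.Anc _ e.fst at i3
    change X.S.Anc e.snd v at i4
    have := (ho _ i1).2 i4 fun a => RT.not_anc_par i1 ((RT.anc_lca a i4).trans (i2 ▸ i3))
    rw [i2, X.pos_par i1, cr_addr]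
    omega

/-- as `Ctx.mono_aux`, `Ctx.walk_up`, `path_of_mono` in `W/Upper.lean` (copy them, do not import
that file): walk up to the `lca` and down; vector `(-o.2, o.1)`. -/
theorem isMono : IsMono G X.D := by
  intro u v
  obtain ⟨p, o, h⟩ := X.draw1_walk u v
  refine ⟨p, (draw1_path (fun x => cr o (X.D.pos x)) p h).1, ((-o.2 : ℤ), (o.1 : ℤ)),
    fun e he s hs => ?_⟩
  rw [X.draw1_segs, List.mem_singleton] at hs
  subst hs
  have k := h e he
  unfold cr at k
  have k' : 0 < -o.2 * ((X.D.pos e.snd).1 - (X.D.pos e.fst).1) +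
      o.1 * ((X.D.pos e.snd).2 - (X.D.pos e.fst).2) := by linarith
  dsimp only
  exact_mod_cast k'

/-- a monotone path between two different vertices has different ends -/
theorem pos_inj : Function.Injective X.D.pos := by
  intro u v e
  obtain ⟨p, o, h⟩ := X.draw1_walk u v
  rcases (draw1_path (fun x => cr o (X.D.pos x)) p h).2.2 with k | k
  · exact k
  · rw [e] at k
    exact absurd k (lt_irrefl _)

theorem draw1_edge {a b : Fin n} (h : G.Adj a b)
    (k : X.S.Anc a b ∨ ¬ X.S.Anc a b ∧ ¬ X.S.Anc b a ∧ cy X.S.r a < cy X.S.r b) : ∃ s t : ℤ,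
    X.At a s ∧ X.At b t ∧ s < t ∧ X.C.Good s t ∧ (∀ x, ¬ (s < X.R.rho x ∧ X.R.rho x < t)) ∧
    ((b ≠ X.S.r ∧ a = X.S.par b ∧ s = X.R.en b - 1 ∧ t = X.R.en b) ∨
      (G.Adj a b ∧ X.C.Turn s t ∧ s = X.R.ex a ∧ t = X.R.en b)) := by
  rcases k with k | ⟨k1, k2, k3⟩
  · have e := X.bfs a b h k
    have hb := k.ne_r h.ne
    have g := X.C.good_one (X.R.en b - 1)
    rw [sub_add_cancel] at g
    exact ⟨_, _, e ▸ X.at_par hb, X.at_en b, by omega, g, fun x => by omega,
      Or.inl ⟨hb, e, rfl, rfl⟩⟩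
  · have c := X.chord a b h k1 k2 k3
    exact ⟨_, _, X.at_ex a, X.at_en b, c.2.1, c.1, X.R.no_rho X.nc h, Or.inr ⟨h, c.2, rfl, rfl⟩⟩

/-- every edge is the segment of a time interval -/
theorem edge {u v : Fin n} (h : G.Adj u v) : ∃ (a b : Fin n) (s t : ℤ), s(u, v) = s(a, b) ∧
    X.At a s ∧ X.At b t ∧ s < t ∧ X.C.Good s t ∧ X.D.trace u v = seg (X.C.P s, X.C.P t) ∧
    (∀ x, ¬ (s < X.R.rho x ∧ X.R.rho x < t)) ∧
    ((b ≠ X.S.r ∧ a = X.S.par b ∧ s = X.R.en b - 1 ∧ t = X.R.en b) ∨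
      (G.Adj a b ∧ X.C.Turn s t ∧ s = X.R.ex a ∧ t = X.R.en b)) := by
  have hne : cy X.S.r u ≠ cy X.S.r v := fun k => h.ne (cy_inj k)
  have key : (X.S.Anc u v ∨ ¬ X.S.Anc u v ∧ ¬ X.S.Anc v u ∧ cy X.S.r u < cy X.S.r v) ∨
      (X.S.Anc v u ∨ ¬ X.S.Anc v u ∧ ¬ X.S.Anc u v ∧ cy X.S.r v < cy X.S.r u) := by
    have := lt_or_gt_of_ne hne
    tauto
  rcases key with k | k
  · obtain ⟨s, t, h1, h2, h3, h4, h5, h6⟩ := X.draw1_edge h k
    exact ⟨u, v, s, t, rfl, h1, h2, h3, h4, by rw [X.draw1_trace, h1.pos, h2.pos], h5, h6⟩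
  · obtain ⟨s, t, h1, h2, h3, h4, h5, h6⟩ := X.draw1_edge h.symm k
    exact ⟨v, u, s, t, Sym2.eq_swap, h1, h2, h3, h4,
      by rw [X.draw1_trace, h1.pos, h2.pos, draw1_symm], h5, h6⟩

theorem draw1_two {a b a' b' : Fin n} {s t s' t' : ℤ} (h1 : X.At a s) (h2 : X.At b t)
    (h3 : s < t) (h4 : X.C.Good s t)
    (h7 : (b ≠ X.S.r ∧ a = X.S.par b ∧ s = X.R.en b - 1 ∧ t = X.R.en b) ∨
      (G.Adj a b ∧ X.C.Turn s t ∧ s = X.R.ex a ∧ t = X.R.en b))
    (k1 : X.At a' s') (k2 : X.At b' t') (k3 : s' < t') (k4 : X.C.Good s' t')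
    (k7 : (b' ≠ X.S.r ∧ a' = X.S.par b' ∧ s' = X.R.en b' - 1 ∧ t' = X.R.en b') ∨
      (G.Adj a' b' ∧ X.C.Turn s' t' ∧ s' = X.R.ex a' ∧ t' = X.R.en b'))
    (c : s < s' ∨ (s = s' ∧ t' < t)) {p : ℝ × ℝ} (hp : p ∈ seg (X.C.P s, X.C.P t))
    (hp' : p ∈ seg (X.C.P s', X.C.P t')) : ∃ w, p = toR (X.D.pos w) := by
  have s0 := h1.1
  have t1 := k2.2.1
  rcases le_or_gt t s' with c1 | c1
  · have ht : X.C.Turn s t ∨ X.C.Turn s' t' ∨ (t = s + 1 ∧ t' = s' + 1 ∧ s' ≠ X.T.mu s) := by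
      rcases h7 with h7 | h7
      · rcases k7 with k7 | k7
        · refine Or.inr (Or.inr ⟨by omega, by omega, fun e => ?_⟩)
          have m1 := X.mu_en b' k7.1
          have m2 := X.draw1_pos k7.1
          have m3 := X.T.mm s
          rw [← e, k7.2.2.1] at m3
          omega
        · exact Or.inr (Or.inl k7.2.1)
      · exact Or.inl h7.2.1
    rcases X.C.seg_seg s0 h4 k4 c1 (by omega) ht hp hp' with e | e | e | e
    · exact ⟨a, h1.pos ▸ e⟩
    · exact ⟨b, h2.pos ▸ e⟩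
    · exact ⟨a', k1.pos ▸ e⟩
    · exact ⟨b', k2.pos ▸ e⟩
  have h8 := h7.resolve_left (by omega)
  rcases le_or_gt t' t with c2 | c2
  · rcases X.C.seg_nest s0 h4 h8.2.1 (by omega) k3 c2 (by omega) hp hp' with e | e
    · exact ⟨a', k1.pos ▸ e⟩
    · exact ⟨b', k2.pos ▸ e⟩
  · have k8 := k7.resolve_left (by omega)
    exact absurd (by omega) (X.R.no_cross X.nc h8.1 k8.1)

/-- `edge` for both edges. Vertex `w` on an edge: `pt_seg` with `r = rho w` or `rho w + N`
(`P_per`), `pos_inj`. Two edges: intervals disjoint (`seg_seg`; two tree steps are both down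
steps, `mu s' < N` but `mu (mu s) = s + N`), nested (`seg_nest`; the outer one has length `≥ 2`
or the intervals are equal and then the edges are equal by `At.pos`, `pos_inj`), or crossing
(both are chords, `no_cross`). -/
theorem planar : Planar G X.D := by
  refine ⟨X.pos_inj, fun u v h => ?_, fun u v w h hp => ?_, fun u v x y h h' hne p hp hp' => ?_⟩
  · rw [X.draw1_segs]
    refine ⟨fun s hs => ?_, List.pairwise_singleton _ _⟩
    rw [List.mem_singleton] at hs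
    subst hs
    exact fun e => h.ne (X.pos_inj e)
  · obtain ⟨a, b, s, t, e, h1, h2, h3, h4, h5, h6, h7⟩ := X.edge h
    have hw := X.at_rho w
    have w0 := hw.1
    have w1 := hw.2.1
    have s0 := h1.1
    have t1 := h2.2.1
    have k := h6 w
    have ht : X.C.Turn s t ∨ t = s + 1 := h7.symm.imp (fun c => c.2.1) fun c => by omega
    rw [h5, ← hw.pos] at hp
    have key : X.C.P (X.R.rho w) = X.C.P s ∨ X.C.P (X.R.rho w) = X.C.P t := by
      rcases le_or_gt t (X.R.rho w) with c | c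
      · exact X.C.pt_seg s0 h4 ht c (by omega) hp
      · rw [← X.C.P_per w0] at hp ⊢
        exact X.C.pt_seg s0 h4 ht (by omega) (by omega) hp
    rw [hw.pos, h1.pos, h2.pos] at key
    have key' : w = a ∨ w = b := key.imp (fun c => X.pos_inj c) fun c => X.pos_inj c
    rcases Sym2.eq_iff.1 e with c | c
    · rw [c.1, c.2]; exact key'
    · rw [c.1, c.2]; exact key'.symm
  · obtain ⟨a, b, s, t, e, h1, h2, h3, h4, h5, -, h7⟩ := X.edge h
    obtain ⟨a', b', s', t', e', k1, k2, k3, k4, k5, -, k7⟩ := X.edge h'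
    rw [h5] at hp
    rw [k5] at hp'
    by_cases c1 : s < s' ∨ (s = s' ∧ t' < t)
    · exact X.draw1_two h1 h2 h3 h4 h7 k1 k2 k3 k4 k7 c1 hp hp'
    by_cases c2 : s' < s ∨ (s' = s ∧ t < t')
    · exact X.draw1_two k1 k2 k3 k4 k7 h1 h2 h3 h4 h7 c2 hp' hp
    obtain rfl : s = s' := by omega
    obtain rfl : t = t' := by omega
    have ea : a = a' := X.pos_inj (h1.pos.symm.trans k1.pos)
    have eb : b = b' := X.pos_inj (h2.pos.symm.trans k2.pos)
    exact absurd (by rw [e, e', ea, eb]) hne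

theorem inBox {W H : ℕ} (h : X.C.Box W H) : InBox G X.D W H := by
  obtain ⟨x0, y0, h⟩ := h
  refine ⟨x0, y0, fun p hp => ?_⟩
  rcases hp with ⟨v, rfl⟩ | ⟨u, v, -, k⟩
  · exact h _ (X.at_rho v).1 (X.at_rho v).2.1
  · simp [D] at k

end Dat
end
end Pool.Agent.Work.MP_37ce0f_lc.Q
end

-- merged part: Pool.Agent.Work.MP_37ce0f_lc.Q.Draw2
section
namespace Pool.Agent.Work.MP_37ce0f_lc.Q
open Pool.Agent.Work.MP_37ce0f_lc.W Finset Classical
noncomputable section
variable {n : ℕ} {G : SimpleGraph (Fin n)}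
namespace Dat
variable (X : Dat G)

theorem dir_eq (v a : Fin n) : X.D.dir v a = X.D.pos a - X.D.pos v := rfl

theorem mu_ex {v : Fin n} (hv : v ≠ X.S.r) : X.T.mu (X.R.ex v) = X.R.en v - 1 + X.T.N := by
  rw [← X.mu_en v hv, X.T.mm]

theorem out_rng {v : Fin n} (hv : v ≠ X.S.r) :
    X.C.ph (X.R.ex v) < X.C.th (X.R.ex v) ∧ X.C.th (X.R.ex v) < X.C.ph (X.R.ex v) + 2 ∧
    X.C.ph (X.R.en v - 1) + 2 < X.C.th (X.R.ex v) ∧
    X.C.th (X.R.ex v) < X.C.ph (X.R.en v - 1) + 4 := by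
  have h1 := X.C.hi (X.R.ex v)
  rw [X.mu_ex hv, X.C.per] at h1
  have h2 := X.C.thm (X.R.en v - 1)
  rw [X.mu_en v hv] at h2
  have := X.C.lo (X.R.en v - 1)
  exact ⟨X.C.lo _, X.C.hi' _, by linarith, h1⟩

/-- the five kinds of neighbours and the angles of the edges to them -/
theorem nb {v a : Fin n} (h : G.Adj v a) : ∃ z, Ang (X.D.dir v a) z ∧
    ((a ≠ X.S.r ∧ X.S.par a = v ∧ cy X.S.r v < cy X.S.r a ∧
        X.C.ph (X.R.en a - 1) < z ∧ z < X.C.ph (X.R.ex a)) ∨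
      (a ≠ X.S.r ∧ X.S.par a = v ∧ cy X.S.r a < cy X.S.r v ∧
        X.C.ph (X.R.en a - 1) + 4 < z ∧ z < X.C.ph (X.R.ex a) + 4) ∨
      (v ≠ X.S.r ∧ ¬ X.S.Anc v a ∧ X.C.ph (X.R.ex v) < z ∧ z < X.C.ph (X.R.en v - 1) + 4 ∧
        ((a = X.S.par v ∧ z = X.C.th (X.R.ex v)) ∨
          (¬ X.S.Anc a v ∧ cy X.S.r v < cy X.S.r a ∧ z < X.C.th (X.R.ex v)) ∨
          (¬ X.S.Anc a v ∧ cy X.S.r a < cy X.S.r v ∧ X.C.th (X.R.ex v) < z)))) := by
  have hne : cy X.S.r v ≠ cy X.S.r a := fun e => h.ne (cy_inj e)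
  by_cases h1 : X.S.Anc v a
  · have e := X.bfs v a h h1
    have ha := h1.ne_r h.ne
    have p := X.pos_par ha
    have k : X.D.dir v a = X.C.d (X.R.en a - 1) := by rw [dir_eq, p, ← e, add_sub_cancel_left]
    have l1 := X.C.lo (X.R.en a - 1)
    have l2 := X.C.hi (X.R.en a - 1)
    rw [X.mu_en a ha] at l2
    rcases lt_or_gt_of_ne hne with c | c
    · exact ⟨_, k ▸ X.C.ang _, Or.inl ⟨ha, e.symm, c, l1, l2⟩⟩
    · exact ⟨_, k ▸ (X.C.ang _).add4, Or.inr (Or.inl ⟨ha, e.symm, c, by linarith, by linarith⟩)⟩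
  have hv := RT.ne_r_of_not_anc h1
  have o := X.out_rng hv
  by_cases h2 : X.S.Anc a v
  · have e := X.bfs a v h.symm h2
    have p := X.pos_par hv
    have k : X.D.dir v a = X.C.d (X.R.ex v) := by
      rw [dir_eq, p, ← e, ← X.mu_en v hv, X.C.dm]; abel
    exact ⟨_, k ▸ X.C.ang _, Or.inr (Or.inr ⟨hv, h1, o.1, o.2.2.2, Or.inl ⟨e, rfl⟩⟩)⟩
  rcases lt_or_gt_of_ne hne with c | c
  · obtain ⟨g, u⟩ := X.chord v a h h1 h2 c
    obtain ⟨z, z1, z2, z3⟩ := X.C.chord_ang (X.at_ex v).1 g u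
    rw [(X.at_ex v).pos, (X.at_en a).pos] at z1
    have l1 := X.C.lo (X.R.en a - 1)
    have l2 := X.C.mono (show X.R.ex v ≤ X.R.en a - 1 by have := u.1; omega)
    exact ⟨z, z1, Or.inr (Or.inr ⟨hv, h1, by linarith, by linarith [o.2.2.2],
      Or.inr (Or.inl ⟨h2, c, z3⟩)⟩)⟩
  · obtain ⟨g, u⟩ := X.chord a v h.symm h2 h1 c
    obtain ⟨z, z1, z2, z3⟩ := X.C.chord_ang (X.at_ex a).1 g u
    rw [(X.at_ex a).pos, (X.at_en v).pos] at z1
    have z4 := z1.neg
    rw [neg_sub] at z4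
    have l1 := X.C.hi' (X.R.ex a)
    have l2 := X.C.mono (show X.R.ex a ≤ X.R.en v - 1 by have := u.1; omega)
    have l3 := X.C.thm (X.R.en v - 1)
    rw [X.mu_en v hv] at l3
    exact ⟨z + 2, z4, Or.inr (Or.inr ⟨hv, h1, by linarith [o.1], by linarith,
      Or.inr (Or.inr ⟨h2, c, by linarith⟩)⟩)⟩

theorem ph_le {s t : ℤ} (h : s ≤ t + X.T.N) : X.C.ph s ≤ X.C.ph t + 4 := by
  rw [← X.C.per]; exact X.C.mono h

theorem sib {a b : Fin n} (ha : a ≠ X.S.r) (hb : b ≠ X.S.r) (e : X.S.par a = X.S.par b)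
    (h : cy X.S.r a < cy X.S.r b) : X.C.ph (X.R.ex a) ≤ X.C.ph (X.R.en b - 1) := by
  have hne : a ≠ b := fun k => by rw [k] at h; omega
  have := X.R.left a b (fun k => RT.not_anc_par ha (e ▸ k.of_ne hne))
    (fun k => RT.not_anc_par hb (e ▸ k.of_ne hne.symm)) h
  exact X.C.mono (by omega)

theorem preserves : Preserves G X.D := by
  intro v
  obtain ⟨o, ho⟩ := exists_vec (X.C.ph (X.R.rho v))
  have r0 := (X.at_rho v).1
  have r1 := (X.at_rho v).2.1
  refine ⟨o, ho.ne_zero, fun x hx a b hab => ?_, fun a b ha hb hc => ?_⟩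
  · obtain ⟨a', b', s, t, -, h1, h2, h3, h4, h5, h6, -⟩ := X.edge hab
    have := h1.1
    have := h2.2.1
    have := h6 v
    rw [h5]
    rcases le_or_gt t (X.R.rho v) with c | c
    · exact X.C.ray_seg h1.1 h4 c (by omega) ho hx
    · have k := X.C.ray_seg (r := X.R.rho v + X.T.N) h1.1 h4 (by omega) (by omega)
        (by rw [X.C.per]; exact ho.add4) hx
      rwa [X.C.P_per r0] at k
  obtain ⟨z, z0, hz⟩ := X.nb ha
  obtain ⟨y, y0, hy⟩ := X.nb hb
  have e1 := X.R.en_rho v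
  have e2 := X.R.rho_ex v
  have up : ∀ {c}, c ≠ X.S.r → X.S.par c = v → X.S.Anc v c ∧ 0 < X.R.en c ∧ X.R.ex c < X.T.N ∧
      X.R.en v < X.R.en c ∧ X.R.ex c < X.R.ex v ∧
      (cy X.S.r c < cy X.S.r v → X.R.ex c < X.R.rho v) ∧
      (cy X.S.r v < cy X.S.r c → X.R.rho v < X.R.en c) := by
    intro c h1 h2
    have a1 : X.S.Anc v c := h2 ▸ X.S.anc_par c
    have a2 : v ≠ c := h2 ▸ RT.par_ne h1
    have a3 := X.R.nest v c a1 a2
    have a4 := X.R.out v c a1 a2
    have := (X.at_en v).1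
    have := (X.at_ex v).2.1
    exact ⟨a1, by omega, by omega, a3.1, a3.2, a4.1, a4.2⟩
  have l1 := cy_lt X.S.r a
  have l2 := cy_lt X.S.r b
  have l3 := cy_lt X.S.r v
  have n1 : cy X.S.r v ≠ cy X.S.r a := fun e => ha.ne (cy_inj e)
  have n2 : cy X.S.r v ≠ cy X.S.r b := fun e => hb.ne (cy_inj e)
  rw [cy_rel X.S.r v a, cy_rel X.S.r v b] at hc
  refine ho.before z0 y0 ?_ ?_ ?_
  · rcases hz with ⟨a1, a2, a3, a4, a5⟩ | ⟨a1, a2, a3, a4, a5⟩ | ⟨a1, a2, a3, a4, -⟩
    · have := up a1 a2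
      have := X.C.mono (show X.R.rho v ≤ X.R.en a - 1 by omega)
      linarith
    · have := up a1 a2
      have := X.ph_le (show X.R.rho v ≤ X.R.en a - 1 + X.T.N by omega)
      linarith
    · have := X.C.mono e2
      linarith
  · rcases hz with ⟨a1, a2, a3, a4, a5⟩ | ⟨a1, a2, a3, a4, a5⟩ | ⟨a1, a2, a3, a4, a5⟩ <;>
      rcases hy with ⟨b1, b2, b3, b4, b5⟩ | ⟨b1, b2, b3, b4, b5⟩ | ⟨b1, b2, b3, b4, b5⟩
    · have := X.sib a1 b1 (a2.trans b2.symm) (by split_ifs at hc <;> omega)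
      linarith
    · have := up a1 a2
      have := up b1 b2
      have := X.ph_le (show X.R.ex a ≤ X.R.en b - 1 + X.T.N by omega)
      linarith
    · have := X.C.mono (up a1 a2).2.2.2.2.1.le
      linarith
    · split_ifs at hc <;> omega
    · have := X.sib a1 b1 (a2.trans b2.symm) (by split_ifs at hc <;> omega)
      linarith
    · exact absurd ((Times.between (S := X.S) X.nc ha.symm (x := b) (by split_ifs at hc <;> omega)
        (by split_ifs at hc <;> omega)).elim (up a1 a2).1.trans id) b2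
    · exact absurd ((Times.between (S := X.S) X.nc hb (x := a) (by split_ifs at hc <;> omega)
        (by split_ifs at hc <;> omega)).elim id (up b1 b2).1.trans) a2
    · have := up b1 b2
      have := X.C.mono (show X.R.en v - 1 ≤ X.R.en b - 1 by omega)
      linarith
    have o := X.out_rng a1
    rcases a5 with ⟨c1, c2⟩ | ⟨c1, c2, c3⟩ | ⟨c1, c2, c3⟩ <;>
      rcases b5 with ⟨d1, d2⟩ | ⟨d1, d2, d3⟩ | ⟨d1, d2, d3⟩
    · rw [c1, d1] at hc; omega
    · exact ((Times.between (S := X.S) X.nc hb (x := a) (by split_ifs at hc <;> omega)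
        (by split_ifs at hc <;> omega)).elim a2 fun k => d1 (RT.Anc.step (c1 ▸ k))).elim
    · linarith
    · linarith
    · have k := (Times.between (S := X.S) X.nc hb (x := a) c2 (by split_ifs at hc <;> omega)).resolve_left a2
      have k2 := X.R.nest b a k (fun e => by rw [e] at hc; omega)
      obtain ⟨g, u⟩ := X.chord v a ha a2 c1 c2
      have k3 := X.C.left (X.at_ex v).1 g u (X.chord v b hb b2 d1 d2).2.1 k2.1
      rw [(X.at_ex v).pos, (X.at_en a).pos, (X.at_en b).pos] at k3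
      exact z0.lt_of_cr y0 (by linarith [o.2.1]) k3
    · linarith
    · exact ((Times.between (S := X.S) X.nc ha.symm (x := b) (by split_ifs at hc <;> omega)
        (by split_ifs at hc <;> omega)).elim (fun k => c1 (RT.Anc.step (d1 ▸ k))) b2).elim
    · split_ifs at hc <;> omega
    · have k := (Times.between (S := X.S) X.nc ha.symm (x := b) (by split_ifs at hc <;> omega)
        d2).resolve_right b2
      have k2 := X.R.nest a b k (fun e => by rw [e] at hc; omega)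
      obtain ⟨g, u⟩ := X.chord b v hb.symm d1 b2 d2
      have k3 := X.C.left (X.at_ex b).1 g u k2.2 (X.chord a v ha.symm c1 a2 c2).2.1
      rw [(X.at_ex b).pos, (X.at_en v).pos, (X.at_ex a).pos] at k3
      refine z0.lt_of_cr y0 (by linarith [o.2.2.1]) ?_
      rw [dir_eq, dir_eq]
      unfold cr at k3 ⊢
      simp only [Prod.fst_sub, Prod.snd_sub] at k3 ⊢
      linarith
  · rcases hy with ⟨a1, a2, a3, a4, a5⟩ | ⟨a1, a2, a3, a4, a5⟩ | ⟨a1, a2, a3, a4, -⟩
    · have := up a1 a2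
      have := X.ph_le (show X.R.ex b ≤ X.R.rho v + X.T.N by omega)
      linarith
    · have := up a1 a2
      have := X.C.mono (show X.R.ex b ≤ X.R.rho v by omega)
      linarith
    · have := X.C.mono (show X.R.en v - 1 ≤ X.R.rho v by omega)
      linarith

end Dat
end
end Pool.Agent.Work.MP_37ce0f_lc.Q
end

-- merged part: Pool.Agent.Work.MP_37ce0f_lc.Q.Psi0
section
namespace Pool.Agent.Work.MP_37ce0f_lc.Q
open Pool.Agent.Work.MP_37ce0f_lc.W Finset Classical
noncomputable section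

/-- least denominator of a fraction in `(lo, hi)` -/
def sq (lo hi : ℚ) : ℕ := sInf {q : ℕ | 0 < q ∧ ((⌊lo * q⌋ + 1 : ℤ) : ℚ) < hi * q}

def sp (lo hi : ℚ) : ℤ := ⌊lo * sq lo hi⌋ + 1

def sf (lo hi : ℚ) : ℚ := sp lo hi / sq lo hi

theorem sq_aux {lo hi : ℚ} (h : lo < hi) : ∃ q : ℕ, (0 < q ∧ ((⌊lo * q⌋ + 1 : ℤ) : ℚ) < hi * q) ∧
    (q : ℚ) ≤ 1 / (hi - lo) + 1 := by
  have h0 : 0 < hi - lo := by linarith
  have h1 := Nat.lt_floor_add_one (1 / (hi - lo))
  have h2 := Nat.floor_le (show 0 ≤ 1 / (hi - lo) by positivity)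
  refine ⟨⌊1 / (hi - lo)⌋₊ + 1, ⟨by omega, ?_⟩, by push_cast; linarith⟩
  rw [div_lt_iff₀ h0] at h1
  have h3 := Int.floor_le (lo * ((⌊1 / (hi - lo)⌋₊ + 1 : ℕ) : ℚ))
  push_cast at h3 ⊢
  linarith

theorem sq_mem {lo hi : ℚ} (h : lo < hi) :
    0 < sq lo hi ∧ ((⌊lo * sq lo hi⌋ + 1 : ℤ) : ℚ) < hi * sq lo hi := by
  obtain ⟨q, hq, -⟩ := sq_aux h
  exact Nat.sInf_mem (s := {q : ℕ | 0 < q ∧ ((⌊lo * q⌋ + 1 : ℤ) : ℚ) < hi * q}) ⟨q, hq⟩

theorem sq_le {lo hi : ℚ} (h : lo < hi) : (sq lo hi : ℚ) ≤ 1 / (hi - lo) + 1 := by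
  obtain ⟨q, hq, k⟩ := sq_aux h
  have : sq lo hi ≤ q := Nat.sInf_le hq
  have : (sq lo hi : ℚ) ≤ q := by exact_mod_cast this
  linarith

theorem sf_mem {lo hi : ℚ} (h : lo < hi) : lo < sf lo hi ∧ sf lo hi < hi := by
  obtain ⟨h1, h2⟩ := sq_mem h
  have h3 : (0 : ℚ) < sq lo hi := by exact_mod_cast h1
  unfold sf sp
  rw [lt_div_iff₀ h3, div_lt_iff₀ h3]
  refine ⟨?_, h2⟩
  push_cast
  exact Int.lt_floor_add_one _

theorem sf_eq {lo hi lo' hi' : ℚ} (h1 : lo' ≤ lo) (h2 : hi ≤ hi') (h3 : lo < sf lo' hi')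
    (h4 : sf lo' hi' < hi) : sf lo hi = sf lo' hi' := by
  have k := sq_mem (h3.trans h4)
  have k' := sq_mem (show lo' < hi' by linarith)
  have q0 : (0 : ℚ) < sq lo hi := by exact_mod_cast k.1
  have q0' : (0 : ℚ) < sq lo' hi' := by exact_mod_cast k'.1
  unfold sf at h3 h4
  rw [lt_div_iff₀ q0'] at h3
  rw [div_lt_iff₀ q0'] at h4
  have a1 : ⌊lo * sq lo' hi'⌋ + 1 ≤ sp lo' hi' := Int.add_one_le_iff.2 (Int.floor_lt.2 h3)
  have a2 : sq lo hi ≤ sq lo' hi' := by
    apply Nat.sInf_le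
    refine ⟨k'.1, lt_of_le_of_lt ?_ h4⟩
    exact_mod_cast a1
  have a3 : sq lo' hi' ≤ sq lo hi := by
    apply Nat.sInf_le
    refine ⟨k.1, lt_of_le_of_lt ?_ (lt_of_lt_of_le k.2 (mul_le_mul_of_nonneg_right h2 q0.le))⟩
    have := Int.floor_mono (mul_le_mul_of_nonneg_right h1 q0.le)
    exact_mod_cast (by omega : ⌊lo' * sq lo hi⌋ + 1 ≤ ⌊lo * sq lo hi⌋ + 1)
  have e : sq lo hi = sq lo' hi' := le_antisymm a2 a3
  have a4 := Int.floor_mono (mul_le_mul_of_nonneg_right h1 q0'.le)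
  have e2 : sp lo hi = sp lo' hi' := by
    unfold sp at a1 ⊢; rw [e]; omega
  unfold sf; rw [e, e2]

theorem sf_left {lo hi hi' : ℚ} (h : lo < hi) (h2 : hi ≤ hi') : sf lo hi ≤ sf lo hi' := by
  rcases lt_or_ge (sf lo hi') hi with k | k
  · exact (sf_eq le_rfl h2 (sf_mem (h.trans_le h2)).1 k).le
  · exact (sf_mem h).2.le.trans k

theorem sf_right {lo lo' hi : ℚ} (h : lo < hi) (h2 : lo' ≤ lo) : sf lo' hi ≤ sf lo hi := by
  rcases lt_or_ge lo (sf lo' hi) with k | k
  · exact (sf_eq h2 le_rfl k (sf_mem (h2.trans_lt h)).2).ge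
  · exact k.trans (sf_mem h).1.le

theorem sp_rng {lo hi : ℚ} (h0 : 0 < lo) (h : lo < hi) (h1 : hi < 1) :
    0 < sp lo hi ∧ sp lo hi < sq lo hi := by
  have k := sf_mem h
  have q0 : (0 : ℚ) < sq lo hi := by exact_mod_cast (sq_mem h).1
  unfold sf at k
  rw [lt_div_iff₀ q0, div_lt_iff₀ q0] at k
  have := mul_pos h0 q0
  have := mul_lt_mul_of_pos_right h1 q0
  constructor
  · exact_mod_cast (by linarith : (0 : ℚ) < sp lo hi)
  · exact_mod_cast (by linarith : (sp lo hi : ℚ) < (sq lo hi : ℚ))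

namespace Mt
variable (T : Mt)

/-- open steps at time `t` with both ends in `[a, b)` -/
def E (a b t : ℤ) : Finset ℤ := (Ico a t).filter (fun i => t ≤ T.mu i ∧ T.mu i < b)

theorem mem_E {a b t i : ℤ} : i ∈ T.E a b t ↔ a ≤ i ∧ i < t ∧ t ≤ T.mu i ∧ T.mu i < b := by
  simp [E, and_assoc]

def m (j : ℤ) : ℕ := T.A j (T.mu j + 1)

def psi (a b t : ℤ) : ℚ := (T.A a b + 1) * ∏ i ∈ T.E a b t, (1 - 1 / (T.m i : ℚ))

def lam (a b i : ℤ) : ℚ := if T.mu i = i + 1 ∧ T.mu i < b then 1 / T.psi a b i else 0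

def fr (a b j : ℤ) : ℚ := 1 / (2 * (T.A a b + 1)) + ∑ i ∈ Ico a j, T.lam a b i

theorem A_step {s t : ℤ} (h : s < t) :
    T.A s t = T.A (s + 1) t + if T.mu s < t then 1 else 0 := by
  unfold A
  have : Ico s t = insert s (Ico (s + 1) t) := by
    ext j; simp only [mem_Ico, mem_insert]; omega
  rw [this, filter_insert]
  split_ifs
  · rw [card_insert_of_notMem (by simp)]
  · rfl

theorem m_eq (s : ℤ) : T.m s = T.A (s + 1) (T.mu s) + 1 := by
  have h := T.lt s
  unfold m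
  rw [T.A_step (by omega), if_pos (by omega)]
  congr 1
  unfold A
  congr 1
  ext j
  simp only [mem_filter, mem_Ico]
  have h1 := T.lt j
  have h2 := T.lt_add s
  have h3 : T.mu j = T.mu s → j = s := T.mu_inj
  omega

theorem m_two {s : ℤ} (h : T.mu s ≠ s + 1) (h' : T.mu (s + 1) < T.mu s) : 2 ≤ T.m s := by
  have := T.lt s
  rw [T.m_eq, T.A_step (by omega), if_pos h']; omega

theorem m_two' {s : ℤ} (h : T.mu s ≠ s + 1) : 2 ≤ T.m s :=
  T.m_two h (by have := T.succ_lt (t := s + 1) (by simpa using h); simpa using this)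

theorem A_split {s t : ℤ} (h : T.mu s < t) (h2 : t ≤ s + T.N) :
    T.A s t = T.m s + T.A (T.mu s + 1) t := by
  have h0 := T.lt s
  unfold m A
  rw [← card_union_of_disjoint]
  · congr 1
    ext j
    simp only [mem_union, mem_filter, mem_Ico]
    have h1 := T.nc s j
    have h3 : j = T.mu s → T.mu j = s + T.N := fun e => by rw [e, T.mm]
    have h4 : j = s → T.mu j = T.mu s := fun e => by rw [e]
    have := T.lt j
    omega
  · rw [disjoint_left]
    intro j h1 h3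
    simp only [mem_filter, mem_Ico] at h1 h3
    omega

theorem fac_nonneg (i : ℤ) : 0 ≤ 1 - 1 / (T.m i : ℚ) := by
  have : (1 : ℚ) ≤ T.m i := by rw [T.m_eq]; push_cast; linarith [Nat.cast_nonneg (α := ℚ) (T.A (i + 1) (T.mu i))]
  have := one_div_le_one_div_of_le one_pos this
  linarith

theorem psi_nonneg (a b t : ℤ) : 0 ≤ T.psi a b t :=
  mul_nonneg (by positivity) (prod_nonneg fun i _ => T.fac_nonneg i)

theorem lam_nonneg (a b i : ℤ) : 0 ≤ T.lam a b i := by
  unfold lam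
  split_ifs
  · exact div_nonneg one_pos.le (T.psi_nonneg a b i)
  · exact le_rfl

variable {a b : ℤ} (hab : b ≤ a + T.N)
include hab

theorem psi_pos {t : ℤ} (h : T.mu t < b) : 0 < T.psi a b t := by
  refine mul_pos (by positivity) (prod_pos fun i hi => ?_)
  rw [T.mem_E] at hi
  have : T.mu i ≠ i + 1 := fun e => by
    have e2 : t = T.mu i := by omega
    rw [e2, T.mm] at h; omega
  have : (2 : ℚ) ≤ T.m i := by exact_mod_cast T.m_two' this
  have := one_div_le_one_div_of_le two_pos this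
  linarith

theorem lam_up {s : ℤ} (h : a ≤ s) : T.lam a b (T.mu s) = 0 := by
  unfold lam
  rw [if_neg]
  rw [T.mm]; omega

theorem bal (k : ℕ) : ∀ s t : ℤ, t - s ≤ k → a ≤ s → s ≤ t → t ≤ b →
    (∀ j, s ≤ j → j < t → T.mu j < b → T.mu j < t) → (∀ i ∈ T.E a b s, t ≤ T.mu i) →
    ∑ i ∈ Ico s t, T.lam a b i = T.A s t / T.psi a b s := by
  induction k with
  | zero =>
    intro s t h _ h2 _ _ _
    obtain rfl : s = t := by omega
    simp [A]
  | succ k ih =>
    intro s t h h1 h2 h3 h4 h5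
    rcases h2.eq_or_lt with rfl | h2
    · simp [A]
    have ls := T.lt s
    by_cases f : T.mu s < b
    · have g := h4 s le_rfl h2 f
      have e1 : T.E a b (T.mu s + 1) = T.E a b s := by
        ext i
        have := h5 i
        have := T.nc s i
        have h6 : i = T.mu s → T.mu i = s + T.N := fun e => by rw [e, T.mm]
        have h7 : i = s → T.mu i = T.mu s := fun e => by rw [e]
        simp only [mem_E] at *
        omega
      have e2 : T.E a b (s + 1) = insert s (T.E a b s) := by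
        ext i
        have := h5 i
        have h7 : i = s → T.mu i = T.mu s := fun e => by rw [e]
        simp only [mem_insert, mem_E] at *
        omega
      have p1 : T.psi a b (T.mu s + 1) = T.psi a b s := by unfold psi; rw [e1]
      have p2 : T.psi a b (s + 1) = T.psi a b s * (1 - 1 / (T.m s : ℚ)) := by
        unfold psi; rw [e2, prod_insert (by simp [mem_E])]; ring
      have r1 := ih (T.mu s + 1) t (by omega) (by omega) (by omega) h3
        (fun j a1 a2 a3 => h4 j (by omega) a2 a3) (by rw [e1]; exact h5)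
      have r2 := ih (s + 1) (T.mu s) (by omega) (by omega) (by omega) (by omega)
        (fun j a1 a2 a3 => by have := T.nc s j; omega) (by
          rw [e2]; intro i hi
          rcases mem_insert.1 hi with rfl | hi
          · exact le_rfl
          · have := h5 i hi; omega)
      have sp1 : Ico s t = insert s (Ico (s + 1) (T.mu s) ∪ insert (T.mu s) (Ico (T.mu s + 1) t)) := by
        ext j; simp only [mem_insert, mem_union, mem_Ico]; omega
      rw [sp1, sum_insert (by simp only [mem_insert, mem_union, mem_Ico]; omega),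
        sum_union (by
          rw [disjoint_left]; intro j a1 a2
          simp only [mem_insert, mem_Ico] at a1 a2; omega),
        sum_insert (by simp), r1, r2, T.lam_up hab h1, p1, p2, T.A_split g (by omega)]
      have pp := T.psi_pos hab f
      have me := T.m_eq s
      unfold lam
      by_cases l : T.mu s = s + 1
      · have z : T.A (s + 1) (T.mu s) = 0 := by rw [l]; simp [A]
        rw [if_pos ⟨l, f⟩, me, z]; push_cast; field_simp; ring
      · have m2 : (2 : ℚ) ≤ T.m s := by exact_mod_cast T.m_two' l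
        have me' : (T.A (s + 1) (T.mu s) : ℚ) = T.m s - 1 := by rw [me]; push_cast; ring
        have : (T.m s : ℚ) - 1 ≠ 0 := by linarith
        have : (T.m s : ℚ) ≠ 0 := by linarith
        rw [if_neg (fun k => l k.1), me']; push_cast; field_simp; ring
    · have e1 : T.E a b (s + 1) = T.E a b s := by
        ext i
        have := h5 i
        have h7 : i = s → T.mu i = T.mu s := fun e => by rw [e]
        simp only [mem_E] at *
        omega
      have p1 : T.psi a b (s + 1) = T.psi a b s := by unfold psi; rw [e1]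
      have r1 := ih (s + 1) t (by omega) (by omega) (by omega) h3
        (fun j a1 a2 a3 => h4 j (by omega) a2 a3) (by rw [e1]; exact h5)
      have sp1 : Ico s t = insert s (Ico (s + 1) t) := by
        ext j; simp only [mem_insert, mem_Ico]; omega
      rw [sp1, sum_insert (by simp), r1, p1, T.A_step h2, if_neg (by omega)]
      unfold lam
      rw [if_neg (fun k => f k.2)]; simp

omit hab in
theorem fr_mono {i j : ℤ} (h : i ≤ j) : T.fr a b i ≤ T.fr a b j := by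
  unfold fr
  have := sum_le_sum_of_subset_of_nonneg (Ico_subset_Ico_right (a := a) h)
    (fun i _ _ => T.lam_nonneg a b i)
  linarith

omit hab in
theorem fr_pos (j : ℤ) : 0 < T.fr a b j :=
  add_pos_of_pos_of_nonneg (by positivity) (sum_nonneg fun i _ => T.lam_nonneg a b i)

theorem fr_lt {j : ℤ} (h0 : a ≤ b) (h : j ≤ b) : T.fr a b j < 1 := by
  refine (T.fr_mono h).trans_lt ?_
  have e : T.E a b a = ∅ := by simp [E]
  have := T.bal hab (b - a).toNat a b (by omega) le_rfl h0 le_rfl (fun _ _ _ k => k)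
    (by rw [e]; simp)
  unfold fr
  rw [this]
  unfold psi
  rw [e, prod_empty, mul_one]
  have : (0 : ℚ) ≤ T.A a b := by positivity
  rw [div_add_div _ _ (by positivity) (by positivity), div_lt_one (by positivity)]
  nlinarith

omit hab in
theorem fr_succ {j : ℤ} (h : a ≤ j) : T.fr a b (j + 1) = T.fr a b j + T.lam a b j := by
  unfold fr
  have : Ico a (j + 1) = insert j (Ico a j) := by
    ext i; simp only [mem_insert, mem_Ico]; omega
  rw [this, sum_insert (by simp)]; ring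

theorem fr_mu {j : ℤ} (h : a ≤ j) (f : T.mu j < b) :
    T.fr a b (T.mu j) = T.fr a b j + T.m j / T.psi a b j := by
  have lj := T.lt j
  have := T.bal hab (T.mu j + 1 - j).toNat j (T.mu j + 1) (by omega) h (by omega) (by omega)
    (fun i a1 a2 a3 => by
      have := T.nc j i
      have h6 : i = T.mu j → T.mu i = j + T.N := fun e => by rw [e, T.mm]
      have h7 : i = j → T.mu i = T.mu j := fun e => by rw [e]
      omega)
    (fun i hi => by
      rw [T.mem_E] at hi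
      have := T.nc i j
      have h6 : j = T.mu i → T.mu j = i + T.N := fun e => by rw [e, T.mm]
      omega)
  have k := T.fr_succ (b := b) (j := T.mu j) (by omega : a ≤ T.mu j)
  rw [T.lam_up hab h, add_zero] at k
  rw [← k]
  unfold fr m
  rw [← this, add_assoc, ← sum_union (Ico_disjoint_Ico_consecutive _ _ _),
    Ico_union_Ico_eq_Ico h (by omega)]

theorem tel (k : ℕ) : ∀ t : ℤ, t - a ≤ k →
    ∑ i ∈ T.E a b t, T.psi a b i / T.m i = T.A a b + 1 - T.psi a b t := by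
  induction k with
  | zero =>
    intro t h
    have e : T.E a b t = ∅ := by
      ext i; simp only [mem_E, notMem_empty]; constructor
      · omega
      · exact False.elim
    unfold psi; simp [e]
  | succ k ih =>
    intro t h
    rcases (T.E a b t).eq_empty_or_nonempty with e | hne
    · unfold psi; simp [e]
    have h1 := (T.E a b t).max'_mem hne
    have h2 : ∀ x ∈ T.E a b t, x ≤ (T.E a b t).max' hne := (T.E a b t).le_max'
    generalize (T.E a b t).max' hne = s at h1 h2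
    rw [T.mem_E] at h1
    have e : T.E a b t = insert s (T.E a b s) := by
      ext i
      have := h2 i
      have := T.nc i s
      have h6 : s = T.mu i → T.mu s = i + T.N := fun e => by rw [e, T.mm]
      have h7 : i = s → T.mu i = T.mu s := fun e => by rw [e]
      simp only [mem_insert, mem_E] at *
      omega
    have p : T.psi a b t = T.psi a b s * (1 - 1 / (T.m s : ℚ)) := by
      unfold psi; rw [e, prod_insert (by simp [mem_E])]; ring
    rw [p, e, sum_insert (by simp [mem_E]), ih s (by omega)]; ring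

omit hab in
theorem m_per (j : ℤ) : T.m (j + T.N) = T.m j := by
  unfold m; rw [T.mu_add, add_right_comm, T.A_per]

omit hab in
theorem psi_per (t : ℤ) : T.psi (a + T.N) (b + T.N) (t + T.N) = T.psi a b t := by
  unfold psi
  rw [T.A_per]
  congr 1
  symm
  apply prod_nbij' (fun j => j + T.N) (fun j => j - T.N)
  · intro j hj
    simp only [mem_E] at hj ⊢
    rw [T.mu_add]; omega
  · intro j hj
    simp only [mem_E] at hj ⊢
    rw [T.mu_sub]; omega
  · intro j _; simp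
  · intro j _; simp
  · intro j _; rw [T.m_per]

omit hab in
theorem fr_per (t : ℤ) : T.fr (a + T.N) (b + T.N) (t + T.N) = T.fr a b t := by
  unfold fr
  rw [T.A_per]
  congr 1
  symm
  apply sum_nbij' (fun j => j + T.N) (fun j => j - T.N)
  · intro j hj
    simp only [mem_Ico] at hj ⊢
    omega
  · intro j hj
    simp only [mem_Ico] at hj ⊢
    omega
  · intro j _; simp
  · intro j _; simp
  · intro j _
    unfold lam
    rw [T.mu_add, T.psi_per]
    congr 1
    apply propext; omega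

end Mt
end
end Pool.Agent.Work.MP_37ce0f_lc.Q
end

-- merged part: Pool.Agent.Work.MP_37ce0f_lc.Q.Psi
section
namespace Pool.Agent.Work.MP_37ce0f_lc.Q
open Pool.Agent.Work.MP_37ce0f_lc.W Finset Classical
noncomputable section

theorem rot_sum (k : ℤ) (s : Finset ℤ) (x y : ℤ → ℤ) :
    ∑ i ∈ s, rot k (x i, y i) = rot k (∑ i ∈ s, x i, ∑ i ∈ s, y i) := by
  unfold rot
  split_ifs <;> simp [Prod.ext_iff, Prod.fst_sum, Prod.snd_sum]

theorem rot_abs (k x y B : ℤ) (h1 : 0 ≤ x) (h2 : 0 ≤ y) (h3 : x ≤ B) (h4 : y ≤ B) :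
    |(rot k (x, y)).1| ≤ B ∧ |(rot k (x, y)).2| ≤ B := by
  unfold rot
  split_ifs <;> simp only [abs_le] <;> omega

theorem ang_int (k : ℤ) : Ang (rot k (1, 0)) k := ⟨k, 1, 0, one_pos, le_rfl, by simp, rfl⟩

/-- four cuts per period, the index of the gap, and the choice for opposite gaps -/
structure Cu (T : Mt) where
  c : ℤ → ℤ
  k : ℤ → ℤ
  b : ℤ → Prop
  hp : ∀ i, c (i + 4) = c i + T.N
  hk : ∀ i j, i ≤ k j ↔ c i ≤ j
  hb : ∀ j, b (T.mu j) ↔ b j

namespace Cu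
variable {T : Mt} (Y : Cu T)

theorem k_lo (j : ℤ) : Y.c (Y.k j) ≤ j := (Y.hk _ _).1 le_rfl

theorem k_hi (j : ℤ) : j < Y.c (Y.k j + 1) := by
  have := Y.hk (Y.k j + 1) j; omega

theorem k_mono {i j : ℤ} (h : i ≤ j) : Y.k i ≤ Y.k j := (Y.hk _ _).2 ((Y.k_lo i).trans h)

theorem k_eq {i j : ℤ} (h1 : Y.c i ≤ j) (h2 : j < Y.c (i + 1)) : Y.k j = i := by
  have := Y.hk i j; have := Y.hk (i + 1) j; omega

theorem k_per (j : ℤ) : Y.k (j + T.N) = Y.k j + 4 := by
  have := Y.k_lo j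
  have := Y.k_hi j
  apply Y.k_eq
  · rw [Y.hp]; omega
  · rw [add_right_comm, Y.hp]; omega

theorem gap (i : ℤ) : Y.c (i + 1) ≤ Y.c i + T.N := by
  rw [← Y.hp]
  have := (Y.hk (i + 4) (Y.c (i + 4))).2 le_rfl
  exact (Y.hk _ _).1 (by omega)

theorem k_mm (j : ℤ) : Y.k (T.mu (T.mu j)) = Y.k j + 4 := by rw [T.mm, Y.k_per]

theorem k_mu (j : ℤ) : Y.k j ≤ Y.k (T.mu j) ∧ Y.k (T.mu j) ≤ Y.k j + 4 :=
  ⟨Y.k_mono (T.lt j).le, by rw [← Y.k_mm]; exact Y.k_mono (T.lt _).le⟩

def fr (j : ℤ) : ℚ := T.fr (Y.c (Y.k j)) (Y.c (Y.k j + 1)) j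

theorem fr_rng (j : ℤ) : 0 < Y.fr j ∧ Y.fr j < 1 := by
  have := Y.k_lo j
  have := Y.k_hi j
  exact ⟨T.fr_pos j, T.fr_lt (Y.gap _) (by omega) (by omega)⟩

theorem fr_per (j : ℤ) : Y.fr (j + T.N) = Y.fr j := by
  unfold fr
  rw [Y.k_per, add_right_comm, Y.hp, Y.hp, T.fr_per]

theorem fr_mono {i j : ℤ} (h : i ≤ j) (e : Y.k i = Y.k j) : Y.fr i ≤ Y.fr j := by
  unfold fr; rw [e]; exact T.fr_mono h

theorem fr_succ {t : ℤ} (e : Y.k (t - 1) = Y.k t) (h : T.mu (t - 1) ≠ t) :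
    Y.fr (t - 1) = Y.fr t := by
  have := T.fr_succ (b := Y.c (Y.k (t - 1) + 1)) (Y.k_lo (t - 1))
  unfold Mt.lam at this
  rw [sub_add_cancel, if_neg (fun k => h k.1), add_zero] at this
  unfold fr; rw [← e, this]

theorem fr_mu {j : ℤ} (e : Y.k (T.mu j) = Y.k j) :
    0 < T.psi (Y.c (Y.k j)) (Y.c (Y.k j + 1)) j ∧
    Y.fr (T.mu j) = Y.fr j + T.m j / T.psi (Y.c (Y.k j)) (Y.c (Y.k j + 1)) j := by
  have := Y.k_hi (T.mu j)
  rw [e] at this
  refine ⟨T.psi_pos (Y.gap _) this, ?_⟩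
  unfold fr; rw [e]; exact T.fr_mu (Y.gap _) (Y.k_lo j) this

theorem fr_lt {j : ℤ} (e : Y.k (T.mu j) = Y.k j) : Y.fr j < Y.fr (T.mu j) := by
  obtain ⟨h1, h2⟩ := Y.fr_mu e
  have : (0 : ℚ) < T.m j := by rw [T.m_eq]; positivity
  have := div_pos this h1
  linarith

def q (j : ℤ) : ℤ := sq (Y.fr j) (Y.fr (T.mu j))

def p (j : ℤ) : ℤ := sp (Y.fr j) (Y.fr (T.mu j))

def f (j : ℤ) : ℚ := sf (Y.fr j) (Y.fr (T.mu j))

def d0 (j : ℤ) : ℤ × ℤ := rot (Y.k j) (Y.q j - Y.p j, Y.p j)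

theorem pq {j : ℤ} (e : Y.k (T.mu j) = Y.k j) : 0 < Y.p j ∧ Y.p j < Y.q j :=
  sp_rng (Y.fr_rng j).1 (Y.fr_lt e) (Y.fr_rng _).2

theorem f_mem {j : ℤ} (e : Y.k (T.mu j) = Y.k j) : Y.fr j < Y.f j ∧ Y.f j < Y.fr (T.mu j) :=
  sf_mem (Y.fr_lt e)

theorem ang0 {j : ℤ} (e : Y.k (T.mu j) = Y.k j) : Ang (Y.d0 j) (Y.k j + Y.f j) := by
  obtain ⟨h1, h2⟩ := Y.pq e
  refine ⟨Y.k j, Y.q j - Y.p j, Y.p j, by omega, h1.le, ?_, rfl⟩
  push_cast
  rw [sub_add_cancel]; rfl

theorem q_le {j : ℤ} (e : Y.k (T.mu j) = Y.k j) :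
    (Y.q j : ℚ) ≤ T.psi (Y.c (Y.k j)) (Y.c (Y.k j + 1)) j / T.m j + 1 := by
  have := sq_le (Y.fr_lt e)
  rw [(Y.fr_mu e).2, add_sub_cancel_left, one_div_div, ← (Y.fr_mu e).2] at this
  exact this

theorem f_per (j : ℤ) : Y.f (j + T.N) = Y.f j := by
  unfold f; rw [T.mu_add, Y.fr_per, Y.fr_per]

theorem d0_per (j : ℤ) : Y.d0 (j + T.N) = Y.d0 j := by
  unfold d0 p q; rw [T.mu_add, Y.fr_per, Y.fr_per, Y.k_per, rot_four]

/-- the direction of a skeleton step -/
def io (j : ℤ) : ℤ := if Y.k (T.mu j) = Y.k j + 1 then Y.k j + 1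
  else if Y.k (T.mu j) = Y.k j + 3 then Y.k j + 2
  else if (Y.b j ↔ Y.k j % 2 = 1) then Y.k j + 1 else Y.k j + 2

def th (j : ℤ) : ℚ := if Y.k (T.mu j) = Y.k j then Y.k j + Y.f j
  else if Y.k (T.mu j) = Y.k j + 4 then Y.k j + Y.f (T.mu j) + 2 else Y.io j

def d (j : ℤ) : ℤ × ℤ := if Y.k (T.mu j) = Y.k j then Y.d0 j
  else if Y.k (T.mu j) = Y.k j + 4 then -Y.d0 (T.mu j) else rot (Y.io j) (1, 0)

theorem io_rng (j : ℤ) : Y.k j + 1 ≤ Y.io j ∧ Y.io j ≤ Y.k j + 2 ∧
    (Y.k (T.mu j) = Y.k j + 1 → Y.io j = Y.k j + 1) ∧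
    (Y.k (T.mu j) = Y.k j + 3 → Y.io j = Y.k j + 2) ∧
    (Y.k (T.mu j) = Y.k j + 2 → (Y.b j → Y.io j % 2 = 0) ∧ (¬ Y.b j → Y.io j % 2 = 1)) := by
  unfold io
  split_ifs with h1 h2 h3
  · exact ⟨by omega, by omega, by omega, by omega, fun _ => by omega⟩
  · exact ⟨by omega, by omega, by omega, by omega, fun _ => by omega⟩
  · refine ⟨by omega, by omega, by omega, by omega, fun _ => ⟨fun h => ?_, fun h => ?_⟩⟩
    · have := h3.1 h; omega
    · have := mt h3.2 h; omega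
  · refine ⟨by omega, by omega, by omega, by omega, fun _ => ⟨fun h => ?_, fun h => ?_⟩⟩
    · have : ¬ Y.k j % 2 = 1 := fun g => h3 ⟨fun _ => g, fun _ => h⟩
      omega
    · have : ¬ ¬ Y.k j % 2 = 1 := fun g => h3 ⟨fun g' => absurd g' h, fun g' => absurd g' g⟩
      omega

theorem io_mu {j : ℤ} (h0 : Y.k (T.mu j) ≠ Y.k j) (h4 : Y.k (T.mu j) ≠ Y.k j + 4) :
    Y.io (T.mu j) = Y.io j + 2 := by
  have h1 := Y.io_rng j
  have h2 := Y.io_rng (T.mu j)
  have h3 := Y.k_mu j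
  rw [Y.k_mm, Y.hb] at h2
  by_cases h : Y.b j <;>
    simp only [h, not_true, not_false_iff, forall_const, IsEmpty.forall_iff, and_true,
      true_and] at h1 h2 <;> omega

theorem th_rng (j : ℤ) :
    (Y.k (T.mu j) = Y.k j → (Y.k j : ℚ) < Y.th j ∧ Y.th j < Y.k j + 1) ∧
    (Y.k (T.mu j) = Y.k j + 4 → (Y.k j : ℚ) + 2 < Y.th j ∧ Y.th j < Y.k j + 3) ∧
    (Y.k (T.mu j) ≠ Y.k j → Y.k (T.mu j) ≠ Y.k j + 4 → Y.th j = Y.io j) := by
  unfold th
  refine ⟨fun e => ?_, fun e => ?_, fun h1 h2 => by rw [if_neg h1, if_neg h2]⟩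
  · have := Y.f_mem e
    have := Y.fr_rng j
    have := Y.fr_rng (T.mu j)
    rw [if_pos e]; constructor <;> linarith
  · have := Y.f_mem (j := T.mu j) (by rw [Y.k_mm, e])
    have := Y.fr_rng (T.mu j)
    have := Y.fr_rng (T.mu (T.mu j))
    rw [if_neg (by omega), if_pos e]; constructor <;> linarith

def cert : Cert T where
  ph := fun j => Y.k j + Y.fr j
  th := Y.th
  d := Y.d
  mono := fun i j h => by
    rcases (Y.k_mono h).eq_or_lt with e | e
    · have := Y.fr_mono h e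
      simp only [e]; linarith
    · have : (Y.k i : ℚ) + 1 ≤ Y.k j := by exact_mod_cast e
      have := Y.fr_rng i
      have := Y.fr_rng j
      dsimp only; linarith
  per := fun j => by rw [Y.k_per, Y.fr_per]; push_cast; ring
  ang := fun j => by
    unfold th d
    split_ifs with h1 h2
    · exact Y.ang0 h1
    · have := (Y.ang0 (j := T.mu j) (by rw [Y.k_mm, h2])).neg'
      rw [h2] at this
      convert this using 1
      push_cast; ring
    · exact ang_int _
  thm := fun j => by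
    have h := Y.k_mu j
    have h' := Y.k_mm j
    unfold th
    by_cases h1 : Y.k (T.mu j) = Y.k j
    · rw [if_neg (by omega), if_pos (by omega), if_pos h1, T.mm, Y.f_per, h1]
    by_cases h2 : Y.k (T.mu j) = Y.k j + 4
    · rw [if_pos (by omega), if_neg h1, if_pos h2, h2]; push_cast; ring
    · rw [if_neg (by omega), if_neg (by omega), if_neg h1, if_neg h2, Y.io_mu h1 h2]; push_cast; ring
  dm := fun j => by
    have h := Y.k_mu j
    have h' := Y.k_mm j
    unfold d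
    by_cases h1 : Y.k (T.mu j) = Y.k j
    · rw [if_neg (by omega), if_pos (by omega), if_pos h1, T.mm, Y.d0_per]
    by_cases h2 : Y.k (T.mu j) = Y.k j + 4
    · rw [if_pos (by omega), if_neg h1, if_pos h2, neg_neg]
    · rw [if_neg (by omega), if_neg (by omega), if_neg h1, if_neg h2, Y.io_mu h1 h2, rot_two]
  lo := fun j => by
    have r := Y.th_rng j
    have := Y.fr_rng j
    by_cases h1 : Y.k (T.mu j) = Y.k j
    · have := Y.f_mem h1
      unfold th; rw [if_pos h1]; linarith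
    by_cases h2 : Y.k (T.mu j) = Y.k j + 4
    · have := r.2.1 h2; linarith
    · have : (Y.k j : ℚ) + 1 ≤ Y.io j := by exact_mod_cast (Y.io_rng j).1
      rw [r.2.2 h1 h2]; linarith
  hi := fun j => by
    have r := Y.th_rng j
    have := Y.fr_rng (T.mu j)
    by_cases h1 : Y.k (T.mu j) = Y.k j
    · have := Y.f_mem h1
      unfold th; rw [if_pos h1, h1]; linarith
    by_cases h2 : Y.k (T.mu j) = Y.k j + 4
    · have := r.2.1 h2
      rw [h2]; push_cast; linarith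
    · have h3 := Y.io_rng j
      have h4 := Y.k_mu j
      have : (Y.io j : ℚ) ≤ Y.k (T.mu j) := by exact_mod_cast (by omega : Y.io j ≤ Y.k (T.mu j))
      rw [r.2.2 h1 h2]; linarith

theorem cvx (hb : ∀ j, Y.b j) {t : ℤ} (e : Y.k (t - 1) = Y.k t) (h : T.mu (t - 1) ≠ t) :
    Y.th t ≤ Y.th (t - 1) ∧ (0 ≤ Y.k t → 4 ≤ Y.k (T.mu (t - 1)) → Y.k (T.mu t) ≤ 3 →
      Y.th t < Y.th (t - 1)) := by
  have h1 := T.succ_lt h
  have h2 := Y.k_mono h1.le
  have r := Y.th_rng t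
  have r' := Y.th_rng (t - 1)
  have i := Y.io_rng t
  have i' := Y.io_rng (t - 1)
  have m := Y.k_mu t
  have m' := Y.k_mu (t - 1)
  have s := Y.fr_succ e h
  simp only [hb, not_true, forall_const, IsEmpty.forall_iff, and_true] at i i'
  rw [e] at r' i' m'
  have c1 : (Y.k t : ℚ) + 1 ≤ Y.io (t - 1) := by exact_mod_cast i'.1
  have c2 : (Y.io t : ℚ) ≤ Y.k t + 2 := by exact_mod_cast i.2.1
  by_cases a0 : Y.k (T.mu (t - 1)) = Y.k t
  · have a1 : Y.k (T.mu t) = Y.k t := by omega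
    refine ⟨?_, by omega⟩
    unfold th
    rw [if_pos a1, if_pos (by omega), e]
    have : Y.f t ≤ Y.f (t - 1) := by
      unfold f; rw [s]
      exact sf_left (Y.fr_lt a1) (Y.fr_mono h1.le (by omega))
    linarith
  by_cases a4 : Y.k (T.mu t) = Y.k t + 4
  · have a1 : Y.k (T.mu (t - 1)) = Y.k t + 4 := by omega
    refine ⟨?_, by omega⟩
    unfold th
    rw [if_neg (by omega), if_pos a4, if_neg (by omega), if_pos (by omega), e]
    have : Y.f (T.mu t) ≤ Y.f (T.mu (t - 1)) := by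
      have l := Y.fr_lt (j := T.mu (t - 1)) (by rw [Y.k_mm, a1, e])
      unfold f
      rw [T.mm, Y.fr_per, s] at l
      rw [T.mm, T.mm, Y.fr_per, Y.fr_per, s]
      exact sf_right l (Y.fr_mono h1.le (by omega))
    linarith
  by_cases b0 : Y.k (T.mu t) = Y.k t
  · have := r.1 b0
    have : Y.th t < Y.th (t - 1) := by
      by_cases b4 : Y.k (T.mu (t - 1)) = Y.k t + 4
      · have := r'.2.1 b4; linarith
      · rw [r'.2.2 a0 b4]; linarith
    exact ⟨this.le, fun _ _ _ => this⟩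
  rw [r.2.2 b0 a4]
  by_cases b4 : Y.k (T.mu (t - 1)) = Y.k t + 4
  · have := r'.2.1 b4
    exact ⟨by linarith, fun _ _ _ => by linarith⟩
  rw [r'.2.2 a0 b4]
  refine ⟨?_, fun _ _ _ => ?_⟩
  · exact_mod_cast (by omega : Y.io t ≤ Y.io (t - 1))
  · exact_mod_cast (by omega : Y.io t < Y.io (t - 1))

theorem sum_d {i t : ℤ} :
    |(∑ j ∈ T.E (Y.c i) (Y.c (i + 1)) t, Y.d j).1| ≤ T.A (Y.c i) (Y.c (i + 1)) + 1 ∧
    |(∑ j ∈ T.E (Y.c i) (Y.c (i + 1)) t, Y.d j).2| ≤ T.A (Y.c i) (Y.c (i + 1)) + 1 := by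
  have hk : ∀ j ∈ T.E (Y.c i) (Y.c (i + 1)) t, Y.k j = i ∧ Y.k (T.mu j) = Y.k j := by
    intro j hj
    rw [T.mem_E] at hj
    have e : Y.k j = i := Y.k_eq hj.1 (by omega)
    exact ⟨e, by rw [e]; exact Y.k_eq (by omega) hj.2.2.2⟩
  have e1 : ∑ j ∈ T.E (Y.c i) (Y.c (i + 1)) t, Y.d j =
      ∑ j ∈ T.E (Y.c i) (Y.c (i + 1)) t, rot i (Y.q j - Y.p j, Y.p j) :=
    sum_congr rfl fun j hj => by unfold d d0; rw [if_pos (hk j hj).2, (hk j hj).1]
  have t1 := T.tel (Y.gap i) (t - Y.c i).toNat t (by omega)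
  have t2 := T.psi_nonneg (Y.c i) (Y.c (i + 1)) t
  have t3 : ∑ j ∈ T.E (Y.c i) (Y.c (i + 1)) t, ((Y.q j : ℚ) - 1) ≤
      ∑ j ∈ T.E (Y.c i) (Y.c (i + 1)) t, T.psi (Y.c i) (Y.c (i + 1)) j / T.m j :=
    sum_le_sum fun j hj => by
      have := Y.q_le (hk j hj).2
      rw [(hk j hj).1] at this; linarith
  have t4 : ∑ j ∈ T.E (Y.c i) (Y.c (i + 1)) t, (Y.q j - 1) ≤ T.A (Y.c i) (Y.c (i + 1)) + 1 := by
    have : ((∑ j ∈ T.E (Y.c i) (Y.c (i + 1)) t, (Y.q j - 1) : ℤ) : ℚ) ≤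
        T.A (Y.c i) (Y.c (i + 1)) + 1 := by push_cast; linarith
    exact_mod_cast this
  rw [e1, rot_sum]
  refine rot_abs _ _ _ _ (sum_nonneg fun j hj => ?_) (sum_nonneg fun j hj => ?_)
    ((sum_le_sum fun j hj => ?_).trans t4) ((sum_le_sum fun j hj => ?_).trans t4) <;>
    have := Y.pq (hk j hj).2 <;> omega

end Cu

namespace Mt
variable (T : Mt)

/-- the skeleton steps drawn horizontally -/
def Hor (c : ℤ → ℤ) (b : ℤ → Prop) (j : ℤ) : Prop :=
  j < c 2 ∧ c 2 ≤ T.mu j ∧ (b j ∨ (j < c 1 ↔ c 3 ≤ T.mu j))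

theorem exists_k (c : ℤ → ℤ) (hm : Monotone c) (hp : ∀ i, c (i + 4) = c i + T.N) (j : ℤ) :
    ∃ k, ∀ i, i ≤ k ↔ c i ≤ j := by
  have hN := T.N_pos
  have e : ∀ q : ℤ, c (4 * q) = c 0 + q * T.N := by
    intro q
    induction q using Int.induction_on with
    | zero => simp
    | succ q ih => rw [mul_add, mul_one, hp, ih]; ring
    | pred q ih =>
      have := hp (4 * (-q - 1))
      rw [show 4 * (-(q : ℤ) - 1) + 4 = 4 * -q by ring, ih] at this
      linarith
  obtain ⟨k, h1, h2⟩ := Int.exists_greatest_of_bdd (P := fun k => c k ≤ j)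
    ⟨4 * (|j - c 0| + 1), fun z hz => by
      by_contra hn
      have a1 := hm (not_le.1 hn).le
      rw [e] at a1
      have := le_abs_self (j - c 0)
      have := abs_nonneg (j - c 0)
      nlinarith⟩
    ⟨4 * -|j - c 0|, by
      rw [e]
      have := neg_abs_le (j - c 0)
      have := abs_nonneg (j - c 0)
      nlinarith⟩
  exact ⟨k, fun i => ⟨fun h => (hm h).trans h1, h2 i⟩⟩

theorem exists_cert (c : ℤ → ℤ) (hm : Monotone c) (hp : ∀ i, c (i + 4) = c i + T.N)
    (b : ℤ → Prop) (hb : ∀ j, b (T.mu j) ↔ b j) : ∃ C : Cert T,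
    ((∀ j, b j) → ∀ t, (∀ i, c i ≠ t) → T.mu (t - 1) ≠ t → C.th t ≤ C.th (t - 1) ∧
      (c 0 = 0 → 0 < t → t < T.N → T.N ≤ T.mu (t - 1) → T.mu t < T.N →
        C.th t < C.th (t - 1))) ∧
    (∀ j, c 0 ≤ j → T.mu j < c 4 → (T.Hor c b j → C.d j = (-1, 0)) ∧
      (¬ T.Hor c b j → j < c 1 → c 1 ≤ T.mu j → C.d j = (0, 1)) ∧
      (¬ T.Hor c b j → j < c 3 → c 3 ≤ T.mu j → C.d j = (0, -1))) ∧
    (∀ k t, c k ≤ t → t < c (k + 1) →
      |(∑ i ∈ T.E (c k) (c (k + 1)) t, C.d i).1| ≤ T.A (c k) (c (k + 1)) + 1 ∧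
      |(∑ i ∈ T.E (c k) (c (k + 1)) t, C.d i).2| ≤ T.A (c k) (c (k + 1)) + 1) := by
  choose k hk using T.exists_k c hm hp
  let Y : Cu T := ⟨c, k, b, hp, fun i j => hk j i, hb⟩
  refine ⟨Y.cert, fun hb t h1 h2 => ?_, fun j h1 h2 => ?_, fun i t _ _ => Y.sum_d⟩
  · have e : Y.k (t - 1) = Y.k t := by
      have a1 := Y.k_lo t
      have a2 := Y.k_hi t
      have a3 : Y.c (Y.k t) ≠ t := h1 _
      exact Y.k_eq (by omega) (by omega)
    refine ⟨(Y.cvx hb e h2).1, fun z a1 a2 a3 a4 => (Y.cvx hb e h2).2 ?_ ?_ ?_⟩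
    · exact (hk _ _).2 (by omega)
    · have := hp 0
      rw [zero_add] at this
      exact (hk _ _).2 (by omega)
    · have := hp 0
      rw [zero_add] at this
      have := hk (T.mu t) 4
      change k _ ≤ 3
      omega
  · have a0 := hk j 0
    have a1 := hk j 1
    have a2 := hk j 2
    have a3 := hk j 3
    have b1 := hk (T.mu j) 1
    have b2 := hk (T.mu j) 2
    have b3 := hk (T.mu j) 3
    have b4 := hk (T.mu j) 4
    have r := Y.io_rng j
    have key : ∀ z : ℤ, k (T.mu j) ≠ k j → Y.io j = z → Y.cert.d j = rot z (1, 0) := by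
      intro z n e
      change Y.d j = _
      unfold Cu.d
      rw [if_neg n, if_neg (show k (T.mu j) ≠ k j + 4 by omega), e]
    change (k j + 1 ≤ Y.io j ∧ Y.io j ≤ k j + 2 ∧ (k (T.mu j) = k j + 1 → Y.io j = k j + 1) ∧
      (k (T.mu j) = k j + 3 → Y.io j = k j + 2) ∧
      (k (T.mu j) = k j + 2 → (b j → Y.io j % 2 = 0) ∧ (¬ b j → Y.io j % 2 = 1))) at r
    unfold Hor
    by_cases h : b j <;>
      simp only [h, not_true, not_false_iff, forall_const, IsEmpty.forall_iff, and_true,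
        true_and, true_or, false_or] at r ⊢ <;>
      exact ⟨fun g => key 2 (by omega) (by omega), fun g g1 g2 => key 1 (by omega) (by omega),
        fun g g1 g2 => key 3 (by omega) (by omega)⟩

end Mt
end
end Pool.Agent.Work.MP_37ce0f_lc.Q
end

-- merged part: Pool.Agent.Work.MP_37ce0f_lc.Q.Cut
section
namespace Pool.Agent.Work.MP_37ce0f_lc.Q
open Pool.Agent.Work.MP_37ce0f_lc.W Finset Classical
noncomputable section
namespace Mt
variable (T : Mt)

/-- weight of the gap `[s, t)`; it moves by `1 .. K+1` when an end moves (`A_left`, `A_right`) -/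
def w (K : ℕ) (s t : ℤ) : ℤ := K * T.A s t + (t - s)

/-- four cuts whose consecutive weights differ by at most `K + 1` -/
def Bal (K : ℕ) (s0 s1 s2 s3 : ℤ) : Prop :=
  s0 ≤ s1 ∧ s1 ≤ s2 ∧ s2 ≤ s3 ∧ s3 ≤ s0 + T.N ∧
  |T.w K s0 s1 - T.w K s1 s2| ≤ K + 1 ∧ |T.w K s1 s2 - T.w K s2 s3| ≤ K + 1 ∧
  |T.w K s2 s3 - T.w K s3 (s0 + T.N)| ≤ K + 1

theorem cut_AR (a : ℤ) {b b' : ℤ} (h : b ≤ b') :
    (T.A a b : ℤ) ≤ T.A a b' ∧ (T.A a b' : ℤ) ≤ T.A a b + (b' - b) := by
  induction b', h using Int.leInduction with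
  | base => omega
  | succ n _ ih => have := T.A_right a n; omega

theorem cut_AL {a a' : ℤ} (b : ℤ) (h : a ≤ a') :
    (T.A a' b : ℤ) ≤ T.A a b ∧ (T.A a b : ℤ) ≤ T.A a' b + (a' - a) := by
  induction a', h using Int.leInduction with
  | base => omega
  | succ n _ ih => have := T.A_left n b; omega

theorem cut_wR (K : ℕ) (a : ℤ) {b b' : ℤ} (h : b ≤ b') :
    T.w K a b + (b' - b) ≤ T.w K a b' ∧ T.w K a b' ≤ T.w K a b + (K + 1) * (b' - b) := by
  obtain ⟨h1, h2⟩ := T.cut_AR a h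
  have k : (0 : ℤ) ≤ K := Int.natCast_nonneg K
  have h3 := mul_le_mul_of_nonneg_left h1 k
  have h4 := mul_le_mul_of_nonneg_left h2 k
  unfold w
  constructor <;> linarith

theorem cut_wL (K : ℕ) {a a' : ℤ} (b : ℤ) (h : a ≤ a') :
    T.w K a' b + (a' - a) ≤ T.w K a b ∧ T.w K a b ≤ T.w K a' b + (K + 1) * (a' - a) := by
  obtain ⟨h1, h2⟩ := T.cut_AL b h
  have k : (0 : ℤ) ≤ K := Int.natCast_nonneg K
  have h3 := mul_le_mul_of_nonneg_left h1 k
  have h4 := mul_le_mul_of_nonneg_left h2 k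
  unfold w
  constructor <;> linarith

theorem cut_w0 (K : ℕ) (a : ℤ) : T.w K a a = 0 := by simp [w, A]

theorem cut_pow {a a' b b' : ℤ} (h : 1 ≤ a) (h1 : a' ≤ a - 1) (h2 : b' ≤ a - 1) :
    2 ^ a'.toNat + 2 ^ b'.toNat < 2 ^ a.toNat + 2 ^ b.toNat := by
  have e : a.toNat = (a - 1).toNat + 1 := by omega
  have k1 : 2 ^ a'.toNat ≤ 2 ^ (a - 1).toNat := Nat.pow_le_pow_right two_pos (by omega)
  have k2 : 2 ^ b'.toNat ≤ 2 ^ (a - 1).toNat := Nat.pow_le_pow_right two_pos (by omega)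
  have k3 : 0 < 2 ^ b.toNat := Nat.two_pow_pos _
  rw [e, pow_succ]
  omega

theorem cut_move (K : ℕ) {a b c : ℤ} (h1 : a ≤ b) (h2 : b ≤ c)
    (h : ¬ |T.w K a b - T.w K b c| ≤ K + 1) : ∃ d, a ≤ d ∧ d ≤ c ∧
      2 ^ (T.w K a d).toNat + 2 ^ (T.w K d c).toNat <
        2 ^ (T.w K a b).toNat + 2 ^ (T.w K b c).toNat := by
  have k1 := (T.cut_wR K a h1).1
  have k2 := (T.cut_wR K b h2).1
  have k3 := T.cut_w0 K a
  have k4 := T.cut_w0 K b
  rw [abs_le] at h
  by_cases e : T.w K a b ≤ T.w K b c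
  · have k5 := (T.cut_wR K a (by omega : b ≤ b + 1)).2
    have k6 := (T.cut_wL K c (by omega : b ≤ b + 1)).1
    rw [add_sub_cancel_left, mul_one] at k5
    have : b ≠ c := by rintro rfl; omega
    refine ⟨b + 1, by omega, by omega, ?_⟩
    rw [add_comm, add_comm (2 ^ (T.w K a b).toNat)]
    exact cut_pow (by omega) (by omega) (by omega)
  · have k5 := (T.cut_wR K a (by omega : b - 1 ≤ b)).1
    have k6 := (T.cut_wL K c (by omega : b - 1 ≤ b)).2
    rw [sub_sub_cancel, mul_one] at k6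
    have : a ≠ b := by rintro rfl; omega
    exact ⟨b - 1, by omega, by omega, cut_pow (by omega) (by omega) (by omega)⟩

/-- Minimise the sum of `2 ^ (w i).toNat` over the finite set of ordered triples. If a weight
exceeds its neighbour by `K + 2`, its gap is nonempty and moving the common cut one step into it
lowers the sum: the larger weight drops by at least 1, the smaller grows by at most `K + 1`. -/
theorem exists_bal (K : ℕ) (s0 : ℤ) : ∃ s1 s2 s3, T.Bal K s0 s1 s2 s3 := by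
  have hN := T.N_pos
  obtain ⟨⟨a, b, c⟩, ⟨h1, h2, h3⟩, hm⟩ := (measure fun x : ℤ × ℤ × ℤ =>
    2 ^ (T.w K s0 x.1).toNat + 2 ^ (T.w K x.1 x.2.1).toNat + 2 ^ (T.w K x.2.1 x.2.2).toNat +
      2 ^ (T.w K x.2.2 (s0 + T.N)).toNat).wf.has_min
    {x | s0 ≤ x.1 ∧ (x.1 ≤ x.2.1 ∧ x.2.1 ≤ x.2.2) ∧ x.2.2 ≤ s0 + T.N}
    ⟨(s0, s0, s0), le_rfl, ⟨le_rfl, le_rfl⟩, by dsimp only; omega⟩
  dsimp only at h1 h2 h3
  have hm' : ∀ x y z, s0 ≤ x → x ≤ y → y ≤ z → z ≤ s0 + T.N → ¬
      2 ^ (T.w K s0 x).toNat + 2 ^ (T.w K x y).toNat + 2 ^ (T.w K y z).toNat +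
        2 ^ (T.w K z (s0 + T.N)).toNat <
      2 ^ (T.w K s0 a).toNat + 2 ^ (T.w K a b).toNat + 2 ^ (T.w K b c).toNat +
        2 ^ (T.w K c (s0 + T.N)).toNat := fun x y z k1 k2 k3 k4 => hm (x, y, z) ⟨k1, ⟨k2, k3⟩, k4⟩
  refine ⟨a, b, c, h1, h2.1, h2.2, h3, ?_, ?_, ?_⟩ <;> by_contra h
  · obtain ⟨d, k1, k2, k3⟩ := T.cut_move K h1 h2.1 h
    exact hm' d b c k1 k2 h2.2 h3 (by omega)
  · obtain ⟨d, k1, k2, k3⟩ := T.cut_move K h2.1 h2.2 h
    exact hm' a d c h1 k1 k2 h3 (by omega)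
  · obtain ⟨d, k1, k2, k3⟩ := T.cut_move K h2.2 h3 h
    exact hm' a b d h1 h2.1 k1 k2 (by omega)

/-- any two weights differ by at most `1, 2, 3` times `K + 1`, the lengths add up to `N`. -/
theorem Bal.mass {K : ℕ} {s0 s1 s2 s3 : ℤ} (h : T.Bal K s0 s1 s2 s3) :
    ∃ M : ℕ, T.A s0 s1 ≤ M ∧ T.A s1 s2 ≤ M ∧ T.A s2 s3 ≤ M ∧ T.A s3 (s0 + T.N) ≤ M ∧
      (K : ℤ) * (4 * M - (T.A s0 s1 + T.A s1 s2 + T.A s2 s3 + T.A s3 (s0 + T.N))) ≤
        6 * (K + 1) + T.N := by
  obtain ⟨h1, h2, h3, h4, k1, k2, k3⟩ := h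
  unfold w at k1 k2 k3
  rw [abs_le] at k1 k2 k3
  obtain ⟨⟨k1, k1'⟩, ⟨k2, k2'⟩, k3, k3'⟩ := And.intro k1 (And.intro k2 k3)
  have k : (0 : ℤ) ≤ K := Int.natCast_nonneg K
  refine ⟨max (max (T.A s0 s1) (T.A s1 s2)) (max (T.A s2 s3) (T.A s3 (s0 + T.N))), by omega,
    by omega, by omega, by omega, ?_⟩
  rcases max_choice (max (T.A s0 s1) (T.A s1 s2)) (max (T.A s2 s3) (T.A s3 (s0 + T.N))) with
    e | e <;> rw [e]
  · rcases max_choice (T.A s0 s1) (T.A s1 s2) with e | e <;> rw [e] <;> linarith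
  · rcases max_choice (T.A s2 s3) (T.A s3 (s0 + T.N)) with e | e <;> rw [e] <;> linarith

def B (s t : ℤ) : ℤ := T.A s t + T.A t (s + T.N)

theorem cut_fw (K : ℕ) {a b a' b' e : ℤ} (he : 0 ≤ e) (h1 : a - a' ≤ e)
    (h : T.w K a b - 3 * (K + 1) ≤ T.w K a' b') : b - b' ≤ 3 * (K + 1) + (K + 1) * e := by
  have k : (0 : ℤ) ≤ K + 1 := by positivity
  have k0 := mul_nonneg k he
  rcases le_total b b' with c | c
  · linarith
  have k1 := (T.cut_wR K a' c).1
  rcases le_total a a' with d | d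
  · have := (T.cut_wL K b d).1
    linarith
  · have := (T.cut_wL K b d).2
    have := mul_le_mul_of_nonneg_left h1 k
    linarith

theorem cut_bw (K : ℕ) {a b a' b' e : ℤ} (he : 0 ≤ e) (h1 : b' - b ≤ e)
    (h : T.w K a b - 3 * (K + 1) ≤ T.w K a' b') : a' - a ≤ 3 * (K + 1) + (K + 1) * e := by
  have k : (0 : ℤ) ≤ K + 1 := by positivity
  have k0 := mul_nonneg k he
  rcases le_total a' a with c | c
  · linarith
  have k1 := (T.cut_wL K b' c).1
  rcases le_total b' b with d | d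
  · have := (T.cut_wR K a d).1
    linarith
  · have := (T.cut_wR K a d).2
    have := mul_le_mul_of_nonneg_left h1 k
    linarith

theorem cut_B {s t s' t' e f : ℤ} (h1 : |s - s'| ≤ e) (h2 : |t - t'| ≤ f) :
    |T.B s t - T.B s' t'| ≤ e + f := by
  have k1 : |T.B s t - T.B s' t| ≤ e := by
    unfold B
    rw [abs_le] at h1 ⊢
    rcases le_total s s' with c | c
    · have := T.cut_AL t c
      have := T.cut_AR t (by omega : s + T.N ≤ s' + T.N)
      omega
    · have := T.cut_AL t c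
      have := T.cut_AR t (by omega : s' + T.N ≤ s + T.N)
      omega
  have k2 : |T.B s' t - T.B s' t'| ≤ f := by
    unfold B
    rw [abs_le] at h2 ⊢
    rcases le_total t t' with c | c
    · have := T.cut_AR s' c
      have := T.cut_AL (s' + T.N) c
      omega
    · have := T.cut_AR s' c
      have := T.cut_AL (s' + T.N) c
      omega
  rw [abs_le] at k1 k2 ⊢
  omega

/-- all four weights lie in `[m, m + 3 (K + 1)]` -/
def cut_Cl (K : ℕ) (m s0 s1 s2 s3 : ℤ) : Prop :=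
  ∀ x, x = T.w K s0 s1 ∨ x = T.w K s1 s2 ∨ x = T.w K s2 s3 ∨ x = T.w K s3 (s0 + T.N) →
    m ≤ x ∧ x ≤ m + 3 * (K + 1)

theorem cut_cl {K : ℕ} {s0 s1 s2 s3 : ℤ} (h : T.Bal K s0 s1 s2 s3) :
    ∃ m, T.cut_Cl K m s0 s1 s2 s3 := by
  obtain ⟨-, -, -, -, k1, k2, k3⟩ := h
  rw [abs_le] at k1 k2 k3
  exact ⟨min (min (T.w K s0 s1) (T.w K s1 s2)) (min (T.w K s2 s3) (T.w K s3 (s0 + T.N))),
    fun x hx => by omega⟩

theorem cut_near {K : ℕ} {m s0 s1 s2 s3 m' t0 t1 t2 t3 : ℤ} (h : T.cut_Cl K m s0 s1 s2 s3)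
    (h' : T.cut_Cl K m' t0 t1 t2 t3) (hm : m ≤ m') (h0 : |s0 - t0| ≤ 1) :
    |T.B s1 s3 - T.B s0 s2 - (T.B t1 t3 - T.B t0 t2)| ≤ 40 * ((K : ℤ) + 1) ^ 3 := by
  have a0 := (h _ (.inl rfl)).2
  have a1 := (h _ (.inr (.inl rfl))).2
  have a2 := (h _ (.inr (.inr (.inl rfl)))).2
  have a3 := (h _ (.inr (.inr (.inr rfl)))).2
  have b0 := (h' _ (.inl rfl)).1
  have b1 := (h' _ (.inr (.inl rfl))).1
  have b2 := (h' _ (.inr (.inr (.inl rfl)))).1
  have b3 := (h' _ (.inr (.inr (.inr rfl)))).1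
  have h1 := abs_le.1 h0
  have f1 := T.cut_fw K (b := s1) (b' := t1) zero_le_one h1.2 (by linarith)
  have f2 := T.cut_fw K (b := s2) (b' := t2) (by positivity) f1 (by linarith)
  have f3 := T.cut_fw K (b := s3) (b' := t3) (by positivity) f2 (by linarith)
  have g3 := T.cut_bw K (a := s3) (a' := t3) (b := s0 + T.N) (b' := t0 + T.N) zero_le_one
    (by linarith) (by linarith)
  have g2 := T.cut_bw K (a := s2) (a' := t2) (by positivity) g3 (by linarith)
  have g1 := T.cut_bw K (a := s1) (a' := t1) (by positivity) g2 (by linarith)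
  have l1 : (1 : ℤ) ≤ K + 1 := by omega
  generalize (K : ℤ) + 1 = L at *
  have l2 : L ≤ L ^ 2 := by nlinarith
  have l3 : L ^ 2 ≤ L ^ 3 := by nlinarith
  have c1 := T.cut_B (s := s1) (s' := t1) (t := s3) (t' := t3) (e := 10 * L ^ 3)
    (f := 10 * L ^ 3) (abs_le.2 ⟨by linarith, by linarith⟩) (abs_le.2 ⟨by linarith, by linarith⟩)
  have c2 := T.cut_B (s := s0) (s' := t0) (t := s2) (t' := t2) (e := 10 * L ^ 3)
    (f := 10 * L ^ 3) (abs_le.2 ⟨by linarith, by linarith⟩) (abs_le.2 ⟨by linarith, by linarith⟩)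
  rw [abs_le] at c1 c2 ⊢
  constructor <;> linarith

theorem cut_near' {K : ℕ} {m s0 s1 s2 s3 m' t0 t1 t2 t3 : ℤ} (h : T.cut_Cl K m s0 s1 s2 s3)
    (h' : T.cut_Cl K m' t0 t1 t2 t3) (h0 : |s0 - t0| ≤ 1) :
    |T.B s1 s3 - T.B s0 s2 - (T.B t1 t3 - T.B t0 t2)| ≤ 40 * ((K : ℤ) + 1) ^ 3 := by
  rcases le_total m m' with c | c
  · exact T.cut_near h h' c h0
  · rw [abs_sub_comm]
    exact T.cut_near h' h c (by rwa [abs_sub_comm])

theorem cut_ivt (f : ℤ → ℤ) {D n : ℤ} (hn : 0 ≤ n) (st : ∀ s, |f (s + 1) - f s| ≤ D)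
    (h : |f n + f 0| ≤ D) : ∃ s, 0 ≤ s ∧ s ≤ n ∧ |f s| ≤ D := by
  by_contra hc
  have k : ∀ s, 0 ≤ s → s ≤ n → f s < -D ∨ D < f s := fun s a b => by
    by_contra e
    exact hc ⟨s, a, b, abs_le.2 (by omega)⟩
  have hD : 0 ≤ D := (abs_nonneg _).trans h
  have k2 : ∀ s, 0 ≤ s → s ≤ n → (f 0 < -D → f s < -D) ∧ (D < f 0 → D < f s) := fun s a => by
    induction s, a using Int.leInduction with
    | base => exact fun _ => ⟨id, id⟩
    | succ s hs ih =>
      intro b
      have := ih (by omega)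
      have := k (s + 1) (by omega) b
      have := abs_le.1 (st s)
      omega
  have := k2 n hn le_rfl
  have := k 0 le_rfl hn
  have := abs_le.1 h
  omega

/-- Paper section 4 (A). `F = B s1 s3 - B s0 s2`; `B` is 1-Lipschitz in each variable and
`B s2 (s0+N) = B s0 s2` (`A_per`). Call a quadruple close if it is ordered and all four weights
are within `3L` of each other (`L = K+1`); this is kept by `(s0,s1,s2,s3) ↦ (s1,s2,s3,s0+N)`.
Two close quadruples with `|s0 - s0'| ≤ 1` have `|s i - s' i| ≤ 10 L^3`: for all integers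
`w a' b' ≤ w a b + L (a-a')⁺ + L (b'-b)⁺ - (a'-a)⁺ - (b-b')⁺`; if `min w' ≥ min w` then
`w' i ≥ w i - 3L`, so `(s (i+1) - s' (i+1))⁺ ≤ 3L + L (s i - s' i)⁺` and
`(s' i - s i)⁺ ≤ 3L + L (s' (i+1) - s (i+1))⁺` with `s 4 = s0 + N`. Choose a `Bal` quadruple
`C s` for each `s`; `F (C s)` moves by at most `40 L^3`, and `F (C s1)` is within `40 L^3` of
`- F (C 0)` where `s1` is the second cut of `C 0`; discrete intermediate value on `[0, s1]`. -/
theorem exists_rot (K : ℕ) : ∃ s0 s1 s2 s3, 0 ≤ s0 ∧ s0 ≤ T.N ∧ T.Bal K s0 s1 s2 s3 ∧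
    |T.B s1 s3 - T.B s0 s2| ≤ 40 * ((K : ℤ) + 1) ^ 3 := by
  choose c1 c2 c3 hc using T.exists_bal K
  choose m hm using fun s => T.cut_cl (hc s)
  obtain ⟨h1, h2, h3, h4, -⟩ := hc 0
  have r : T.cut_Cl K (m 0) (c1 0) (c2 0) (c3 0) (0 + T.N) := fun x hx => hm 0 x (by
    have e : T.w K (0 + T.N) (c1 0 + T.N) = T.w K 0 (c1 0) := by
      unfold w; rw [T.A_per]; ring
    rw [e] at hx
    tauto)
  have e : T.B (c2 0) (0 + T.N) = T.B 0 (c2 0) := by
    unfold B; rw [T.A_per]; ring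
  have k := T.cut_near' (hm (c1 0)) r (by simp)
  obtain ⟨s, a, b, c⟩ := cut_ivt (fun s => T.B (c1 s) (c3 s) - T.B s (c2 s)) h1
    (fun s => T.cut_near' (hm (s + 1)) (hm s) (by simp)) (by
      rw [e] at k
      rw [abs_le] at k ⊢
      constructor <;> linarith [k.1, k.2])
  exact ⟨s, _, _, _, a, by omega, hc s, c⟩

/-- `c i = s (i % 4) + N * (i / 4)` -/
theorem exists_cut {s0 s1 s2 s3 : ℤ} (h1 : s0 ≤ s1) (h2 : s1 ≤ s2) (h3 : s2 ≤ s3)
    (h4 : s3 ≤ s0 + T.N) : ∃ c : ℤ → ℤ, Monotone c ∧ (∀ i, c (i + 4) = c i + T.N) ∧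
      c 0 = s0 ∧ c 1 = s1 ∧ c 2 = s2 ∧ c 3 = s3 ∧ ∀ i, 0 < c i → c i < T.N → s0 = 0 →
        c i = s1 ∨ c i = s2 ∨ c i = s3 := by
  have hN := T.N_pos
  refine ⟨fun i => (if i % 4 = 0 then s0 else if i % 4 = 1 then s1 else if i % 4 = 2 then s2
    else s3) + T.N * (i / 4), monotone_int_of_le_succ fun i => ?_, fun i => ?_, by simp, by simp,
    by simp, by simp, fun i a b c => ?_⟩
  · by_cases h : i % 4 = 3
    · rw [show (i + 1) / 4 = i / 4 + 1 by omega, mul_add, mul_one]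
      split_ifs <;> omega
    · rw [show (i + 1) / 4 = i / 4 by omega]
      split_ifs <;> omega
  · dsimp only
    rw [show (i + 4) / 4 = i / 4 + 1 by omega, show (i + 4) % 4 = i % 4 by omega]
    ring
  · dsimp only at a b ⊢
    rcases lt_trichotomy (i / 4) 0 with q | q | q
    · have := mul_le_mul_of_nonneg_left (show i / 4 ≤ -1 by omega) hN.le
      split_ifs at a <;> omega
    · rw [q, mul_zero, add_zero] at a b ⊢
      split_ifs at a b ⊢ <;> omega
    · have := mul_le_mul_of_nonneg_left (show 1 ≤ i / 4 by omega) hN.le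
      split_ifs at b <;> omega

/-- `c` arises from `s` by passing only up steps backwards or only down steps forwards -/
def Slide (s c : ℤ) : Prop :=
  (c ≤ s ∧ ∀ j, c ≤ j → j < s → T.N ≤ T.mu j) ∨ (s ≤ c ∧ ∀ j, s ≤ j → j < c → T.mu j < T.N)

/-- at a time `r ∈ (0,N)` that is not outer, `mu r < mu (r-1)` (`succ_lt`): a down step is
followed by a down step, an up step is preceded by an up step. -/
theorem exists_slide (O : ℤ → Prop) (h0 : O 0) (hN : O T.N)
    (tip : ∀ r, 0 < r → r < T.N → T.mu (r - 1) = r → O r) {s : ℤ} (h1 : 0 ≤ s) (h2 : s ≤ T.N) :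
    ∃ c, 0 ≤ c ∧ c ≤ T.N ∧ O c ∧ T.Slide s c := by
  have lt : ∀ r, 0 ≤ r → r ≤ T.N → ¬ O r → T.mu r < T.mu (r - 1) := fun r a b c => by
    have a' : r ≠ 0 := by rintro rfl; exact c h0
    have b' : r ≠ T.N := by rintro rfl; exact c hN
    exact T.succ_lt fun e => c (tip r (by omega) (by omega) e)
  have fw : ∀ n : ℕ, ∀ s, s + n = T.N → 0 ≤ s → (¬ O s → T.mu s < T.N) →
      ∃ c, s ≤ c ∧ c ≤ T.N ∧ O c ∧ ∀ j, s ≤ j → j < c → T.mu j < T.N := fun n => by
    induction n with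
    | zero => exact fun s a _ _ => ⟨T.N, by omega, le_rfl, hN, fun j _ _ => by omega⟩
    | succ n ih =>
      intro s a b c
      by_cases o : O s
      · exact ⟨s, le_rfl, by omega, o, fun j _ _ => by omega⟩
      have c' := c o
      obtain ⟨d, d1, d2, d3, d4⟩ := ih (s + 1) (by omega) (by omega) fun o' => by
        have := lt (s + 1) (by omega) (by omega) o'
        rw [add_sub_cancel_right] at this
        omega
      refine ⟨d, by omega, d2, d3, fun j j1 j2 => ?_⟩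
      rcases j1.eq_or_lt with rfl | j1
      · exact c'
      · exact d4 j j1 j2
  have bw : ∀ n : ℕ, ∀ s, s = (n : ℤ) → s ≤ T.N → (¬ O s → T.N ≤ T.mu (s - 1)) →
      ∃ c, 0 ≤ c ∧ c ≤ s ∧ O c ∧ ∀ j, c ≤ j → j < s → T.N ≤ T.mu j := fun n => by
    induction n with
    | zero => exact fun s a _ _ => ⟨0, le_rfl, by omega, h0, fun j _ _ => by omega⟩
    | succ n ih =>
      intro s a b c
      by_cases o : O s
      · exact ⟨s, by omega, le_rfl, o, fun j _ _ => by omega⟩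
      have c' := c o
      obtain ⟨d, d1, d2, d3, d4⟩ := ih (s - 1) (by omega) (by omega) fun o' => by
        have := lt (s - 1) (by omega) (by omega) o'
        omega
      refine ⟨d, d1, by omega, d3, fun j j1 j2 => ?_⟩
      by_cases e : j = s - 1
      · exact e ▸ c'
      · exact d4 j j1 (by omega)
  by_cases u : T.mu s < T.N
  · obtain ⟨c, a, b, d, e⟩ := fw (T.N - s).toNat s (by omega) h1 fun _ => u
    exact ⟨c, by omega, b, d, .inr ⟨a, e⟩⟩
  · obtain ⟨c, a, b, d, e⟩ := bw s.toNat s (by omega) h2 fun o => by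
      have := lt s h1 h2 o
      omega
    exact ⟨c, a, by omega, d, .inl ⟨b, e⟩⟩

theorem Slide.max {s c s' c' : ℤ} (h : T.Slide s c) (h' : T.Slide s' c') (hs : s ≤ s') :
    T.Slide s' (max c c') := by
  rcases le_total c c' with e | e
  · rwa [max_eq_right e]
  rw [max_eq_left e]
  by_cases k : c ≤ s'
  · rcases h' with ⟨_, b⟩ | ⟨_, _⟩
    · exact .inl ⟨k, fun j j1 j2 => b j (by omega) j2⟩
    · exact .inl ⟨k, fun j j1 j2 => by omega⟩
  · rcases h with ⟨_, _⟩ | ⟨_, b⟩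
    · omega
    · exact .inr ⟨by omega, fun j j1 j2 => b j (by omega) j2⟩

theorem cut_mu (i q : ℤ) : T.mu (i + q * T.N) = T.mu i + q * T.N := by
  induction q using Int.induction_on with
  | zero => simp
  | succ n ih => rw [add_mul, one_mul, ← add_assoc, T.mu_add, ih, add_assoc]
  | pred n ih => rw [sub_mul, one_mul, ← add_sub_assoc, T.mu_sub, ih, add_sub_assoc]

theorem cut_q {N q : ℤ} (h : 0 < N) (h1 : q * N < N) (h2 : -N < q * N) : q = 0 := by
  have a : q < 1 := by by_contra c; nlinarith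
  have b : -1 < q := by by_contra c; nlinarith
  omega

/-- `b j` iff `j = i + q N` or `j = mu i + q N` for some `i ∈ X` and integer `q`. -/
theorem exists_beta (s0 : ℤ) (X : Finset ℤ) (hX : ∀ i ∈ X, s0 ≤ i ∧ T.mu i < s0 + T.N) :
    ∃ b : ℤ → Prop, (∀ j, b (T.mu j) ↔ b j) ∧
      ∀ j, s0 ≤ j → T.mu j < s0 + T.N → (b j ↔ j ∈ X) := by
  have hN := T.N_pos
  refine ⟨fun j => ∃ i ∈ X, ∃ q, j = i + q * T.N ∨ j = T.mu i + q * T.N, fun j => ⟨?_, ?_⟩,
    fun j a b => ⟨?_, fun h => ⟨j, h, 0, .inl (by simp)⟩⟩⟩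
  · rintro ⟨i, hi, q, e | e⟩
    · refine ⟨i, hi, q - 1, .inr ?_⟩
      have := T.mm j
      rw [e, T.cut_mu] at this
      linarith
    · exact ⟨i, hi, q, .inl (T.mu_inj (e.trans (T.cut_mu i q).symm))⟩
  · rintro ⟨i, hi, q, rfl | rfl⟩
    · exact ⟨i, hi, q, .inr (T.cut_mu i q)⟩
    · exact ⟨i, hi, q + 1, .inl (by rw [T.cut_mu, T.mm]; ring)⟩
  · rintro ⟨i, hi, q, e | e⟩ <;> obtain ⟨c, d⟩ := hX i hi <;> have k1 := T.lt i <;>
      have k2 := T.lt j <;> obtain rfl : q = 0 := cut_q hN (by linarith) (by linarith) <;>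
      rw [zero_mul, add_zero] at e
    · exact e ▸ hi
    · have := T.mm i
      rw [← e] at this
      omega

end Mt
end
end Pool.Agent.Work.MP_37ce0f_lc.Q
end

-- merged part: Pool.Agent.Work.MP_37ce0f_lc.Q.Box
section
namespace Pool.Agent.Work.MP_37ce0f_lc.Q
open Pool.Agent.Work.MP_37ce0f_lc.W Finset Classical
noncomputable section
namespace Mt
variable (T : Mt)

/-- down steps of the window that starts at `s` -/
def box_G (s : ℤ) : Finset ℤ := (Ico s (s + T.N)).filter (fun j => T.mu j < s + T.N)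

/-- the edge of the step `j` crosses one of the cuts -/
def box_Sk (s1 s2 s3 j : ℤ) : Prop :=
  (j < s1 ∧ ¬ T.mu j < s1) ∨ (j < s2 ∧ ¬ T.mu j < s2) ∨ (j < s3 ∧ ¬ T.mu j < s3)

theorem box_mem_G {s j : ℤ} : j ∈ T.box_G s ↔ s ≤ j ∧ T.mu j < s + T.N := by
  have := T.lt j
  simp only [box_G, mem_filter, mem_Ico]
  omega

theorem box_mem_E {a b t j : ℤ} : j ∈ T.E a b t ↔ a ≤ j ∧ j < t ∧ t ≤ T.mu j ∧ T.mu j < b := by
  simp only [E, mem_filter, mem_Ico, and_assoc]

theorem box_card (S : Finset ℤ) (p : ℤ → Prop) [DecidablePred p] :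
    ((S.filter p).card : ℤ) = ∑ j ∈ S, if p j then 1 else 0 := by
  rw [card_filter]
  push_cast
  rfl

theorem box_A {s0 s t : ℤ} (h1 : s0 ≤ s) (h2 : t ≤ s0 + T.N) :
    (T.A s t : ℤ) = ∑ j ∈ T.box_G s0, if ¬ j < s ∧ T.mu j < t then 1 else 0 := by
  rw [← box_card, A]
  congr 2
  ext j
  have := T.lt j
  simp only [mem_filter, box_mem_G, mem_Ico]
  omega

theorem box_total {s0 s1 s2 s3 : ℤ} (h1 : s0 ≤ s1) (h2 : s1 ≤ s2) (h3 : s2 ≤ s3)
    (h4 : s3 ≤ s0 + T.N) :
    2 * ((((T.box_G s0).filter (T.box_Sk s1 s2 s3)).card : ℤ) +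
      (T.A s0 s1 + T.A s1 s2 + T.A s2 s3 + T.A s3 (s0 + T.N))) ≤ T.N := by
  have e := T.two_A s0
  rw [box_card, T.box_A (s0 := s0) (s := s0) (t := s1) le_rfl (by omega),
    T.box_A (s0 := s0) (s := s1) (t := s2) h1 (by omega),
    T.box_A (s0 := s0) (s := s2) (t := s3) (by omega) h4,
    T.box_A (s0 := s0) (s := s3) (by omega) le_rfl]
  rw [T.box_A (s0 := s0) le_rfl le_rfl] at e
  rw [← sum_add_distrib, ← sum_add_distrib, ← sum_add_distrib, ← sum_add_distrib]
  refine le_trans (mul_le_mul_of_nonneg_left (sum_le_sum fun j hj => ?_) (by norm_num)) e.le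
  have a1 := T.box_mem_G.1 hj
  have a2 := T.lt j
  unfold box_Sk
  split_ifs <;> omega

theorem box_wrap {s0 s1 s3 : ℤ} (h1 : s0 ≤ s1) (h3 : s1 ≤ s3) (h4 : s3 ≤ s0 + T.N) :
    T.A s3 (s1 + T.N) = T.A s3 (s0 + T.N) + T.A s0 s1 +
      ((T.box_G s0).filter fun j => j < s1 ∧ ¬ T.mu j < s3).card := by
  have e1 := card_filter_add_card_filter_not
    (s := (Ico s3 (s1 + T.N)).filter (fun j => T.mu j < s1 + T.N)) (fun j => T.mu j < s0 + T.N)
  have e2 := card_filter_add_card_filter_not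
    (s := ((Ico s3 (s1 + T.N)).filter (fun j => T.mu j < s1 + T.N)).filter
      (fun j => ¬ T.mu j < s0 + T.N)) (fun j => s0 + T.N ≤ j)
  have e3 : ((Ico s3 (s1 + T.N)).filter (fun j => T.mu j < s1 + T.N)).filter
      (fun j => T.mu j < s0 + T.N) = (Ico s3 (s0 + T.N)).filter (fun j => T.mu j < s0 + T.N) := by
    ext j
    have := T.lt j
    simp only [mem_filter, mem_Ico]
    omega
  have e4 : (((Ico s3 (s1 + T.N)).filter (fun j => T.mu j < s1 + T.N)).filter
      (fun j => ¬ T.mu j < s0 + T.N)).filter (fun j => s0 + T.N ≤ j) =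
      (Ico (s0 + T.N) (s1 + T.N)).filter (fun j => T.mu j < s1 + T.N) := by
    ext j
    have := T.lt j
    simp only [mem_filter, mem_Ico]
    omega
  have e5 : ((((Ico s3 (s1 + T.N)).filter (fun j => T.mu j < s1 + T.N)).filter
      (fun j => ¬ T.mu j < s0 + T.N)).filter (fun j => ¬ s0 + T.N ≤ j)).card =
      ((T.box_G s0).filter fun j => j < s1 ∧ ¬ T.mu j < s3).card := by
    apply card_nbij' (fun j => T.mu j - T.N) (fun j => T.mu j)
    · intro j hj
      simp only [coe_filter, mem_filter, mem_Ico, Set.mem_ofPred_eq, box_mem_G] at hj ⊢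
      rw [T.mu_back]
      omega
    · intro j hj
      simp only [coe_filter, mem_filter, mem_Ico, Set.mem_ofPred_eq, box_mem_G] at hj ⊢
      rw [T.mm]
      omega
    · intro j _
      exact T.mu_back j
    · intro j _
      simp [T.mm]
  have e6 := T.A_per s0 s1
  rw [e3] at e1
  rw [e4, e5] at e2
  unfold A at e6 ⊢
  omega

theorem box_le (S R : Finset ℤ) (p : ℤ → Prop) [DecidablePred p] :
    (S.filter p).card ≤ (S \ R).card + (R.filter p).card := by
  refine le_trans (card_le_card fun j hj => ?_) (card_union_le _ _)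
  simp only [mem_filter, mem_union, mem_sdiff] at hj ⊢
  tauto

theorem box_gap {c : ℤ → ℤ} {k : ℤ} (h0 : 0 ≤ k) (h3 : k ≤ 3) :
    (c k = c 0 ∧ c (k + 1) = c 1) ∨ (c k = c 1 ∧ c (k + 1) = c 2) ∨
      (c k = c 2 ∧ c (k + 1) = c 3) ∨ (c k = c 3 ∧ c (k + 1) = c 4) := by
  obtain rfl | rfl | rfl | rfl : k = 0 ∨ k = 1 ∨ k = 2 ∨ k = 3 := by omega
  · exact Or.inl ⟨rfl, rfl⟩
  · exact Or.inr (Or.inl ⟨rfl, rfl⟩)
  · exact Or.inr (Or.inr (Or.inl ⟨rfl, rfl⟩))
  · exact Or.inr (Or.inr (Or.inr ⟨rfl, rfl⟩))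

theorem box_find (c : ℤ → ℤ) {t : ℤ} (h0 : c 0 ≤ t) (h4 : t < c 4) :
    ∃ k, 0 ≤ k ∧ k ≤ 3 ∧ c k ≤ t ∧ t < c (k + 1) := by
  by_cases a1 : t < c 1
  · exact ⟨0, by norm_num, by norm_num, h0, a1⟩
  by_cases a2 : t < c 2
  · exact ⟨1, by norm_num, by norm_num, not_lt.1 a1, a2⟩
  by_cases a3 : t < c 3
  · exact ⟨2, by norm_num, by norm_num, not_lt.1 a2, a3⟩
  · exact ⟨3, by norm_num, by norm_num, not_lt.1 a3, h4⟩

theorem box_main (d : ℤ → ℤ × ℤ) (c : ℤ → ℤ) (hm : Monotone c) (h4 : c 4 = c 0 + T.N)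
    (b : ℤ → Prop)
    (hd : ∀ j, c 0 ≤ j → T.mu j < c 4 → (T.Hor c b j → d j = (-1, 0)) ∧
      (¬ T.Hor c b j → j < c 1 → c 1 ≤ T.mu j → d j = (0, 1)) ∧
      (¬ T.Hor c b j → j < c 3 → c 3 ≤ T.mu j → d j = (0, -1)))
    (R : Finset ℤ) (M : ℕ)
    (hE : ∀ k t, 0 ≤ k → k ≤ 3 → c k ≤ t → t < c (k + 1) → ∃ F : ℕ,
      |(∑ i ∈ T.E (c k) (c (k + 1)) t, d i).1| ≤ F + 1 ∧
      |(∑ i ∈ T.E (c k) (c (k + 1)) t, d i).2| ≤ F + 1 ∧
      ((T.U (c 0) t \ T.E (c k) (c (k + 1)) t) \ R).card + F ≤ M)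
    {t : ℤ} (h0 : c 0 ≤ t) (h1 : t ≤ c 0 + T.N) :
    -(((R.filter (T.Hor c b)).card : ℤ) + M + 1) ≤ (∑ j ∈ T.U (c 0) t, d j).1 ∧
    (∑ j ∈ T.U (c 0) t, d j).1 ≤ M + 1 ∧
    -(((R.filter fun j => ¬ T.Hor c b j ∧ ¬ j < c 1).card : ℤ) + M + 1) ≤
      (∑ j ∈ T.U (c 0) t, d j).2 ∧
    (∑ j ∈ T.U (c 0) t, d j).2 ≤ (R.filter fun j => ¬ T.Hor c b j ∧ j < c 1).card + M + 1 := by
  rcases h1.eq_or_lt with h1 | h1
  · have : T.U (c 0) t = ∅ := eq_empty_of_forall_notMem fun j hj => by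
      have := T.mem_U.1 hj
      omega
    rw [this, sum_empty, Prod.fst_zero, Prod.snd_zero]
    omega
  obtain ⟨k, k0, k3, k1, k2⟩ := box_find c h0 (by omega)
  obtain ⟨F, f1, f2, f3⟩ := hE k t k0 k3 k1 k2
  have hk := box_gap (c := c) k0 k3
  have m1 : c 0 ≤ c 1 := hm (by norm_num)
  have m2 : c 1 ≤ c 2 := hm (by norm_num)
  have m3 : c 2 ≤ c 3 := hm (by norm_num)
  have m4 : c 3 ≤ c 4 := hm (by norm_num)
  have hsub : T.E (c k) (c (k + 1)) t ⊆ T.U (c 0) t := fun j hj => by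
    have := T.box_mem_E.1 hj
    rw [mem_U]
    omega
  rw [← sum_sdiff hsub, Prod.fst_add, Prod.snd_add]
  have key : ∀ j ∈ T.U (c 0) t \ T.E (c k) (c (k + 1)) t,
      (d j).1 = -(if T.Hor c b j then 1 else 0) ∧
      (d j).2 = (if ¬ T.Hor c b j ∧ j < c 1 then 1 else 0) -
        (if ¬ T.Hor c b j ∧ ¬ j < c 1 then 1 else 0) := by
    intro j hj
    rw [mem_sdiff, mem_U, box_mem_E] at hj
    obtain ⟨d1, d2, d3⟩ := hd j (by omega) (by omega)
    by_cases hh : T.Hor c b j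
    · simp [d1 hh, hh]
    · have hh' : ¬ (j < c 2 ∧ c 2 ≤ T.mu j ∧ (j < c 1 ↔ c 3 ≤ T.mu j)) :=
        fun q => hh ⟨q.1, q.2.1, Or.inr q.2.2⟩
      by_cases h1 : j < c 1
      · simp [d2 hh h1 (by omega), hh, h1]
      · simp [d3 hh (by omega) (by omega), hh, h1]
  have g1 : (∑ j ∈ T.U (c 0) t \ T.E (c k) (c (k + 1)) t, d j).1 =
      -(((T.U (c 0) t \ T.E (c k) (c (k + 1)) t).filter (T.Hor c b)).card : ℤ) := by
    rw [Prod.fst_sum, box_card, ← sum_neg_distrib]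
    exact sum_congr rfl fun j hj => (key j hj).1
  have g2 : (∑ j ∈ T.U (c 0) t \ T.E (c k) (c (k + 1)) t, d j).2 =
      (((T.U (c 0) t \ T.E (c k) (c (k + 1)) t).filter
        fun j => ¬ T.Hor c b j ∧ j < c 1).card : ℤ) -
      (((T.U (c 0) t \ T.E (c k) (c (k + 1)) t).filter
        fun j => ¬ T.Hor c b j ∧ ¬ j < c 1).card : ℤ) := by
    rw [Prod.snd_sum, box_card, box_card, ← sum_sub_distrib]
    exact sum_congr rfl fun j hj => (key j hj).2
  have l1 := box_le (T.U (c 0) t \ T.E (c k) (c (k + 1)) t) R (T.Hor c b)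
  have l2 := box_le (T.U (c 0) t \ T.E (c k) (c (k + 1)) t) R fun j => ¬ T.Hor c b j ∧ j < c 1
  have l3 := box_le (T.U (c 0) t \ T.E (c k) (c (k + 1)) t) R fun j => ¬ T.Hor c b j ∧ ¬ j < c 1
  rw [abs_le] at f1 f2
  rw [g1, g2]
  omega

theorem box_split (R : Finset ℤ) (p q : ℤ → Prop) [DecidablePred p] [DecidablePred q] :
    (R.filter p).card + (R.filter fun j => ¬ p j ∧ ¬ q j).card +
      (R.filter fun j => ¬ p j ∧ q j).card = R.card := by
  have e1 := card_filter_add_card_filter_not (s := R) p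
  have e2 := card_filter_add_card_filter_not (s := R.filter fun j => ¬ p j) q
  rw [filter_filter, filter_filter] at e2
  omega

theorem box_slide {s c s' c' j : ℤ} (h : T.Slide s c) (h' : T.Slide s' c') (h0 : 0 ≤ c)
    (hN : c' ≤ T.N) (h1 : c ≤ j) (h2 : T.mu j < c') : s ≤ j ∧ T.mu j < s' := by
  constructor
  · by_contra hn
    rcases h with ⟨-, h⟩ | ⟨h, -⟩
    · have := h j h1 (by omega)
      omega
    · omega
  · by_contra hn
    rcases h' with ⟨h', -⟩ | ⟨-, h'⟩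
    · omega
    · have := h' (T.mu j) (by omega) h2
      rw [T.mm] at this
      omega

/-- Paper sections 3 (BOX) and 4 (B). `exists_bal` with `K = N + 6`, `s0 = 0`, `Bal.mass`
(`4M - ΣA ≤ 7`); slide the cuts (`exists_slide`, `Slide.max`), `exists_cut`, `exists_cert` with
`b = True`. `P t` is the sum over `U 0 t` (`P_open`); for `c k ≤ t < c (k+1)` split it into
`E (c k) (c (k+1)) t` and skeleton steps (`j < c i ≤ mu j` for some `i ∈ {1,2,3}`). A pair
`j, mu j` in `[c k, c (k+1))` lies in `[s k, s (k+1))`. Open steps at `t` that are skeleton for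
`c` but lie in one gap of `s` lie in the `s`-gap of `t`; their number, plus `A (c k) (c (k+1))`
if `E` is nonempty, is at most `M`. With `N1, N2, N3` the numbers of down steps that are skeleton
for `s` and have vector `(0,1), (-1,0), (0,-1)`: `W = N2 + 2M + 2`, `H = N1 + N3 + 2M + 2`,
`N1 + N2 + N3 + ΣA ≤ A 0 N`, `two_A`. -/
theorem coreB (O : ℤ → Prop) (h0 : O 0) (hN : O T.N)
    (tip : ∀ r, 0 < r → r < T.N → T.mu (r - 1) = r → O r) :
    ∃ C : Cert T, C.Cvx O ∧ ∃ W H : ℕ, 2 * ((W : ℤ) + H) ≤ T.N + 22 ∧ C.Box W H := by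
  have hNp := T.N_pos
  obtain ⟨K, hK⟩ : ∃ K : ℕ, (K : ℤ) = T.N + 6 := ⟨(T.N + 6).toNat, by omega⟩
  obtain ⟨s1, s2, s3, hB⟩ := T.exists_bal K 0
  obtain ⟨M, M0, M1, M2, M3, hM⟩ := hB.mass
  obtain ⟨o1, o2, o3, o4, -⟩ := hB
  have hM' : 4 * (M : ℤ) - (T.A 0 s1 + T.A s1 s2 + T.A s2 s3 + T.A s3 (0 + T.N)) ≤ 7 := by
    by_contra hn
    have : (K : ℤ) * 8 ≤ K * (4 * (M : ℤ) -
        (T.A 0 s1 + T.A s1 s2 + T.A s2 s3 + T.A s3 (0 + T.N))) :=
      mul_le_mul_of_nonneg_left (by omega) (by omega)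
    omega
  have htot := T.box_total o1 o2 o3 o4
  obtain ⟨c1, a1, b1, O1, S1⟩ := T.exists_slide O h0 hN tip (s := s1) o1 (by omega)
  obtain ⟨c2', a2, b2, O2, S2⟩ := T.exists_slide O h0 hN tip (s := s2) (by omega) (by omega)
  obtain ⟨c3', a3, b3, O3, S3⟩ := T.exists_slide O h0 hN tip (s := s3) (by omega) (by omega)
  have S2' := S1.max T S2 o2
  have S3' := S2'.max T S3 o3
  have O2' : O (max c1 c2') := by rcases max_choice c1 c2' with e | e <;> rwa [e]
  have O3' : O (max (max c1 c2') c3') := by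
    rcases max_choice (max c1 c2') c3' with e | e <;> rwa [e]
  obtain ⟨c, hm, hp, e0, e1, e2, e3, e4⟩ := T.exists_cut (s0 := 0) (s1 := c1) (s2 := max c1 c2')
    (s3 := max (max c1 c2') c3') a1 (le_max_left _ _) (le_max_left _ _) (by omega)
  obtain ⟨s, sm, sp, z0, z1, z2, z3, -⟩ := T.exists_cut o1 o2 o3 o4
  have c4 : c 4 = c 0 + T.N := hp 0
  have s4 : s 4 = s 0 + T.N := sp 0
  have hS : ∀ k, 0 ≤ k → k ≤ 4 → T.Slide (s k) (c k) := by
    intro k k0 k4
    obtain rfl | rfl | rfl | rfl | rfl : k = 0 ∨ k = 1 ∨ k = 2 ∨ k = 3 ∨ k = 4 := by omega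
    · exact Or.inl ⟨by omega, fun j _ _ => by omega⟩
    · rwa [z1, e1]
    · rwa [z2, e2]
    · rwa [z3, e3]
    · exact Or.inl ⟨by omega, fun j _ _ => by omega⟩
  have hA : ∀ k, 0 ≤ k → k ≤ 3 → T.A (s k) (s (k + 1)) ≤ M := by
    intro k k0 k3
    rcases box_gap (c := s) k0 k3 with e | e | e | e <;> rw [e.1, e.2]
    · rwa [z0, z1]
    · rwa [z1, z2]
    · rwa [z2, z3]
    · rwa [z3, s4, z0]
  obtain ⟨C, C1, C2, C3⟩ := T.exists_cert c hm hp (fun _ => True) fun _ => Iff.rfl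
  refine ⟨C, fun t t0 tN tO => ?_, ?_⟩
  · have := C1 (fun _ => trivial) t (fun i hi => ?_) fun h => tO (tip t t0 tN h)
    · exact ⟨this.1, this.2 e0 t0 tN⟩
    · rcases e4 i (by omega) (by omega) rfl with e | e | e <;> rw [hi] at e <;> rw [e] at tO
      · exact tO O1
      · exact tO O2'
      · exact tO O3'
  have main := fun t => T.box_main C.d c hm c4 (fun _ => True) C2
    ((T.box_G 0).filter (T.box_Sk s1 s2 s3)) M (t := t) (by
    intro k t k0 k3 k1 k2
    have ck0 : c 0 ≤ c k := hm k0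
    have ck4 : c (k + 1) ≤ c 4 := hm (by omega)
    obtain ⟨l, l0, l3, l1, l2⟩ := box_find s (t := t) (by omega) (by omega)
    have hl := box_gap (c := s) l0 l3
    have hin : (T.U (c 0) t \ T.E (c k) (c (k + 1)) t) \
        (T.box_G 0).filter (T.box_Sk s1 s2 s3) ⊆
        (Ico (s l) (s (l + 1))).filter fun j => T.mu j < s (l + 1) := by
      intro j hj
      simp only [mem_sdiff, mem_U, box_mem_E, mem_filter, box_mem_G, box_Sk, mem_Ico] at hj ⊢
      omega
    rcases (T.E (c k) (c (k + 1)) t).eq_empty_or_nonempty with he | ⟨i, hi⟩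
    · refine ⟨0, by simp [he], by simp [he], ?_⟩
      exact (card_le_card hin).trans (hA l l0 l3)
    · refine ⟨_, (C3 k t k1 k2).1, (C3 k t k1 k2).2, ?_⟩
      have hs := fun j => T.box_slide (j := j) (hS k k0 (by omega)) (hS (k + 1) (by omega)
        (by omega)) (by omega) (by omega)
      have hi' := T.box_mem_E.1 hi
      have q := hs i hi'.1 hi'.2.2.2
      have hlk : l = k := by
        by_contra hn
        rcases lt_or_gt_of_ne hn with h | h
        · have : s (l + 1) ≤ s k := sm (by omega)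
          omega
        · have : s (k + 1) ≤ s l := sm (by omega)
          omega
      subst hlk
      refine le_trans ?_ (hA l l0 l3)
      unfold A
      rw [← card_union_of_disjoint]
      · refine card_le_card (union_subset hin fun j hj => ?_)
        simp only [mem_filter, mem_Ico] at hj ⊢
        have := hs j hj.1.1 hj.2
        have := T.lt j
        omega
      · rw [disjoint_left]
        intro j hj hj'
        simp only [mem_sdiff, mem_U, box_mem_E, mem_filter, mem_Ico] at hj hj'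
        omega)
  have hsp := box_split ((T.box_G 0).filter (T.box_Sk s1 s2 s3)) (T.Hor c fun _ => True)
    fun j => j < c 1
  generalize (((T.box_G 0).filter (T.box_Sk s1 s2 s3)).filter (T.Hor c fun _ => True)).card = N2
    at main hsp
  generalize (((T.box_G 0).filter (T.box_Sk s1 s2 s3)).filter
    fun j => ¬ T.Hor c (fun _ => True) j ∧ ¬ j < c 1).card = N3 at main hsp
  generalize (((T.box_G 0).filter (T.box_Sk s1 s2 s3)).filter
    fun j => ¬ T.Hor c (fun _ => True) j ∧ j < c 1).card = N1 at main hsp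
  refine ⟨N2 + 2 * M + 2, N1 + N3 + 2 * M + 2, by push_cast; omega,
    -((N2 : ℤ) + M + 1), -((N3 : ℤ) + M + 1), fun t t0 tN => ?_⟩
  have := main t (by omega) (by omega)
  rw [e0, ← C.P_open t0 tN] at this
  push_cast
  omega

/-- Paper section 4 (A). `exists_rot`, `Bal.mass`, `exists_cut`; `X` = half of the steps of the
window with (`j < s1`, `s2 ≤ mu j < s3`) or (`s1 ≤ j < s2`, `s3 ≤ mu j`), `exists_beta`,
`exists_cert`. For `t ∈ [0,N]` use `t` or `t + N` in the window `[s0, s0+N]` (`P_per`, `P_sub`).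
`B s1 s3 - B s0 s2 = n12 + n03 - n01 - n23` (`A_per`; the steps of gap 3 whose mate is in
`[s0+N, s1+N)` correspond under `j ↦ mu j - N` to the steps of type 03), so the number `N2` of
horizontal steps and the number `V` of vertical ones differ by at most `40 L^3 + 1`;
`N2 + V + ΣA ≤ A s0 (s0+N)`; side `max N2 V + 2M + 2`. -/
theorem coreA (K : ℕ) : ∃ C : Cert T, ∃ S : ℕ, C.Box S S ∧
    4 * (K : ℤ) * S ≤ T.N * K + 2 * T.N + 12 + K * (80 * ((K : ℤ) + 1) ^ 3 + 22) := by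
  obtain ⟨s0, s1, s2, s3, p0, pN, hB, hF⟩ := T.exists_rot K
  obtain ⟨M, M0, M1, M2, M3, hM⟩ := hB.mass
  obtain ⟨o1, o2, o3, o4, -⟩ := hB
  have htot := T.box_total o1 o2 o3 o4
  obtain ⟨c, hm, hp, e0, e1, e2, e3, -⟩ := T.exists_cut o1 o2 o3 o4
  have c4 : c 4 = c 0 + T.N := hp 0
  obtain ⟨Y, hY⟩ : ∃ Y : Finset ℤ, Y = (T.box_G s0).filter fun j =>
      (j < s1 ∧ ¬ T.mu j < s2 ∧ T.mu j < s3) ∨ (¬ j < s1 ∧ j < s2 ∧ ¬ T.mu j < s3) := ⟨_, rfl⟩
  obtain ⟨X, hXY, hX⟩ := exists_subset_card_eq (s := Y) (Nat.div_le_self Y.card 2)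
  have hXG : ∀ i ∈ X, i ∈ T.box_G s0 ∧ ((i < s1 ∧ ¬ T.mu i < s2 ∧ T.mu i < s3) ∨
      (¬ i < s1 ∧ i < s2 ∧ ¬ T.mu i < s3)) := fun i hi => by
    have := hXY hi
    rwa [hY, mem_filter] at this
  obtain ⟨b, hb, hbX⟩ := T.exists_beta s0 X fun i hi => T.box_mem_G.1 (hXG i hi).1
  obtain ⟨C, -, C2, C3⟩ := T.exists_cert c hm hp b hb
  have main := fun t => T.box_main C.d c hm c4 b C2
    ((T.box_G s0).filter (T.box_Sk s1 s2 s3)) M (t := t) (by
    intro k t k0 k3 k1 k2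
    have hk := box_gap (c := c) k0 k3
    refine ⟨_, (C3 k t k1 k2).1, (C3 k t k1 k2).2, ?_⟩
    have hin : (T.U (c 0) t \ T.E (c k) (c (k + 1)) t) \
        (T.box_G s0).filter (T.box_Sk s1 s2 s3) = ∅ := eq_empty_of_forall_notMem fun j hj => by
      simp only [mem_sdiff, mem_U, box_mem_E, mem_filter, box_mem_G, box_Sk] at hj
      omega
    rw [hin, card_empty, zero_add]
    rcases hk with e | e | e | e <;> rw [e.1, e.2]
    · rwa [e0, e1]
    · rwa [e1, e2]
    · rwa [e2, e3]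
    · rwa [e3, c4, e0])
  have hsp := box_split ((T.box_G s0).filter (T.box_Sk s1 s2 s3)) (T.Hor c b) fun j => j < c 1
  have hXc : (X.card : ℤ) = ∑ j ∈ T.box_G s0, if j ∈ X then 1 else 0 := by
    rw [← box_card]
    congr 2
    ext j
    rw [mem_filter]
    exact ⟨fun h => ⟨(hXG j h).1, h⟩, fun h => h.2⟩
  have hid : 2 * ((((T.box_G s0).filter (T.box_Sk s1 s2 s3)).filter (T.Hor c b)).card : ℤ) +
      Y.card + T.B s0 s2 =
      ((T.box_G s0).filter (T.box_Sk s1 s2 s3)).card + 2 * X.card + T.B s1 s3 := by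
    unfold B
    rw [T.box_wrap o1 (by omega) o4, filter_filter, hXc, hY]
    push_cast
    rw [box_card, box_card, box_card, box_card,
      T.box_A (s0 := s0) (s := s0) (t := s2) le_rfl (by omega),
      T.box_A (s0 := s0) (s := s2) (by omega) le_rfl,
      T.box_A (s0 := s0) (s := s1) (t := s3) o1 o4,
      T.box_A (s0 := s0) (s := s3) (by omega) le_rfl,
      T.box_A (s0 := s0) (s := s0) (t := s1) le_rfl (by omega)]
    simp only [mul_sum, ← sum_add_distrib]
    refine sum_congr rfl fun j hj => ?_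
    have a1 := T.box_mem_G.1 hj
    have a2 := T.lt j
    have a3 : T.Hor c b j ↔ j < s2 ∧ ¬ T.mu j < s2 ∧ (j ∈ X ∨ (j < s1 ↔ ¬ T.mu j < s3)) := by
      unfold Hor
      rw [e1, e2, e3, hbX j a1.1 a1.2, not_lt, not_lt]
    have a4 : ¬ j < s0 := by omega
    simp only [a3, box_Sk]
    by_cases x : j ∈ X
    · rcases (hXG j x).2 with ⟨q1, q2, q3⟩ | ⟨q1, q2, q3⟩
      · have q4 : j < s2 := by omega
        have q5 : j < s3 := by omega
        have q6 : ¬ T.mu j < s1 := by omega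
        simp [x, q1, q2, q3, q4, q5, q6]
      · have q4 : ¬ T.mu j < s2 := by omega
        have q5 : j < s3 := by omega
        have q6 : ¬ T.mu j < s1 := by omega
        simp [x, q1, q2, q3, q4, q5, q6]
    · by_cases q1 : j < s1 <;> by_cases q2 : j < s2 <;> by_cases q3 : j < s3 <;>
        by_cases q4 : T.mu j < s1 <;> by_cases q5 : T.mu j < s2 <;> by_cases q6 : T.mu j < s3 <;>
        first
          | (exfalso; omega)
          | simp [x, q1, q2, q3, q4, q5, q6, a4, a1.2]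
  generalize (((T.box_G s0).filter (T.box_Sk s1 s2 s3)).filter (T.Hor c b)).card = N2
    at main hsp hid
  generalize (((T.box_G s0).filter (T.box_Sk s1 s2 s3)).filter
    fun j => ¬ T.Hor c b j ∧ ¬ j < c 1).card = N3 at main hsp
  generalize (((T.box_G s0).filter (T.box_Sk s1 s2 s3)).filter
    fun j => ¬ T.Hor c b j ∧ j < c 1).card = N1 at main hsp
  refine ⟨C, max N2 (N1 + N3) + 2 * M + 2,
    ⟨(C.P s0).1 - ((N2 : ℤ) + M + 1), (C.P s0).2 - ((N3 : ℤ) + M + 1), fun t t0 tN => ?_⟩, ?_⟩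
  · obtain ⟨t', u1, u2, u3⟩ : ∃ t', s0 ≤ t' ∧ t' ≤ s0 + T.N ∧ C.P t' = C.P t := by
      rcases le_or_gt s0 t with h | h
      · exact ⟨t, h, by omega, rfl⟩
      · exact ⟨t + T.N, by omega, by omega, C.P_per t0⟩
    have := main t' (by omega) (by omega)
    rw [e0, ← C.P_sub p0 u1 u2, u3, Prod.fst_sub, Prod.snd_sub] at this
    omega
  · rw [abs_le] at hF
    generalize ((K : ℤ) + 1) ^ 3 = L at hF ⊢
    have h5 : 4 * ((max N2 (N1 + N3) + 2 * M + 2 : ℕ) : ℤ) ≤ T.N + 2 * (4 * (M : ℤ) -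
        (T.A s0 s1 + T.A s1 s2 + T.A s2 s3 + T.A s3 (s0 + T.N))) + 80 * L + 10 := by omega
    have h6 := mul_le_mul_of_nonneg_left h5 (Nat.cast_nonneg (α := ℤ) K)
    linarith

end Mt
end
end Pool.Agent.Work.MP_37ce0f_lc.Q
end

-- merged part: Pool.Agent.Work.MP_37ce0f_lc.Q.Main
section
namespace Pool.Agent.Work.MP_37ce0f_lc.Q
open Pool.Agent.Work.MP_37ce0f_lc.W Finset Classical
noncomputable section
variable {n : ℕ} {G : SimpleGraph (Fin n)}

theorem small (hn : n < 2) (W H : ℕ) : ∃ D : Drawing n, Planar G D ∧ Preserves G D ∧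
    IsMono G D ∧ (∀ u v, D.bends u v = []) ∧ InBox G D W H := by
  have sub : ∀ u v : Fin n, u = v := fun u v => Fin.ext (by have := u.isLt; have := v.isLt; omega)
  have na : ∀ u v, ¬ G.Adj u v := fun u v k => k.ne (sub u v)
  refine ⟨⟨fun _ => (0, 0), fun _ _ => [], fun _ _ => rfl⟩,
    ⟨fun u v _ => sub u v, fun u v k => absurd k (na u v), fun u v _ k => absurd k (na u v),
      fun u v _ _ k => absurd k (na u v)⟩,
    fun v => ⟨(0, 1), by simp, fun t _ x y k => absurd k (na x y),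
      fun a b k => absurd k (na v a)⟩, fun u v => ?_, fun u v => rfl,
    0, 0, fun p hp => ?_⟩
  · rw [sub u v]; exact ⟨SimpleGraph.Walk.nil, by simp, (0, 0), by simp⟩
  · rcases hp with ⟨v, rfl⟩ | ⟨u, v, k, -⟩
    · refine ⟨le_rfl, ?_, le_rfl, ?_⟩ <;> positivity
    · exact absurd k (na u v)

theorem upperB (hc : G.Connected) (h : NoCross G) : ∃ (D : Drawing n) (W H : ℕ),
    Planar G D ∧ Preserves G D ∧ IsMono G D ∧ (∀ u v, D.bends u v = []) ∧ InBox G D W H ∧
      W + H ≤ n + 10 := by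
  rcases lt_or_ge n 2 with hn | hn
  · obtain ⟨D, h1, h2, h3, h4, h5⟩ := small (G := G) hn 0 0
    exact ⟨D, 0, 0, h1, h2, h3, h4, h5, by omega⟩
  obtain ⟨S, bfs⟩ := exists_bfs hc
  obtain ⟨R⟩ := exists_times h S
  obtain ⟨T, hN, m1, m2⟩ := exists_mt R hn
  have tip : ∀ r, 0 < r → r < T.N → T.mu (r - 1) = r → (∃ x, r = R.rho x) ∨ r = T.N := by
    intro r h0 h1 h2
    obtain ⟨v, hv, e⟩ := m2 (r - 1) (by omega) (by omega)
    have := m1 v hv
    have := R.en_rho v
    have := R.rho_ex v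
    rw [e] at h2
    exact Or.inl ⟨v, by omega⟩
  obtain ⟨C, hx, W, H, hb, hB⟩ := T.coreB (fun t => (∃ x, t = R.rho x) ∨ t = T.N)
    (Or.inl ⟨S.r, R.rho_r.symm⟩) (Or.inr rfl) tip
  let X : Dat G := ⟨S, R, T, C, h, bfs, hN, m1, m2, fun u v huv n1 n2 hl => by
    have hu := RT.ne_r_of_not_anc n1
    have hv := RT.ne_r_of_not_anc n2
    have a1 := R.nest _ _ (S.anc_r u) hu.symm
    have a2 := R.nest _ _ (S.anc_r v) hv.symm
    have a3 := R.left u v n1 n2 hl
    have := R.en_rho u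
    have := R.rho_ex u
    have := R.en_rho v
    have := R.rho_ex v
    have := R.en_r
    have := R.ex_r
    have hO : ∀ r, R.ex u < r → r < R.en v → ¬ ((∃ x, r = R.rho x) ∨ r = T.N) := by
      rintro r k1 k2 (⟨x, rfl⟩ | k)
      · exact R.no_rho h huv x ⟨k1, k2⟩
      · omega
    have g := C.good_of hx tip (s := R.ex u) (t := R.en v) (by omega) (by omega) (by omega) hO
    refine ⟨g, C.turn_of hx (by omega) (by omega) (by omega) hO g ?_ ?_⟩
    · rw [← m1 u hu, T.mm]; omega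
    · rw [m1 v hv]; omega⟩
  exact ⟨X.D, W, H, X.planar, X.preserves, X.isMono, fun _ _ => rfl, X.inBox hB, by omega⟩

theorem upperA (K : ℕ) (hK : 1 ≤ K) (hc : G.IsTree) (h : NoCross G) : ∃ D : Drawing n,
    Planar G D ∧ Preserves G D ∧ IsMono G D ∧ (∀ u v, D.bends u v = []) ∧
      InBox G D (n / 2 + n / K + 20 * (K + 1) ^ 3 + 10) (n / 2 + n / K + 20 * (K + 1) ^ 3 + 10) := by
  rcases lt_or_ge n 2 with hn | hn
  · exact small hn _ _
  obtain ⟨S, bfs⟩ := exists_bfs hc.connected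
  obtain ⟨R⟩ := exists_times h S
  obtain ⟨T, hN, m1, m2⟩ := exists_mt R hn
  obtain ⟨C, s, ⟨x0, y0, hB⟩, hb⟩ := T.coreA K
  let X : Dat G := ⟨S, R, T, C, h, bfs, hN, m1, m2, fun u v huv n1 n2 _ =>
    ((anc_of_acyclic hc.isAcyclic S huv).elim n1 n2).elim⟩
  have hs : s ≤ n / 2 + n / K + 20 * (K + 1) ^ 3 + 10 := by
    have e1 : n < K * (n / K + 1) := Nat.lt_mul_div_succ n hK
    have e2 : n ≤ 2 * (n / 2) + 1 := by omega
    generalize n / K = a at *
    generalize n / 2 = b at *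
    have e1' : (n : ℤ) < K * (a + 1) := by exact_mod_cast e1
    have e2' : (n : ℤ) ≤ 2 * b + 1 := by exact_mod_cast e2
    have k1 : (1 : ℤ) ≤ K := by exact_mod_cast hK
    have e3 : (K : ℤ) * n ≤ K * (2 * b + 1) := mul_le_mul_of_nonneg_left e2' (by omega)
    have : (K : ℤ) * s ≤ K * (b + a + 20 * (K + 1) ^ 3 + 10) := by
      rw [hN] at hb; nlinarith
    have := le_of_mul_le_mul_left this (by omega)
    exact_mod_cast this
  refine ⟨X.D, X.planar, X.preserves, X.isMono, fun _ _ => rfl, X.inBox ⟨x0, y0, fun t a b => ?_⟩⟩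
  have := hB t a b
  have hs' : (s : ℤ) ≤ ((n / 2 + n / K + 20 * (K + 1) ^ 3 + 10 : ℕ) : ℤ) := by exact_mod_cast hs
  change _ ≤ (C.P t).1 ∧ (C.P t).1 ≤ _ ∧ _ ≤ (C.P t).2 ∧ (C.P t).2 ≤ _
  omega

end
end Pool.Agent.Work.MP_37ce0f_lc.Q
end
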